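import Mathlib
import Pool.Agent.H19.CompList

/-!
The use principle: functions recursive in the characteristic function of a set `Z`
are given by partial recursive functions acting on finite initial segments of `Z`.
-/

set_option autoImplicit false

namespace Pool.Agent.H19

open Encodable

/-- The initial segment of length `s` of `X`. -/
def pre (X : ℕ → Bool) (s : ℕ) : List Bool := (List.range s).map X

theorem pre_length (X : ℕ → Bool) (s : ℕ) : (pre X s).length = s := by simp [pre]

theorem pre_getElem? (X : ℕ → Bool) {s n : ℕ} (h : n < s) : (pre X s)[n]? = some (X n) := by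
  simp [pre, h]

theorem pre_getD (X : ℕ → Bool) {s n : ℕ} (h : n < s) (d : Bool) : (pre X s).getD n d = X n := by
  simp [pre, h]

theorem pre_take (X : ℕ → Bool) {s t : ℕ} (h : t ≤ s) : (pre X s).take t = pre X t := by
  rw [pre, pre, ← List.map_take, List.take_range, min_eq_left h]

theorem pre_mono (X : ℕ → Bool) {s t : ℕ} (h : s ≤ t) : pre X s <+: pre X t := by
  rw [← pre_take X h]; exact List.take_prefix _ _

theorem prefix_pre_iff (X : ℕ → Bool) {σ : List Bool} {t : ℕ} :
    σ <+: pre X t ↔ σ.length ≤ t ∧ σ = pre X σ.length := by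
  constructor
  · intro h
    have hl := h.length_le
    rw [pre_length] at hl
    refine ⟨hl, ?_⟩
    rw [List.prefix_iff_eq_take] at h
    rw [pre_take X hl] at h
    exact h
  · rintro ⟨hl, h⟩
    rw [h]; exact pre_mono X (by simpa [pre_length] using hl)

/-- The characteristic function of a set of natural numbers given by a Boolean sequence, as a
partial function. -/
def chi (Z : ℕ → Bool) : ℕ →. ℕ := fun n => Part.some (if Z n then 1 else 0)

/-- Data of a monotone partial recursive function on finite strings computing `f` from `Z`. -/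
def Represents (F : ℕ → List Bool → Part ℕ) (Z : ℕ → Bool) (f : ℕ →. ℕ) : Prop :=
  Partrec₂ F ∧ (∀ n σ τ v, σ <+: τ → v ∈ F n σ → v ∈ F n τ) ∧
    (∀ n v, v ∈ f n ↔ ∃ s, v ∈ F n (pre Z s))

theorem mem_rfind0 {G : ℕ → Part ℕ} {v : ℕ} :
    v ∈ Nat.rfind (fun n => (fun m => decide (m = 0)) <$> G n) ↔
      0 ∈ G v ∧ ∀ m < v, ∃ k, k ≠ 0 ∧ k ∈ G m := by
  refine Iff.trans Nat.mem_rfind ?_
  constructor
  · rintro ⟨h1, h2⟩
    obtain ⟨a, ha, hb⟩ := (Part.mem_map_iff _).1 h1
    have ha0 : a = 0 := by simpa using hb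
    subst ha0
    refine ⟨ha, fun m hm => ?_⟩
    obtain ⟨k, hk, hk'⟩ := (Part.mem_map_iff _).1 (h2 hm)
    exact ⟨k, by simpa using hk', hk⟩
  · rintro ⟨h1, h2⟩
    refine ⟨(Part.mem_map_iff _).2 ⟨0, h1, by simp⟩, fun {m} hm => ?_⟩
    obtain ⟨k, hk, hk'⟩ := h2 m hm
    exact (Part.mem_map_iff _).2 ⟨k, hk', by simpa using hk⟩

theorem represents_of_partrec {f : ℕ →. ℕ} (hf : Partrec f) (Z : ℕ → Bool) :
    Represents (fun n _ => f n) Z f :=
  ⟨hf.comp Computable.fst, fun _ _ _ _ _ h => h, fun _ _ => ⟨fun h => ⟨0, h⟩, fun ⟨_, h⟩ => h⟩⟩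

theorem use_principle (Z : ℕ → Bool) {f : ℕ →. ℕ} (hf : Nat.RecursiveIn {chi Z} f) :
    ∃ F, Represents F Z f := by
  induction hf with
  | zero => exact ⟨_, represents_of_partrec (Partrec.nat_iff.2 Nat.Partrec.zero) Z⟩
  | succ => exact ⟨_, represents_of_partrec (Partrec.nat_iff.2 Nat.Partrec.succ) Z⟩
  | left => exact ⟨_, represents_of_partrec (Partrec.nat_iff.2 Nat.Partrec.left) Z⟩
  | right => exact ⟨_, represents_of_partrec (Partrec.nat_iff.2 Nat.Partrec.right) Z⟩
  | oracle g hg =>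
    rw [Set.mem_singleton_iff] at hg
    subst hg
    refine ⟨fun n σ => ((σ[n]?).map (fun b : Bool => if b then 1 else 0) : Option ℕ), ?_, ?_, ?_⟩
    · have h1 : Computable₂ (fun (n : ℕ) (σ : List Bool) =>
          (σ[n]?).map (fun b : Bool => if b then 1 else 0)) := by
        refine Computable.option_map (Computable.list_getElem?.comp Computable.snd Computable.fst) ?_
        exact comp_ite (c := fun p : (ℕ × List Bool) × Bool => p.2) Computable.snd
          (Computable.const 1) (Computable.const 0)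
      exact Computable.ofOption h1
    · intro n σ τ v hστ hv
      simp only [Part.mem_coe, Option.mem_def, Option.map_eq_some_iff] at hv ⊢
      obtain ⟨b, hb, hv⟩ := hv
      refine ⟨b, ?_, hv⟩
      have hn : n < σ.length := by
        rw [List.getElem?_eq_some_iff] at hb
        exact hb.1
      obtain ⟨u, rfl⟩ := hστ
      rw [List.getElem?_append_left hn]; exact hb
    · intro n v
      simp only [chi, Part.mem_some_iff, Part.mem_coe, Option.mem_def, Option.map_eq_some_iff]
      constructor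
      · rintro rfl
        exact ⟨n + 1, Z n, pre_getElem? Z (Nat.lt_succ_self n), rfl⟩
      · rintro ⟨s, b, hb, rfl⟩
        have hn : n < s := by
          rw [List.getElem?_eq_some_iff] at hb
          simpa [pre_length] using hb.1
        rw [pre_getElem? Z hn] at hb
        simp only [Option.some.injEq] at hb
        rw [hb]
  | @pair f g _ _ ihf ihg =>
    obtain ⟨F, hF1, hF2, hF3⟩ := ihf
    obtain ⟨G, hG1, hG2, hG3⟩ := ihg
    refine ⟨fun n σ => Nat.pair <$> F n σ <*> G n σ, ?_, ?_, ?_⟩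
    · have : Partrec₂ (fun (n : ℕ) (σ : List Bool) =>
          (F n σ).bind fun a => (G n σ).map fun b => Nat.pair a b) := by
        refine Partrec.bind hF1 ?_
        refine Partrec.map (hG1.comp (Computable.fst.comp Computable.fst)
          (Computable.snd.comp Computable.fst)) ?_
        exact comp_natpair (Computable.snd.comp Computable.fst) Computable.snd
      refine this.of_eq fun p => ?_
      simp [Seq.seq]
    · intro n σ τ v hστ hv
      simp only [Seq.seq, Part.map_eq_map, Part.mem_bind_iff, Part.mem_map_iff] at hv ⊢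
      obtain ⟨w, ⟨a, ha, rfl⟩, b, hb, hv⟩ := hv
      exact ⟨_, ⟨a, hF2 _ _ _ _ hστ ha, rfl⟩, b, hG2 _ _ _ _ hστ hb, hv⟩
    · intro n v
      simp only [Seq.seq, Part.map_eq_map, Part.mem_bind_iff, Part.mem_map_iff]
      constructor
      · rintro ⟨w, ⟨a, ha, rfl⟩, b, hb, hv⟩
        obtain ⟨s, hs⟩ := (hF3 _ _).1 ha
        obtain ⟨t, ht⟩ := (hG3 _ _).1 hb
        exact ⟨max s t, _, ⟨a, hF2 _ _ _ _ (pre_mono Z (le_max_left s t)) hs, rfl⟩, b,
          hG2 _ _ _ _ (pre_mono Z (le_max_right s t)) ht, hv⟩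
      · rintro ⟨s, w, ⟨a, ha, rfl⟩, b, hb, hv⟩
        exact ⟨_, ⟨a, (hF3 _ _).2 ⟨s, ha⟩, rfl⟩, b, (hG3 _ _).2 ⟨s, hb⟩, hv⟩
  | @comp f g _ _ ihf ihg =>
    obtain ⟨F, hF1, hF2, hF3⟩ := ihf
    obtain ⟨G, hG1, hG2, hG3⟩ := ihg
    refine ⟨fun n σ => (G n σ).bind fun m => F m σ, ?_, ?_, ?_⟩
    · exact Partrec.bind hG1 (hF1.comp Computable.snd (Computable.snd.comp Computable.fst))
    · intro n σ τ v hστ hv
      simp only [Part.mem_bind_iff] at hv ⊢
      obtain ⟨a, ha, hv⟩ := hv
      exact ⟨a, hG2 _ _ _ _ hστ ha, hF2 _ _ _ _ hστ hv⟩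
    · intro n v
      change (v ∈ (g n).bind f) ↔ ∃ s, v ∈ (G n (pre Z s)).bind fun m => F m (pre Z s)
      simp only [Part.mem_bind_iff]
      constructor
      · rintro ⟨a, ha, hv⟩
        obtain ⟨s, hs⟩ := (hG3 _ _).1 ha
        obtain ⟨t, ht⟩ := (hF3 _ _).1 hv
        exact ⟨max s t, a, hG2 _ _ _ _ (pre_mono Z (le_max_left s t)) hs,
          hF2 _ _ _ _ (pre_mono Z (le_max_right s t)) ht⟩
      · rintro ⟨s, a, ha, hv⟩
        exact ⟨a, (hG3 _ _).2 ⟨s, ha⟩, (hF3 _ _).2 ⟨s, hv⟩⟩
  | @prec f g _ _ ihf ihg =>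
    obtain ⟨F, hF1, hF2, hF3⟩ := ihf
    obtain ⟨G, hG1, hG2, hG3⟩ := ihg
    let R : ℕ → List Bool → ℕ → Part ℕ := fun a σ n =>
      Nat.rec (F a σ) (fun y IH => IH.bind fun i => G (Nat.pair a (Nat.pair y i)) σ) n
    let r : ℕ → ℕ → Part ℕ := fun a n =>
      Nat.rec (f a) (fun y IH => IH.bind fun i => g (Nat.pair a (Nat.pair y i))) n
    have hmono : ∀ a n σ τ v, σ <+: τ → v ∈ R a σ n → v ∈ R a τ n := by
      intro a n
      induction n with
      | zero => intro σ τ v h hv; exact hF2 _ _ _ _ h hv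
      | succ n ih =>
        intro σ τ v h hv
        have hv' : v ∈ (R a σ n).bind fun i => G (Nat.pair a (Nat.pair n i)) σ := hv
        show v ∈ (R a τ n).bind fun i => G (Nat.pair a (Nat.pair n i)) τ
        rw [Part.mem_bind_iff] at hv' ⊢
        obtain ⟨i, hi, hv'⟩ := hv'
        exact ⟨i, ih _ _ _ h hi, hG2 _ _ _ _ h hv'⟩
    have hcont : ∀ a n v, v ∈ r a n ↔ ∃ s, v ∈ R a (pre Z s) n := by
      intro a n
      induction n with
      | zero => intro v; exact hF3 _ _
      | succ n ih =>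
        intro v
        show (v ∈ (r a n).bind fun i => g (Nat.pair a (Nat.pair n i))) ↔
          ∃ s, v ∈ (R a (pre Z s) n).bind fun i => G (Nat.pair a (Nat.pair n i)) (pre Z s)
        simp only [Part.mem_bind_iff]
        constructor
        · rintro ⟨i, hi, hv⟩
          obtain ⟨s, hs⟩ := (ih _).1 hi
          obtain ⟨t, ht⟩ := (hG3 _ _).1 hv
          exact ⟨max s t, i, hmono _ _ _ _ _ (pre_mono Z (le_max_left s t)) hs,
            hG2 _ _ _ _ (pre_mono Z (le_max_right s t)) ht⟩
        · rintro ⟨s, i, hi, hv⟩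
          exact ⟨i, (ih _).2 ⟨s, hi⟩, (hG3 _ _).2 ⟨s, hv⟩⟩
    refine ⟨fun p σ => R p.unpair.1 σ p.unpair.2, ?_, ?_, ?_⟩
    · have h1 : Partrec₂ (fun (x : ℕ × List Bool) (q : ℕ × ℕ) =>
          G (Nat.pair x.1.unpair.1 (Nat.pair q.1 q.2)) x.2) := by
        refine hG1.comp ?_ (Computable.snd.comp Computable.fst)
        refine comp_natpair ?_ ?_
        · exact Computable.fst.comp (Computable.unpair.comp (Computable.fst.comp Computable.fst))
        · exact comp_natpair (Computable.fst.comp Computable.snd)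
            (Computable.snd.comp Computable.snd)
      have h2 : Partrec (fun x : ℕ × List Bool => F x.1.unpair.1 x.2) :=
        hF1.comp (Computable.fst.comp (Computable.unpair.comp Computable.fst)) Computable.snd
      exact Partrec.nat_rec (f := fun x : ℕ × List Bool => x.1.unpair.2)
        (Computable.snd.comp (Computable.unpair.comp Computable.fst)) h2 h1
    · intro n σ τ v hστ hv
      exact hmono _ _ _ _ _ hστ hv
    · intro n v
      exact hcont _ _ _
  | @rfind f _ ihf =>
    obtain ⟨F, hF1, hF2, hF3⟩ := ihf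
    refine ⟨fun a σ => Nat.rfind fun n => (fun m => decide (m = 0)) <$> F (Nat.pair a n) σ,
      ?_, ?_, ?_⟩
    · refine Partrec.rfind ?_
      refine Partrec.map (hF1.comp (comp_natpair (Computable.fst.comp Computable.fst)
        Computable.snd) (Computable.snd.comp Computable.fst)) ?_
      exact comp_decEq Computable.snd (Computable.const 0)
    · intro n σ τ v hστ hv
      obtain ⟨h1, h2⟩ := mem_rfind0.1 hv
      refine mem_rfind0.2 ⟨hF2 _ _ _ _ hστ h1, fun m hm => ?_⟩
      obtain ⟨k, hk, hk'⟩ := h2 m hm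
      exact ⟨k, hk, hF2 _ _ _ _ hστ hk'⟩
    · intro n v
      constructor
      · intro h
        obtain ⟨h1, h2⟩ := (mem_rfind0 (G := fun m => f (Nat.pair n m))).1 h
        have key : ∀ N, N ≤ v → ∃ s, ∀ m < N, ∃ k, k ≠ 0 ∧ k ∈ F (Nat.pair n m) (pre Z s) := by
          intro N
          induction N with
          | zero => intro _; exact ⟨0, fun m hm => absurd hm (Nat.not_lt_zero m)⟩
          | succ N ih =>
            intro hN
            obtain ⟨s, hs⟩ := ih (le_of_lt hN)
            obtain ⟨k, hk, hk'⟩ := h2 N hN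
            obtain ⟨t, ht⟩ := (hF3 _ _).1 hk'
            refine ⟨max s t, fun m hm => ?_⟩
            rcases Nat.lt_succ_iff_lt_or_eq.1 hm with hm | rfl
            · obtain ⟨k', h3, h4⟩ := hs m hm
              exact ⟨k', h3, hF2 _ _ _ _ (pre_mono Z (le_max_left s t)) h4⟩
            · exact ⟨k, hk, hF2 _ _ _ _ (pre_mono Z (le_max_right s t)) ht⟩
        obtain ⟨s, hs⟩ := key v le_rfl
        obtain ⟨t, ht⟩ := (hF3 _ _).1 h1
        refine ⟨max s t, mem_rfind0.2 ⟨hF2 _ _ _ _ (pre_mono Z (le_max_right s t)) ht,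
          fun m hm => ?_⟩⟩
        obtain ⟨k', h3, h4⟩ := hs m hm
        exact ⟨k', h3, hF2 _ _ _ _ (pre_mono Z (le_max_left s t)) h4⟩
      · rintro ⟨s, hs⟩
        obtain ⟨h1, h2⟩ := mem_rfind0.1 hs
        refine (mem_rfind0 (G := fun m => f (Nat.pair n m))).2
          ⟨(hF3 _ _).2 ⟨s, h1⟩, fun m hm => ?_⟩
        obtain ⟨k, hk, hk'⟩ := h2 m hm
        exact ⟨k, hk, (hF3 _ _).2 ⟨s, hk'⟩⟩

/-- Every partial recursive function of a number and a string is given by a code. -/
theorem exists_code_of_partrec₂ {F : ℕ → List Bool → Part ℕ} (hF : Partrec₂ F) :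
    ∃ c : Nat.Partrec.Code, ∀ n σ, c.eval (encode (n, σ)) = F n σ := by
  obtain ⟨c, hc⟩ := Nat.Partrec.Code.exists_code.1 hF
  refine ⟨c, fun n σ => ?_⟩
  rw [hc]
  simp only [encodek, Part.coe_some, Part.bind_some]
  exact Part.map_id' (fun x => rfl) _

/-- The code `c` computes the set `B` from the oracle `Z`. -/
def CodeComputes (c : Nat.Partrec.Code) (Z B : ℕ → Bool) : Prop :=
  (∀ n s v, v ∈ c.eval (encode (n, pre Z s)) → v = if B n then 1 else 0) ∧
    (∀ n, ∃ s, (if B n then 1 else 0) ∈ c.eval (encode (n, pre Z s)))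

theorem exists_codeComputes {Z B : ℕ → Bool} (h : TuringReducible (chi B) (chi Z)) :
    ∃ c, CodeComputes c Z B := by
  obtain ⟨F, hF1, _, hF3⟩ := use_principle Z (RecursiveIn.iff_nat.1 h)
  obtain ⟨c, hc⟩ := exists_code_of_partrec₂ hF1
  refine ⟨c, fun n s v hv => ?_, fun n => ?_⟩
  · rw [hc] at hv
    have := (hF3 n v).2 ⟨s, hv⟩
    simpa [chi] using this
  · have : (if B n then 1 else 0) ∈ chi B n := by simp [chi]
    obtain ⟨s, hs⟩ := (hF3 n _).1 this
    exact ⟨s, by rw [hc]; exact hs⟩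

end Pool.Agent.H19
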