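import Mathlib
import Pool.Agent.H19.Use

/-!
Total functions recursive in the characteristic function of a set: closure properties, and the
converse of the use principle.
-/

set_option autoImplicit false

namespace Pool.Agent.H19

open Encodable

/-- The total function `f` is recursive in the oracle `Z`. -/
def TotRec (Z : ℕ → Bool) (f : ℕ → ℕ) : Prop :=
  Nat.RecursiveIn {chi Z} (fun n => Part.some (f n))

theorem TotRec.of_computable {Z : ℕ → Bool} {f : ℕ → ℕ} (hf : Computable f) : TotRec Z f :=
  Nat.Partrec.recursiveIn (Partrec.nat_iff.1 hf.partrec)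

theorem TotRec.comp {Z : ℕ → Bool} {f g : ℕ → ℕ} (hf : TotRec Z f) (hg : TotRec Z g) :
    TotRec Z (fun n => f (g n)) :=
  (Nat.RecursiveIn.comp hf hg).of_eq fun n => Part.bind_some _ _

theorem TotRec.pair {Z : ℕ → Bool} {f g : ℕ → ℕ} (hf : TotRec Z f) (hg : TotRec Z g) :
    TotRec Z (fun n => Nat.pair (f n) (g n)) :=
  (Nat.RecursiveIn.pair hf hg).of_eq fun n => by simp [Seq.seq]

theorem TotRec.oracle (Z : ℕ → Bool) : TotRec Z (fun n => if Z n then 1 else 0) :=
  Nat.RecursiveIn.oracle _ (Set.mem_singleton _)

theorem TotRec.comp_computable {Z : ℕ → Bool} {f g : ℕ → ℕ} (hf : Computable f)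
    (hg : TotRec Z g) : TotRec Z (fun n => f (g n)) :=
  (TotRec.of_computable hf).comp hg

theorem TotRec.comp_computable₂ {Z : ℕ → Bool} {f : ℕ → ℕ → ℕ} {g h : ℕ → ℕ}
    (hf : Computable₂ f) (hg : TotRec Z g) (hh : TotRec Z h) :
    TotRec Z (fun n => f (g n) (h n)) := by
  have h1 : Computable (fun p : ℕ => f p.unpair.1 p.unpair.2) :=
    hf.comp (Computable.fst.comp Computable.unpair) (Computable.snd.comp Computable.unpair)
  have := TotRec.comp_computable (Z := Z) h1 (hg.pair hh)
  simpa using this

theorem TotRec.prec {Z : ℕ → Bool} {f h : ℕ → ℕ} (hf : TotRec Z f) (hh : TotRec Z h) :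
    TotRec Z (fun p => Nat.rec (f p.unpair.1)
      (fun y i => h (Nat.pair p.unpair.1 (Nat.pair y i))) p.unpair.2) := by
  refine (Nat.RecursiveIn.prec hf hh).of_eq fun p => ?_
  change (Nat.rec (Part.some (f p.unpair.1)) (fun y IH => IH.bind fun i =>
    Part.some (h (Nat.pair p.unpair.1 (Nat.pair y i)))) p.unpair.2 : Part ℕ) =
    Part.some (Nat.rec (f p.unpair.1)
      (fun y i => h (Nat.pair p.unpair.1 (Nat.pair y i))) p.unpair.2 : ℕ)
  induction p.unpair.2 with
  | zero => rfl
  | succ n ih =>
    simp only
    rw [ih]
    simp

/-- The code of the initial segment of the oracle, as a function of its length. -/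
theorem TotRec.pre (Z : ℕ → Bool) : TotRec Z (fun n => encode (pre Z n)) := by
  have h0 : TotRec Z (fun _ => encode ([] : List Bool)) :=
    TotRec.of_computable (Computable.const _)
  let st : ℕ → ℕ → ℕ := fun i b =>
    encode (((decode (α := List Bool) i).getD []) ++ [decide (b = 1)])
  have hst : Computable₂ st := by
    refine Computable.encode.comp ?_
    refine Computable.list_append.comp ?_ ?_
    · exact Computable.option_getD (Computable.decode.comp Computable.fst) (Computable.const [])
    · exact Computable.list_cons.comp (comp_decEq Computable.snd (Computable.const 1))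
        (Computable.const [])
  have h1 : TotRec Z (fun p : ℕ => st p.unpair.2.unpair.2
      ((fun n => if Z n then 1 else 0) p.unpair.2.unpair.1)) := by
    refine TotRec.comp_computable₂ hst (TotRec.of_computable ?_) ((TotRec.oracle Z).comp
      (TotRec.of_computable ?_))
    · exact Computable.snd.comp (Computable.unpair.comp (Computable.snd.comp Computable.unpair))
    · exact Computable.fst.comp (Computable.unpair.comp (Computable.snd.comp Computable.unpair))
  have h2 := (TotRec.prec h0 h1).comp (TotRec.pair (TotRec.of_computable (Computable.const 0))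
    (TotRec.of_computable Computable.id))
  refine (h2 : Nat.RecursiveIn _ _).of_eq fun n => ?_
  simp only [Nat.unpair_pair, id_eq, Part.some_inj]
  induction n with
  | zero => rfl
  | succ n ih =>
    simp only
    rw [ih]
    simp only [st, encodek, Option.getD_some]
    congr 1
    rw [Pool.Agent.H19.pre, Pool.Agent.H19.pre, List.range_succ, List.map_append]
    congr 1
    cases hZ : Z n <;> simp [hZ]

theorem TotRec.find {Z : ℕ → Bool} {h : ℕ → ℕ} (hh : TotRec Z h)
    (hex : ∀ a, ∃ n, h (Nat.pair a n) = 0) :
    ∃ g : ℕ → ℕ, TotRec Z g ∧ ∀ a, h (Nat.pair a (g a)) = 0 := by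
  refine ⟨fun a => Nat.find (hex a), ?_, fun a => Nat.find_spec (hex a)⟩
  refine (Nat.RecursiveIn.rfind hh).of_eq fun a => ?_
  refine Part.eq_some_iff.2 ?_
  refine (mem_rfind0 (G := fun n => Part.some (h (Nat.pair a n)))).2 ⟨?_, fun m hm => ?_⟩
  · rw [Nat.find_spec (hex a)]; exact Part.mem_some _
  · exact ⟨h (Nat.pair a m), Nat.find_min (hex a) hm, Part.mem_some _⟩

/-- Converse of the use principle. -/
theorem turingReducible_of_codeComputes {c : Nat.Partrec.Code} {Z B : ℕ → Bool}
    (h : CodeComputes c Z B) : TuringReducible (chi B) (chi Z) := by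
  -- the search: `q` codes a pair of a length and a number of steps
  let ev : ℕ → ℕ → Option ℕ := fun n q =>
    Nat.Partrec.Code.evaln q.unpair.1 c
      (encode (n, ((decode (α := List Bool) q.unpair.2).getD [])))
  have hev : Computable₂ ev := by
    have h1 : Computable (fun x : ℕ × ℕ => ((x.2.unpair.1, c),
        encode (x.1, ((decode (α := List Bool) x.2.unpair.2).getD [])))) := by
      refine Computable.pair (Computable.pair ?_ (Computable.const c)) ?_
      · exact Computable.fst.comp (Computable.unpair.comp Computable.snd)
      · refine Computable.encode.comp (Computable.pair Computable.fst ?_)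
        exact Computable.option_getD (Computable.decode.comp
          (Computable.snd.comp (Computable.unpair.comp Computable.snd))) (Computable.const [])
    exact (Nat.Partrec.Code.primrec_evaln.to_comp).comp h1
  have hq : TotRec Z (fun p => Nat.pair (p.unpair.2.unpair.1)
      (encode (pre Z p.unpair.2.unpair.2))) := by
    refine TotRec.pair (TotRec.of_computable ?_) ((TotRec.pre Z).comp (TotRec.of_computable ?_))
    · exact Computable.fst.comp (Computable.unpair.comp (Computable.snd.comp Computable.unpair))
    · exact Computable.snd.comp (Computable.unpair.comp (Computable.snd.comp Computable.unpair))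
  have hev1 : Computable₂ (fun n q => if (ev n q).isSome then 0 else 1) := by
    refine comp_ite (c := fun x : ℕ × ℕ => (ev x.1 x.2).isSome) ?_ (Computable.const 0)
      (Computable.const 1)
    exact (Primrec.option_isSome.to_comp).comp hev
  have hev2 : Computable₂ (fun n q => (ev n q).getD 0) :=
    Computable.option_getD hev (Computable.const 0)
  have htest : TotRec Z (fun p => (fun n q => if (ev n q).isSome then 0 else 1) p.unpair.1
      (Nat.pair (p.unpair.2.unpair.1) (encode (pre Z p.unpair.2.unpair.2)))) :=
    TotRec.comp_computable₂ hev1 (TotRec.of_computable (Computable.fst.comp Computable.unpair)) hq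
  obtain ⟨g, hg, hg0⟩ := TotRec.find htest (by
    intro n
    obtain ⟨s, hs⟩ := h.2 n
    obtain ⟨k, hk⟩ := Nat.Partrec.Code.evaln_complete.1 hs
    refine ⟨Nat.pair k s, ?_⟩
    simp only [Nat.unpair_pair, ev, encodek, Option.getD_some]
    rw [if_pos]
    rw [Option.mem_def] at hk
    rw [hk]; rfl)
  have hval : TotRec Z (fun n => (fun n q => (ev n q).getD 0) n
      (Nat.pair ((g n).unpair.1) (encode (pre Z (g n).unpair.2)))) := by
    refine TotRec.comp_computable₂ hev2 (TotRec.of_computable Computable.id) ?_
    refine TotRec.pair ((TotRec.of_computable (Computable.fst.comp Computable.unpair)).comp hg)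
      ((TotRec.pre Z).comp ((TotRec.of_computable
        (Computable.snd.comp Computable.unpair)).comp hg))
  refine RecursiveIn.iff_nat.2 ((hval : Nat.RecursiveIn _ _).of_eq fun n => ?_)
  have h0 := hg0 n
  simp only [Nat.unpair_pair, ev, encodek, Option.getD_some] at h0 ⊢
  cases hE : Nat.Partrec.Code.evaln (g n).unpair.1 c (encode (n, pre Z (g n).unpair.2)) with
  | none => rw [hE] at h0; simp at h0
  | some v =>
    have := h.1 n (g n).unpair.2 v (Nat.Partrec.Code.evaln_sound (Option.mem_def.2 hE))
    simp [chi, this]

theorem turingReducible_iff {Z B : ℕ → Bool} :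
    TuringReducible (chi B) (chi Z) ↔ ∃ c, CodeComputes c Z B :=
  ⟨exists_codeComputes, fun ⟨_, h⟩ => turingReducible_of_codeComputes h⟩

/-- A convenient form: computation from an initial segment of computable length. -/
theorem turingReducible_of_computable {Z B : ℕ → Bool} {F : ℕ → List Bool → Bool}
    (hF : Computable₂ F) {g : ℕ → ℕ} (hg : Computable g)
    (h : ∀ n, F n (pre Z (g n)) = B n) : TuringReducible (chi B) (chi Z) := by
  have h1 : Computable₂ (fun (n i : ℕ) =>
      if F n ((decode (α := List Bool) i).getD []) then 1 else 0) := by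
    refine comp_ite (c := fun x : ℕ × ℕ => F x.1 ((decode (α := List Bool) x.2).getD [])) ?_
      (Computable.const 1) (Computable.const 0)
    exact hF.comp Computable.fst (Computable.option_getD (Computable.decode.comp Computable.snd)
      (Computable.const []))
  have h2 : TotRec Z (fun n => (fun (n i : ℕ) =>
      if F n ((decode (α := List Bool) i).getD []) then 1 else 0) n (encode (pre Z (g n)))) :=
    TotRec.comp_computable₂ h1 (TotRec.of_computable Computable.id)
      ((TotRec.pre Z).comp (TotRec.of_computable hg))
  refine RecursiveIn.iff_nat.2 ((h2 : Nat.RecursiveIn _ _).of_eq fun n => ?_)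
  simp [chi, h n]

end Pool.Agent.H19
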