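import Mathlib
import Pool.Agent.H19.Reduce

/-!
A finite injury construction whose positive requirements act simultaneously on all members of a
finite block of oracles.
-/

set_option autoImplicit false

namespace Pool.Agent.H19

open Encodable Nat.Partrec

/-- Records: tag, index, witness, stage, string. -/
abbrev Rec := ℕ × ℕ × ℕ × ℕ × List Bool

/-- `σ` is an initial segment of `τ`. -/
def isPre (σ τ : List Bool) : Bool := decide (τ.take σ.length = σ)

theorem isPre_iff {σ τ : List Bool} : isPre σ τ = true ↔ σ <+: τ := by
  rw [isPre, decide_eq_true_iff, List.prefix_iff_eq_take, eq_comm]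

/-- One plus the greatest stage of a record satisfying `p`, or zero. -/
def supBy (H : List Rec) (p : Rec → Bool) : ℕ :=
  ((H.filter p).map (fun r => r.2.2.2.1 + 1)).foldl max 0

theorem foldl_max_le {l : List ℕ} {m N : ℕ} : l.foldl max m ≤ N ↔ m ≤ N ∧ ∀ x ∈ l, x ≤ N := by
  induction l generalizing m with
  | nil => simp
  | cons a l ih => simp [ih, and_assoc]

theorem supBy_le {H : List Rec} {p : Rec → Bool} {N : ℕ} :
    supBy H p ≤ N ↔ ∀ r ∈ H, p r = true → r.2.2.2.1 + 1 ≤ N := by
  rw [supBy, foldl_max_le]
  simp only [zero_le, true_and, List.mem_map, List.mem_filter]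
  constructor
  · intro h r hr hp; exact h _ ⟨r, ⟨hr, hp⟩, rfl⟩
  · rintro h x ⟨r, ⟨hr, hp⟩, rfl⟩; exact h r hr hp

theorem le_supBy {H : List Rec} {p : Rec → Bool} {r : Rec} (hr : r ∈ H) (hp : p r = true) :
    r.2.2.2.1 + 1 ≤ supBy H p :=
  supBy_le.1 le_rfl r hr hp

def pa (e : ℕ) (ρ : List Bool) (r : Rec) : Bool :=
  (decide (r.1 ≤ 1) && decide (r.2.1 = e)) && isPre r.2.2.2.2 ρ

def pb (e : ℕ) (ρ : List Bool) (r : Rec) : Bool :=
  (decide (r.1 = 0) && decide (r.2.1 < e)) && isPre r.2.2.2.2 ρ

def aVal (H : List Rec) (e : ℕ) (ρ : List Bool) : ℕ := supBy H (pa e ρ)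

def bVal (H : List Rec) (e : ℕ) (ρ : List Bool) : ℕ := supBy H (pb e ρ)

def acted (H : List Rec) (e : ℕ) (ρ : List Bool) : Bool :=
  H.any (fun r => (decide (r.1 = 2) && decide (r.2.1 = e)) && isPre r.2.2.2.2 ρ)

def inV (H : List Rec) (w : ℕ) (ρ : List Bool) : Bool :=
  H.any (fun r => (decide (r.1 = 0) && decide (r.2.2.1 = w)) && isPre r.2.2.2.2 ρ)

def inC (H : List Rec) (x : ℕ) (ρ : List Bool) : Bool :=
  H.any (fun r => (decide (r.1 = 3) && decide (r.2.2.1 = x)) && isPre r.2.2.2.2 ρ)

def wHat (H : List Rec) (ρ : List Bool) (k : ℕ) : List Bool :=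
  (List.range k).map
    (fun p => if decide (p % 2 = 0) then ρ.getD (p / 2) false else inV H (p / 2) ρ)

def conv (s e w : ℕ) (σ : List Bool) : Bool :=
  decide (Code.evaln s (Denumerable.ofNat Code e) (encode (w, σ)) = some 0)

def actP (s : ℕ) (H : List Rec) (e : ℕ) (ρ : List Bool) : Bool :=
  !(acted H e ρ) &&
    (List.range (s + 1)).any (fun k => conv s e (Nat.pair e (aVal H e ρ)) (ρ.take k))

def actN (s : ℕ) (H : List Rec) (e : ℕ) (ρ : List Bool) : Bool :=
  !(inC H (Nat.pair e (bVal H e ρ)) ρ) &&
    (List.range (s + 1)).any (fun k => conv s e (Nat.pair e (bVal H e ρ)) (wHat H ρ k))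

/-- All strings of length `s`. -/
def strs : ℕ → List (List Bool)
  | 0 => [[]]
  | s + 1 => (strs s).flatMap (fun σ => [σ ++ [false], σ ++ [true]])

section

variable (k : ℕ → ℕ) (T : ℕ → ℕ → List Bool → List Bool) (u : ℕ → ℕ)

def recP (s : ℕ) (H : List Rec) (e : ℕ) (σ : List Bool) : List Rec :=
  (if actP s H e (σ.take (u s)) then [(2, e, 0, s, σ)] else []) ++
    (List.range (k e)).flatMap (fun j =>
      if actP s H e ((T e j σ).take (u s)) then
        [(0, e, Nat.pair e (aVal H e ((T e j σ).take (u s))), s, σ)] else [])

def recN (s : ℕ) (H : List Rec) (e : ℕ) (σ : List Bool) : List Rec :=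
  (if actN s H e (σ.take (u s)) then
      [(3, e, Nat.pair e (bVal H e (σ.take (u s))), s, σ)] else []) ++
    (List.range (s + 1)).flatMap (fun e' => (List.range (k e')).flatMap (fun j =>
      if decide (e ≤ e') && actN s H e ((T e' j σ).take (u s)) then [(1, e', 0, s, σ)] else []))

def newP (s : ℕ) (H : List Rec) : List Rec :=
  (List.range (s + 1)).flatMap fun e => (strs (u (s + 1))).flatMap fun σ => recP k T u s H e σ

def newN (s : ℕ) (H : List Rec) : List Rec :=
  (List.range (s + 1)).flatMap fun e => (strs (u (s + 1))).flatMap fun σ => recN k T u s H e σ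

/-- The history of the construction before stage `s`. -/
def hist : ℕ → List Rec
  | 0 => []
  | s + 1 => hist s ++
      (if decide (s % 2 = 0) then newP k T u s (hist s) else newN k T u s (hist s))

end

/-! ### Computability -/

theorem comp_isPre {α : Type*} [Primcodable α] {f g : α → List Bool} (hf : Computable f)
    (hg : Computable g) : Computable fun a => isPre (f a) (g a) :=
  comp_decEq (comp_take (Computable.list_length.comp hf) hg) hf

section rec

variable {α : Type*} [Primcodable α] {f : α → Rec} (hf : Computable f)

include hf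

theorem comp_r1 : Computable fun a => (f a).1 := Computable.fst.comp hf
theorem comp_r2 : Computable fun a => (f a).2.1 := Computable.fst.comp (Computable.snd.comp hf)
theorem comp_r3 : Computable fun a => (f a).2.2.1 :=
  Computable.fst.comp (Computable.snd.comp (Computable.snd.comp hf))
theorem comp_r4 : Computable fun a => (f a).2.2.2.1 :=
  Computable.fst.comp (Computable.snd.comp (Computable.snd.comp (Computable.snd.comp hf)))
theorem comp_r5 : Computable fun a => (f a).2.2.2.2 :=
  Computable.snd.comp (Computable.snd.comp (Computable.snd.comp (Computable.snd.comp hf)))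

end rec

theorem comp_supBy {α : Type*} [Primcodable α] {f : α → List Rec} {p : α → Rec → Bool}
    (hf : Computable f) (hp : Computable₂ p) : Computable fun a => supBy (f a) (p a) := by
  have h1 : Computable (fun a => ((f a).filter (p a)).map (fun r => r.2.2.2.1 + 1)) := by
    refine comp_list_map (comp_list_filter hf hp) ?_
    exact Computable.succ.comp (comp_r4 Computable.snd)
  have h2 : Computable₂ (fun (_ : α) (q : ℕ × ℕ) => max q.1 q.2) :=
    comp_max (Computable.fst.comp Computable.snd) (Computable.snd.comp Computable.snd)
  exact comp_list_foldl h1 (Computable.const 0) h2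

theorem comp_aVal {α : Type*} [Primcodable α] {H : α → List Rec} {e : α → ℕ} {ρ : α → List Bool}
    (hH : Computable H) (he : Computable e) (hρ : Computable ρ) :
    Computable fun a => aVal (H a) (e a) (ρ a) := by
  refine comp_supBy (p := fun a r => pa (e a) (ρ a) r) hH ?_
  refine comp_and (comp_and (comp_decLe (comp_r1 Computable.snd)
    (Computable.const 1)) (comp_decEq (comp_r2 Computable.snd) (he.comp Computable.fst))) ?_
  exact comp_isPre (comp_r5 Computable.snd) (hρ.comp Computable.fst)

theorem comp_bVal {α : Type*} [Primcodable α] {H : α → List Rec} {e : α → ℕ} {ρ : α → List Bool}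
    (hH : Computable H) (he : Computable e) (hρ : Computable ρ) :
    Computable fun a => bVal (H a) (e a) (ρ a) := by
  refine comp_supBy (p := fun a r => pb (e a) (ρ a) r) hH ?_
  refine comp_and (comp_and (comp_decEq (comp_r1 Computable.snd)
    (Computable.const 0)) (comp_decLt (comp_r2 Computable.snd) (he.comp Computable.fst))) ?_
  exact comp_isPre (comp_r5 Computable.snd) (hρ.comp Computable.fst)

theorem comp_acted {α : Type*} [Primcodable α] {H : α → List Rec} {e : α → ℕ} {ρ : α → List Bool}
    (hH : Computable H) (he : Computable e) (hρ : Computable ρ) :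
    Computable fun a => acted (H a) (e a) (ρ a) := by
  refine comp_list_any (g := fun a r =>
    (decide (r.1 = 2) && decide (r.2.1 = e a)) && isPre r.2.2.2.2 (ρ a)) hH ?_
  refine comp_and (comp_and (comp_decEq (comp_r1 Computable.snd)
    (Computable.const 2)) (comp_decEq (comp_r2 Computable.snd) (he.comp Computable.fst))) ?_
  exact comp_isPre (comp_r5 Computable.snd) (hρ.comp Computable.fst)

theorem comp_inV {α : Type*} [Primcodable α] {H : α → List Rec} {w : α → ℕ} {ρ : α → List Bool}
    (hH : Computable H) (hw : Computable w) (hρ : Computable ρ) :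
    Computable fun a => inV (H a) (w a) (ρ a) := by
  refine comp_list_any (g := fun a r =>
    (decide (r.1 = 0) && decide (r.2.2.1 = w a)) && isPre r.2.2.2.2 (ρ a)) hH ?_
  refine comp_and (comp_and (comp_decEq (comp_r1 Computable.snd)
    (Computable.const 0)) (comp_decEq (comp_r3 Computable.snd) (hw.comp Computable.fst))) ?_
  exact comp_isPre (comp_r5 Computable.snd) (hρ.comp Computable.fst)

theorem comp_inC {α : Type*} [Primcodable α] {H : α → List Rec} {w : α → ℕ} {ρ : α → List Bool}
    (hH : Computable H) (hw : Computable w) (hρ : Computable ρ) :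
    Computable fun a => inC (H a) (w a) (ρ a) := by
  refine comp_list_any (g := fun a r =>
    (decide (r.1 = 3) && decide (r.2.2.1 = w a)) && isPre r.2.2.2.2 (ρ a)) hH ?_
  refine comp_and (comp_and (comp_decEq (comp_r1 Computable.snd)
    (Computable.const 3)) (comp_decEq (comp_r3 Computable.snd) (hw.comp Computable.fst))) ?_
  exact comp_isPre (comp_r5 Computable.snd) (hρ.comp Computable.fst)

theorem comp_getD {α : Type*} [Primcodable α] {f : α → List Bool} {g : α → ℕ}
    (hf : Computable f) (hg : Computable g) : Computable fun a => (f a).getD (g a) false :=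
  (Primrec.list_getD false).to_comp.comp hf hg

theorem comp_mod {α : Type*} [Primcodable α] {f g : α → ℕ}
    (hf : Computable f) (hg : Computable g) : Computable fun a => f a % g a :=
  Primrec.nat_mod.to_comp.comp hf hg

theorem comp_div {α : Type*} [Primcodable α] {f g : α → ℕ}
    (hf : Computable f) (hg : Computable g) : Computable fun a => f a / g a :=
  Primrec.nat_div.to_comp.comp hf hg

theorem comp_wHat {α : Type*} [Primcodable α] {H : α → List Rec} {ρ : α → List Bool} {k : α → ℕ}
    (hH : Computable H) (hρ : Computable ρ) (hk : Computable k) :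
    Computable fun a => wHat (H a) (ρ a) (k a) := by
  refine comp_list_map (g := fun a p => if decide (p % 2 = 0) then (ρ a).getD (p / 2) false
    else inV (H a) (p / 2) (ρ a)) (comp_range hk) ?_
  have hd : Computable (fun x : α × ℕ => x.2 / 2) := comp_div Computable.snd (Computable.const 2)
  refine comp_ite (comp_decEq (comp_mod Computable.snd (Computable.const 2))
    (Computable.const 0)) ?_ ?_
  · exact comp_getD (hρ.comp Computable.fst) hd
  · exact comp_inV (hH.comp Computable.fst) hd (hρ.comp Computable.fst)

theorem comp_conv {α : Type*} [Primcodable α] {s e w : α → ℕ} {σ : α → List Bool}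
    (hs : Computable s) (he : Computable e) (hw : Computable w) (hσ : Computable σ) :
    Computable fun a => conv (s a) (e a) (w a) (σ a) := by
  refine comp_decEq ?_ (Computable.const (some 0))
  exact (Nat.Partrec.Code.primrec_evaln.to_comp).comp
    ((hs.pair ((Computable.ofNat Code).comp he)).pair (Computable.encode.comp (hw.pair hσ)))

theorem comp_actP {α : Type*} [Primcodable α] {s : α → ℕ} {H : α → List Rec} {e : α → ℕ}
    {ρ : α → List Bool} (hs : Computable s) (hH : Computable H) (he : Computable e)
    (hρ : Computable ρ) : Computable fun a => actP (s a) (H a) (e a) (ρ a) := by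
  refine comp_and (comp_not (comp_acted hH he hρ)) ?_
  refine comp_list_any (g := fun a k => conv (s a) (e a) (Nat.pair (e a) (aVal (H a) (e a) (ρ a)))
    ((ρ a).take k)) (comp_range (Computable.succ.comp hs)) ?_
  exact comp_conv (hs.comp Computable.fst) (he.comp Computable.fst)
    ((comp_natpair he (comp_aVal hH he hρ)).comp Computable.fst)
    (comp_take Computable.snd (hρ.comp Computable.fst))

theorem comp_actN {α : Type*} [Primcodable α] {s : α → ℕ} {H : α → List Rec} {e : α → ℕ}
    {ρ : α → List Bool} (hs : Computable s) (hH : Computable H) (he : Computable e)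
    (hρ : Computable ρ) : Computable fun a => actN (s a) (H a) (e a) (ρ a) := by
  have hw : Computable fun a => Nat.pair (e a) (bVal (H a) (e a) (ρ a)) :=
    comp_natpair he (comp_bVal hH he hρ)
  refine comp_and (comp_not (comp_inC hH hw hρ)) ?_
  refine comp_list_any (g := fun a k => conv (s a) (e a) (Nat.pair (e a) (bVal (H a) (e a) (ρ a)))
    (wHat (H a) (ρ a) k)) (comp_range (Computable.succ.comp hs)) ?_
  exact comp_conv (hs.comp Computable.fst) (he.comp Computable.fst)
    (hw.comp Computable.fst)
    (comp_wHat (hH.comp Computable.fst) (hρ.comp Computable.fst) Computable.snd)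

theorem comp_strs : Computable strs := by
  have h1 : Computable₂ (fun (_ : ℕ) (p : ℕ × List (List Bool)) =>
      p.2.flatMap (fun σ => [σ ++ [false], σ ++ [true]])) := by
    refine comp_list_flatMap (f := fun x : ℕ × (ℕ × List (List Bool)) => x.2.2)
      (g := fun _ σ => [σ ++ [false], σ ++ [true]]) (Computable.snd.comp Computable.snd) ?_
    refine Computable.list_cons.comp (Computable.list_append.comp Computable.snd
      (Computable.const [false])) ?_
    exact Computable.list_cons.comp (Computable.list_append.comp Computable.snd
      (Computable.const [true])) (Computable.const [])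
  refine (Computable.nat_rec Computable.id (Computable.const ([[]] : List (List Bool))) h1).of_eq
    fun n => ?_
  induction n with
  | zero => rfl
  | succ n ih =>
    simp only [id_eq] at ih ⊢
    rw [ih]; rfl

section

variable {k : ℕ → ℕ} {T : ℕ → ℕ → List Bool → List Bool} {u : ℕ → ℕ} (hk : Computable k)
  (hT : Computable (fun p : ℕ × ℕ × List Bool => T p.1 p.2.1 p.2.2)) (hu : Computable u)

include hT in
theorem comp_T {α : Type*} [Primcodable α] {e j : α → ℕ} {ρ : α → List Bool} (he : Computable e)
    (hj : Computable j) (hρ : Computable ρ) : Computable fun a => T (e a) (j a) (ρ a) :=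
  hT.comp (he.pair (hj.pair hρ))

include hk hT hu

theorem comp_recP {α : Type*} [Primcodable α] {s : α → ℕ} {H : α → List Rec} {e : α → ℕ}
    {σ : α → List Bool} (hs : Computable s) (hH : Computable H) (he : Computable e)
    (hσ : Computable σ) : Computable fun a => recP k T u (s a) (H a) (e a) (σ a) := by
  refine Computable.list_append.comp ?_ ?_
  · refine comp_ite (comp_actP hs hH he (comp_take (hu.comp hs) hσ)) ?_ (Computable.const [])
    exact Computable.list_cons.comp ((Computable.const 2).pair (he.pair
      ((Computable.const 0).pair (hs.pair hσ)))) (Computable.const [])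
  · refine comp_list_flatMap (g := fun a j =>
      if actP (s a) (H a) (e a) ((T (e a) j (σ a)).take (u (s a))) then
        [((0, e a, Nat.pair (e a) (aVal (H a) (e a) ((T (e a) j (σ a)).take (u (s a)))), s a, σ a) :
          Rec)] else []) (comp_range (hk.comp he)) ?_
    have hρ : Computable (fun x : α × ℕ => (T (e x.1) x.2 (σ x.1)).take (u (s x.1))) :=
      comp_take (hu.comp (hs.comp Computable.fst)) (comp_T hT (he.comp Computable.fst)
        Computable.snd (hσ.comp Computable.fst))
    refine comp_ite (comp_actP (hs.comp Computable.fst) (hH.comp Computable.fst)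
      (he.comp Computable.fst) hρ) ?_ (Computable.const [])
    refine Computable.list_cons.comp ((Computable.const 0).pair ((he.comp Computable.fst).pair
      (Computable.pair (comp_natpair (he.comp Computable.fst) (comp_aVal (hH.comp Computable.fst)
        (he.comp Computable.fst) hρ)) ((hs.comp Computable.fst).pair (hσ.comp Computable.fst)))))
      (Computable.const [])

theorem comp_recN {α : Type*} [Primcodable α] {s : α → ℕ} {H : α → List Rec} {e : α → ℕ}
    {σ : α → List Bool} (hs : Computable s) (hH : Computable H) (he : Computable e)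
    (hσ : Computable σ) : Computable fun a => recN k T u (s a) (H a) (e a) (σ a) := by
  refine Computable.list_append.comp ?_ ?_
  · have hρ := comp_take (hu.comp hs) hσ
    refine comp_ite (comp_actN hs hH he hρ) ?_ (Computable.const [])
    exact Computable.list_cons.comp ((Computable.const 3).pair (he.pair
      (Computable.pair (comp_natpair he (comp_bVal hH he hρ)) (hs.pair hσ)))) (Computable.const [])
  · refine comp_list_flatMap (g := fun a e' => (List.range (k e')).flatMap (fun j =>
      if decide (e a ≤ e') && actN (s a) (H a) (e a) ((T e' j (σ a)).take (u (s a))) then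
        [((1, e', 0, s a, σ a) : Rec)] else [])) (comp_range (Computable.succ.comp hs)) ?_
    refine comp_list_flatMap (g := fun (x : α × ℕ) j =>
      if decide (e x.1 ≤ x.2) && actN (s x.1) (H x.1) (e x.1)
        ((T x.2 j (σ x.1)).take (u (s x.1))) then
        [((1, x.2, 0, s x.1, σ x.1) : Rec)] else []) (comp_range (hk.comp Computable.snd)) ?_
    have hf : Computable (fun x : (α × ℕ) × ℕ => x.1.1) := Computable.fst.comp Computable.fst
    have he' : Computable (fun x : (α × ℕ) × ℕ => x.1.2) := Computable.snd.comp Computable.fst
    have hρ : Computable (fun x : (α × ℕ) × ℕ => (T x.1.2 x.2 (σ x.1.1)).take (u (s x.1.1))) :=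
      comp_take (hu.comp (hs.comp hf)) (comp_T hT he' Computable.snd (hσ.comp hf))
    refine comp_ite (comp_and (comp_decLe (he.comp hf) he')
      (comp_actN (hs.comp hf) (hH.comp hf) (he.comp hf) hρ)) ?_ (Computable.const [])
    exact Computable.list_cons.comp ((Computable.const 1).pair (he'.pair
      ((Computable.const 0).pair ((hs.comp hf).pair (hσ.comp hf))))) (Computable.const [])

theorem comp_newP {α : Type*} [Primcodable α] {s : α → ℕ} {H : α → List Rec}
    (hs : Computable s) (hH : Computable H) : Computable fun a => newP k T u (s a) (H a) := by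
  refine comp_list_flatMap (g := fun a e => (strs (u (s a + 1))).flatMap
    fun σ => recP k T u (s a) (H a) e σ) (comp_range (Computable.succ.comp hs)) ?_
  refine comp_list_flatMap (g := fun (x : α × ℕ) σ => recP k T u (s x.1) (H x.1) x.2 σ)
    (comp_strs.comp (hu.comp (Computable.succ.comp (hs.comp Computable.fst)))) ?_
  exact comp_recP hk hT hu (hs.comp (Computable.fst.comp Computable.fst))
    (hH.comp (Computable.fst.comp Computable.fst)) (Computable.snd.comp Computable.fst)
    Computable.snd

theorem comp_newN {α : Type*} [Primcodable α] {s : α → ℕ} {H : α → List Rec}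
    (hs : Computable s) (hH : Computable H) : Computable fun a => newN k T u (s a) (H a) := by
  refine comp_list_flatMap (g := fun a e => (strs (u (s a + 1))).flatMap
    fun σ => recN k T u (s a) (H a) e σ) (comp_range (Computable.succ.comp hs)) ?_
  refine comp_list_flatMap (g := fun (x : α × ℕ) σ => recN k T u (s x.1) (H x.1) x.2 σ)
    (comp_strs.comp (hu.comp (Computable.succ.comp (hs.comp Computable.fst)))) ?_
  exact comp_recN hk hT hu (hs.comp (Computable.fst.comp Computable.fst))
    (hH.comp (Computable.fst.comp Computable.fst)) (Computable.snd.comp Computable.fst)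
    Computable.snd

theorem comp_hist : Computable (hist k T u) := by
  have h1 : Computable₂ (fun (_ : ℕ) (p : ℕ × List Rec) => p.2 ++
      (if decide (p.1 % 2 = 0) then newP k T u p.1 p.2 else newN k T u p.1 p.2)) := by
    have hs : Computable (fun x : ℕ × (ℕ × List Rec) => x.2.1) :=
      Computable.fst.comp Computable.snd
    have hH : Computable (fun x : ℕ × (ℕ × List Rec) => x.2.2) :=
      Computable.snd.comp Computable.snd
    refine Computable.list_append.comp hH ?_
    exact comp_ite (comp_decEq (comp_mod hs (Computable.const 2)) (Computable.const 0))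
      (comp_newP hk hT hu hs hH) (comp_newN hk hT hu hs hH)
  refine (Computable.nat_rec Computable.id (Computable.const ([] : List Rec)) h1).of_eq
    fun n => ?_
  induction n with
  | zero => rfl
  | succ n ih =>
    simp only [id_eq] at ih ⊢
    rw [ih]; rfl

end

end Pool.Agent.H19
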