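import Mathlib
import Pool.Agent.H19.Constr

/-!
Verification of the block-wise finite injury construction: the records along a real.
-/

set_option autoImplicit false

namespace Pool.Agent.H19

open Encodable Nat.Partrec

/-- `Y` is the image of `X` under the functional given by the monotone string function `t`. -/
def Maps (t : List Bool → List Bool) (X Y : ℕ → Bool) : Prop :=
  ∀ n, ∃ s, (t (pre X s))[n]? = some (Y n)

/-- `X` and `Y` are related at level `e`: `Y` is one of the first `k e` images of `X` under the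
functionals `T e 0, T e 1, …`. -/
def LevelRel (k : ℕ → ℕ) (T : ℕ → ℕ → List Bool → List Bool) (e : ℕ) (X Y : ℕ → Bool) : Prop :=
  ∃ j < k e, Maps (T e j) X Y

/-- The relations `LevelRel k T 0 ⊆ LevelRel k T 1 ⊆ …` form an increasing sequence of uniformly
computable finite equivalence relations on Cantor space. -/
structure CompHypFin (k : ℕ → ℕ) (T : ℕ → ℕ → List Bool → List Bool) : Prop where
  computable_card : Computable k
  computable_map : Computable (fun p : ℕ × ℕ × List Bool => T p.1 p.2.1 p.2.2)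
  monotone : ∀ e j σ τ, σ <+: τ → T e j σ <+: T e j τ
  total : ∀ e, ∀ j < k e, ∀ X, ∃ Y, Maps (T e j) X Y
  equivalence : ∀ e, Equivalence (LevelRel k T e)
  increasing : ∀ e X Y, LevelRel k T e X Y → LevelRel k T (e + 1) X Y

theorem take_of_maps {t : List Bool → List Bool} (ht : ∀ σ τ, σ <+: τ → t σ <+: t τ)
    {X Y : ℕ → Bool} (h : Maps t X Y) {L n : ℕ} (hn : n ≤ (t (pre X L)).length) :
    (t (pre X L)).take n = pre Y n := by
  apply List.ext_getElem?
  intro i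
  by_cases hi : i < n
  · rw [pre_getElem? _ hi, List.getElem?_take_of_lt hi]
    obtain ⟨s, hs⟩ := h i
    have hiL : i < (t (pre X L)).length := lt_of_lt_of_le hi hn
    have his : i < (t (pre X s)).length := by
      rw [List.getElem?_eq_some_iff] at hs
      exact hs.1
    rcases le_total s L with hsL | hsL
    · obtain ⟨v, hv⟩ := ht _ _ (pre_mono X hsL)
      rw [← hv, List.getElem?_append_left his, hs]
    · obtain ⟨v, hv⟩ := ht _ _ (pre_mono X hsL)
      rw [← hv, List.getElem?_append_left hiL] at hs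
      exact hs
  · rw [List.getElem?_eq_none, List.getElem?_eq_none]
    · rw [pre_length]; omega
    · rw [List.length_take]; omega

/-- The growth function `u` of the lengths of oracle segments used by the construction. -/
structure Sys (k : ℕ → ℕ) (T : ℕ → ℕ → List Bool → List Bool) (u : ℕ → ℕ) : Prop where
  hyp : CompHypFin k T
  comp : Computable u
  lt : ∀ s, u s < u (s + 1)
  len : ∀ s, ∀ e ≤ s, ∀ j < k e, ∀ σ : List Bool, σ.length = u (s + 1) → u s ≤ (T e j σ).length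

theorem mem_strs {s : ℕ} {σ : List Bool} : σ ∈ strs s ↔ σ.length = s := by
  induction s generalizing σ with
  | zero => simp [strs]
  | succ s ih =>
    simp only [strs, List.mem_flatMap, List.mem_cons, List.not_mem_nil, or_false]
    constructor
    · rintro ⟨τ, hτ, rfl | rfl⟩ <;> simp [ih.1 hτ]
    · intro hσ
      have hne : σ ≠ [] := by rintro rfl; simp at hσ
      refine ⟨σ.dropLast, ih.2 (by simp [hσ]), ?_⟩
      have hd := List.dropLast_append_getLast hne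
      rcases hb : σ.getLast hne with _ | _
      · left; rw [hb] at hd; exact hd.symm
      · right; rw [hb] at hd; exact hd.symm

/-! ### Records -/

section

variable (k : ℕ → ℕ) (T : ℕ → ℕ → List Bool → List Bool) (u : ℕ → ℕ)

/-- The records added at stage `s`. -/
def newAt (s : ℕ) : List Rec :=
  if decide (s % 2 = 0) then newP k T u s (hist k T u s) else newN k T u s (hist k T u s)

/-- The parameter of the positive requirement `e` along `X` at stage `s`. -/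
def av (X : ℕ → Bool) (e s : ℕ) : ℕ := aVal (hist k T u s) e (pre X (u s))

/-- The parameter of the negative requirement `e` along `X` at stage `s`. -/
def bv (X : ℕ → Bool) (e s : ℕ) : ℕ := bVal (hist k T u s) e (pre X (u s))

/-- The positive requirement `e` acts along `X` at stage `s`. -/
def EP (X : ℕ → Bool) (e s : ℕ) : Prop :=
  s % 2 = 0 ∧ e ≤ s ∧ actP s (hist k T u s) e (pre X (u s)) = true

/-- The negative requirement `e` acts along `X` at stage `s`. -/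
def EN (X : ℕ → Bool) (e s : ℕ) : Prop :=
  s % 2 = 1 ∧ e ≤ s ∧ actN s (hist k T u s) e (pre X (u s)) = true

/-- The record with tag `i`, index `e`, witness `w` occurs along `X` at stage `s`. -/
def Oc (X : ℕ → Bool) (i e w s : ℕ) : Prop := (i, e, w, s, pre X (u (s + 1))) ∈ newAt k T u s

end

section

variable {k : ℕ → ℕ} {T : ℕ → ℕ → List Bool → List Bool} {u : ℕ → ℕ}

theorem mem_newP {s : ℕ} {H : List Rec} {r : Rec} : r ∈ newP k T u s H ↔
    ∃ e ≤ s, ∃ σ : List Bool, σ.length = u (s + 1) ∧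
      ((actP s H e (σ.take (u s)) = true ∧ r = (2, e, 0, s, σ)) ∨
        ∃ j < k e, actP s H e ((T e j σ).take (u s)) = true ∧
          r = (0, e, Nat.pair e (aVal H e ((T e j σ).take (u s))), s, σ)) := by
  simp only [newP, recP, List.mem_flatMap, List.mem_range, mem_strs, List.mem_append]
  constructor
  · rintro ⟨e, he, σ, hσ, hr | ⟨j, hj, hr⟩⟩
    · refine ⟨e, Nat.lt_succ_iff.1 he, σ, hσ, Or.inl ?_⟩
      split_ifs at hr with ha
      · exact ⟨ha, by simpa using hr⟩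
      · simp at hr
    · refine ⟨e, Nat.lt_succ_iff.1 he, σ, hσ, Or.inr ⟨j, hj, ?_⟩⟩
      split_ifs at hr with ha
      · exact ⟨ha, by simpa using hr⟩
      · simp at hr
  · rintro ⟨e, he, σ, hσ, ⟨ha, hr⟩ | ⟨j, hj, ha, hr⟩⟩
    · refine ⟨e, Nat.lt_succ_iff.2 he, σ, hσ, Or.inl ?_⟩
      rw [if_pos ha]; simp [hr]
    · refine ⟨e, Nat.lt_succ_iff.2 he, σ, hσ, Or.inr ⟨j, hj, ?_⟩⟩
      rw [if_pos ha]; simp [hr]

theorem mem_newN {s : ℕ} {H : List Rec} {r : Rec} : r ∈ newN k T u s H ↔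
    ∃ e ≤ s, ∃ σ : List Bool, σ.length = u (s + 1) ∧
      ((actN s H e (σ.take (u s)) = true ∧
          r = (3, e, Nat.pair e (bVal H e (σ.take (u s))), s, σ)) ∨
        ∃ e' ≤ s, e ≤ e' ∧ ∃ j < k e', actN s H e ((T e' j σ).take (u s)) = true ∧
          r = (1, e', 0, s, σ)) := by
  simp only [newN, recN, List.mem_flatMap, List.mem_range, mem_strs, List.mem_append]
  constructor
  · rintro ⟨e, he, σ, hσ, hr | ⟨e', he', j, hj, hr⟩⟩
    · refine ⟨e, Nat.lt_succ_iff.1 he, σ, hσ, Or.inl ?_⟩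
      split_ifs at hr with ha
      · exact ⟨ha, by simpa using hr⟩
      · simp at hr
    · split_ifs at hr with ha
      · rw [Bool.and_eq_true, decide_eq_true_eq] at ha
        refine ⟨e, Nat.lt_succ_iff.1 he, σ, hσ, Or.inr ⟨e', Nat.lt_succ_iff.1 he', ha.1, j, hj,
          ha.2, by simpa using hr⟩⟩
      · simp at hr
  · rintro ⟨e, he, σ, hσ, ⟨ha, hr⟩ | ⟨e', he', hee, j, hj, ha, hr⟩⟩
    · refine ⟨e, Nat.lt_succ_iff.2 he, σ, hσ, Or.inl ?_⟩
      rw [if_pos ha]; simp [hr]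
    · refine ⟨e, Nat.lt_succ_iff.2 he, σ, hσ, Or.inr ⟨e', Nat.lt_succ_iff.2 he', j, hj, ?_⟩⟩
      rw [if_pos (by simp [hee, ha])]; simp [hr]

theorem hist_succ (s : ℕ) : hist k T u (s + 1) = hist k T u s ++ newAt k T u s := rfl

theorem hist_mono {s t : ℕ} (hst : s ≤ t) {r : Rec} (hr : r ∈ hist k T u s) :
    r ∈ hist k T u t := by
  induction hst with
  | refl => exact hr
  | step _ ih => rw [hist_succ]; exact List.mem_append_left _ ih

theorem newAt_even {s : ℕ} (hs : s % 2 = 0) : newAt k T u s = newP k T u s (hist k T u s) := by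
  simp [newAt, hs]

theorem newAt_odd {s : ℕ} (hs : ¬ s % 2 = 0) : newAt k T u s = newN k T u s (hist k T u s) := by
  simp [newAt, hs]

theorem newAt_stage {s : ℕ} {r : Rec} (hr : r ∈ newAt k T u s) :
    r.2.2.2.1 = s ∧ r.2.2.2.2.length = u (s + 1) := by
  by_cases hs : s % 2 = 0
  · rw [newAt_even hs] at hr
    obtain ⟨e, he, σ, hσ, ⟨_, rfl⟩ | ⟨j, _, _, rfl⟩⟩ := mem_newP.1 hr <;> exact ⟨rfl, hσ⟩
  · rw [newAt_odd hs] at hr
    obtain ⟨e, he, σ, hσ, ⟨_, rfl⟩ | ⟨e', _, _, j, _, _, rfl⟩⟩ := mem_newN.1 hr <;>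
      exact ⟨rfl, hσ⟩

theorem mem_hist {t : ℕ} {r : Rec} : r ∈ hist k T u t ↔
    r.2.2.2.1 < t ∧ r ∈ newAt k T u r.2.2.2.1 := by
  constructor
  · induction t with
    | zero => intro hr; simp [hist] at hr
    | succ t ih =>
      intro hr
      rw [hist_succ, List.mem_append] at hr
      rcases hr with hr | hr
      · exact ⟨Nat.lt_succ_of_lt (ih hr).1, (ih hr).2⟩
      · rw [(newAt_stage hr).1]
        exact ⟨Nat.lt_succ_self t, hr⟩
  · rintro ⟨hl, hr⟩
    exact hist_mono (k := k) (T := T) hl (by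
      rw [hist_succ]; exact List.mem_append_right _ hr)

theorem mem_hist_isPre {t L : ℕ} {X : ℕ → Bool} {r : Rec} :
    (r ∈ hist k T u t ∧ isPre r.2.2.2.2 (pre X L) = true) ↔
      r.2.2.2.1 < t ∧ u (r.2.2.2.1 + 1) ≤ L ∧ r.2.2.2.2 = pre X (u (r.2.2.2.1 + 1)) ∧
        r ∈ newAt k T u r.2.2.2.1 := by
  rw [mem_hist, isPre_iff, prefix_pre_iff]
  constructor
  · rintro ⟨⟨h1, h2⟩, h3, h4⟩
    rw [(newAt_stage h2).2] at h3 h4
    exact ⟨h1, h3, h4, h2⟩
  · rintro ⟨h1, h2, h3, h4⟩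
    refine ⟨⟨h1, h4⟩, ?_, ?_⟩
    · rw [(newAt_stage h4).2]; exact h2
    · rw [(newAt_stage h4).2]; exact h3

variable (h : Sys k T u)

include h

theorem Sys.mono {s t : ℕ} (hst : s ≤ t) : u s ≤ u t :=
  (strictMono_nat_of_lt_succ h.lt).monotone hst

theorem Sys.le_u (s : ℕ) : s ≤ u s := (strictMono_nat_of_lt_succ h.lt).id_le s

theorem Sys.take_eq {e j s : ℕ} (he : e ≤ s) (hj : j < k e) {X Y : ℕ → Bool}
    (hXY : Maps (T e j) X Y) : (T e j (pre X (u (s + 1)))).take (u s) = pre Y (u s) :=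
  take_of_maps (h.hyp.monotone e j) hXY (h.len s e he j hj _ (pre_length _ _))

theorem Sys.rel_mono {e e' : ℕ} (hee : e ≤ e') {X Y : ℕ → Bool} (hXY : LevelRel k T e X Y) :
    LevelRel k T e' X Y := by
  induction hee with
  | refl => exact hXY
  | step _ ih => exact h.hyp.increasing _ _ _ ih

omit h in
theorem oc2_iff (h : Sys k T u) {X : ℕ → Bool} {e w s : ℕ} :
    Oc k T u X 2 e w s ↔ w = 0 ∧ EP k T u X e s := by
  have htake : (pre X (u (s + 1))).take (u s) = pre X (u s) := pre_take X (h.lt s).le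
  simp only [Oc, EP]
  by_cases hs : s % 2 = 0
  · rw [newAt_even hs, mem_newP]
    constructor
    · rintro ⟨e', he, σ, hσ, ⟨ha, hr⟩ | ⟨j, hj, ha, hr⟩⟩
      · simp only [Prod.mk.injEq, true_and] at hr
        obtain ⟨rfl, rfl, rfl⟩ := hr
        rw [htake] at ha
        exact ⟨rfl, hs, he, ha⟩
      · simp at hr
    · rintro ⟨rfl, _, he, ha⟩
      refine ⟨e, he, pre X (u (s + 1)), pre_length _ _, Or.inl ⟨?_, rfl⟩⟩
      rw [htake]; exact ha
  · rw [newAt_odd hs, mem_newN]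
    constructor
    · rintro ⟨e', he, σ, hσ, ⟨ha, hr⟩ | ⟨e'', _, _, j, hj, ha, hr⟩⟩
      · simp at hr
      · simp at hr
    · rintro ⟨_, hs', _⟩
      exact absurd hs' hs

theorem oc0_iff {X : ℕ → Bool} {e w s : ℕ} : Oc k T u X 0 e w s ↔
    ∃ Z, LevelRel k T e X Z ∧ EP k T u Z e s ∧ w = Nat.pair e (av k T u Z e s) := by
  simp only [Oc, EP, av]
  by_cases hs : s % 2 = 0
  · rw [newAt_even hs, mem_newP]
    constructor
    · rintro ⟨e', he, σ, hσ, ⟨ha, hr⟩ | ⟨j, hj, ha, hr⟩⟩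
      · simp at hr
      · simp only [Prod.mk.injEq, true_and] at hr
        obtain ⟨rfl, rfl, rfl⟩ := hr
        obtain ⟨Z, hZ⟩ := h.hyp.total e j hj X
        rw [h.take_eq he hj hZ] at ha ⊢
        exact ⟨Z, ⟨j, hj, hZ⟩, ⟨hs, he, ha⟩, rfl⟩
    · rintro ⟨Z, ⟨j, hj, hZ⟩, ⟨_, he, ha⟩, rfl⟩
      refine ⟨e, he, pre X (u (s + 1)), pre_length _ _, Or.inr ⟨j, hj, ?_, ?_⟩⟩
      · rw [h.take_eq he hj hZ]; exact ha
      · rw [h.take_eq he hj hZ]
  · rw [newAt_odd hs, mem_newN]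
    constructor
    · rintro ⟨e', he, σ, hσ, ⟨ha, hr⟩ | ⟨e'', _, _, j, hj, ha, hr⟩⟩
      · simp at hr
      · simp at hr
    · rintro ⟨Z, _, ⟨hs', _⟩, _⟩
      exact absurd hs' hs

theorem oc3_iff {X : ℕ → Bool} {e w s : ℕ} :
    Oc k T u X 3 e w s ↔ EN k T u X e s ∧ w = Nat.pair e (bv k T u X e s) := by
  have htake : (pre X (u (s + 1))).take (u s) = pre X (u s) := pre_take X (h.lt s).le
  simp only [Oc, EN, bv]
  by_cases hs : s % 2 = 0
  · rw [newAt_even hs, mem_newP]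
    constructor
    · rintro ⟨e', he, σ, hσ, ⟨ha, hr⟩ | ⟨j, hj, ha, hr⟩⟩
      · simp at hr
      · simp at hr
    · rintro ⟨⟨hs', _⟩, _⟩
      omega
  · rw [newAt_odd hs, mem_newN]
    constructor
    · rintro ⟨e', he, σ, hσ, ⟨ha, hr⟩ | ⟨e'', _, _, j, hj, ha, hr⟩⟩
      · simp only [Prod.mk.injEq, true_and] at hr
        obtain ⟨rfl, rfl, rfl⟩ := hr
        rw [htake] at ha ⊢
        exact ⟨⟨by omega, he, ha⟩, rfl⟩
      · simp at hr
    · rintro ⟨⟨_, he, ha⟩, rfl⟩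
      refine ⟨e, he, pre X (u (s + 1)), pre_length _ _, Or.inl ⟨?_, ?_⟩⟩
      · rw [htake]; exact ha
      · rw [htake]

theorem oc1_iff {X : ℕ → Bool} {e w s : ℕ} : Oc k T u X 1 e w s ↔
    w = 0 ∧ e ≤ s ∧ ∃ e' ≤ e, ∃ Z, LevelRel k T e X Z ∧ EN k T u Z e' s := by
  simp only [Oc, EN]
  by_cases hs : s % 2 = 0
  · rw [newAt_even hs, mem_newP]
    constructor
    · rintro ⟨e', he, σ, hσ, ⟨ha, hr⟩ | ⟨j, hj, ha, hr⟩⟩
      · simp at hr
      · simp at hr
    · rintro ⟨_, _, e', _, Z, _, ⟨hs', _⟩⟩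
      omega
  · rw [newAt_odd hs, mem_newN]
    constructor
    · rintro ⟨e', he, σ, hσ, ⟨ha, hr⟩ | ⟨e'', he'', hee, j, hj, ha, hr⟩⟩
      · simp at hr
      · simp only [Prod.mk.injEq, true_and] at hr
        obtain ⟨rfl, rfl, rfl⟩ := hr
        obtain ⟨Z, hZ⟩ := h.hyp.total e j hj X
        rw [h.take_eq he'' hj hZ] at ha
        exact ⟨rfl, he'', e', hee, Z, ⟨j, hj, hZ⟩, by omega, he, ha⟩
    · rintro ⟨rfl, he'', e', hee, Z, ⟨j, hj, hZ⟩, _, he, ha⟩
      refine ⟨e', he, pre X (u (s + 1)), pre_length _ _, Or.inr ⟨e, he'', hee, j, hj, ?_, rfl⟩⟩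
      rw [h.take_eq he'' hj hZ]; exact ha

theorem u_le_iff {s t : ℕ} : u s ≤ u t ↔ s ≤ t :=
  (strictMono_nat_of_lt_succ h.lt).le_iff_le

theorem acted_iff {X : ℕ → Bool} {e t : ℕ} :
    acted (hist k T u t) e (pre X (u t)) = true ↔ ∃ s < t, EP k T u X e s := by
  rw [acted, List.any_eq_true]
  constructor
  · rintro ⟨r, hr, hb⟩
    rw [Bool.and_eq_true, Bool.and_eq_true, decide_eq_true_eq, decide_eq_true_eq] at hb
    obtain ⟨h1, _, h3, h4⟩ := mem_hist_isPre.1 ⟨hr, hb.2⟩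
    obtain ⟨i, e', w, s, σ⟩ := r
    obtain ⟨⟨rfl, rfl⟩, _⟩ := hb
    simp only at h1 h3 h4
    subst h3
    exact ⟨s, h1, ((oc2_iff h).1 h4).2⟩
  · rintro ⟨s, hs, hE⟩
    have h5 : Oc k T u X 2 e 0 s := (oc2_iff h).2 ⟨rfl, hE⟩
    obtain ⟨h6, h7⟩ := (mem_hist_isPre (k := k) (T := T) (u := u) (t := t) (L := u t) (X := X)
      (r := (2, e, 0, s, pre X (u (s + 1))))).2 ⟨hs, (u_le_iff h).2 hs, rfl, h5⟩
    exact ⟨_, h6, by simp [h7]⟩

theorem inV_iff {X : ℕ → Bool} {w t L : ℕ} :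
    inV (hist k T u t) w (pre X L) = true ↔
      ∃ s < t, u (s + 1) ≤ L ∧ ∃ e, Oc k T u X 0 e w s := by
  rw [inV, List.any_eq_true]
  constructor
  · rintro ⟨r, hr, hb⟩
    rw [Bool.and_eq_true, Bool.and_eq_true, decide_eq_true_eq, decide_eq_true_eq] at hb
    obtain ⟨h1, h2, h3, h4⟩ := mem_hist_isPre.1 ⟨hr, hb.2⟩
    obtain ⟨i, e', w, s, σ⟩ := r
    obtain ⟨⟨rfl, rfl⟩, _⟩ := hb
    simp only at h1 h2 h3 h4
    subst h3
    exact ⟨s, h1, h2, e', h4⟩
  · rintro ⟨s, hs, h2, e, hE⟩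
    obtain ⟨h6, h7⟩ := (mem_hist_isPre (k := k) (T := T) (u := u) (t := t) (L := L) (X := X)
      (r := (0, e, w, s, pre X (u (s + 1))))).2 ⟨hs, h2, rfl, hE⟩
    exact ⟨_, h6, by simp [h7]⟩

theorem inC_iff {X : ℕ → Bool} {w t L : ℕ} :
    inC (hist k T u t) w (pre X L) = true ↔
      ∃ s < t, u (s + 1) ≤ L ∧ ∃ e, Oc k T u X 3 e w s := by
  rw [inC, List.any_eq_true]
  constructor
  · rintro ⟨r, hr, hb⟩
    rw [Bool.and_eq_true, Bool.and_eq_true, decide_eq_true_eq, decide_eq_true_eq] at hb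
    obtain ⟨h1, h2, h3, h4⟩ := mem_hist_isPre.1 ⟨hr, hb.2⟩
    obtain ⟨i, e', w, s, σ⟩ := r
    obtain ⟨⟨rfl, rfl⟩, _⟩ := hb
    simp only at h1 h2 h3 h4
    subst h3
    exact ⟨s, h1, h2, e', h4⟩
  · rintro ⟨s, hs, h2, e, hE⟩
    obtain ⟨h6, h7⟩ := (mem_hist_isPre (k := k) (T := T) (u := u) (t := t) (L := L) (X := X)
      (r := (3, e, w, s, pre X (u (s + 1))))).2 ⟨hs, h2, rfl, hE⟩
    exact ⟨_, h6, by simp [h7]⟩

theorem av_le_iff {X : ℕ → Bool} {e t N : ℕ} : av k T u X e t ≤ N ↔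
    ∀ s < t, ∀ i ≤ 1, ∀ w, Oc k T u X i e w s → s + 1 ≤ N := by
  rw [av, aVal, supBy_le]
  constructor
  · intro hh s hs i hi w hO
    obtain ⟨h6, h7⟩ := (mem_hist_isPre (k := k) (T := T) (u := u) (t := t) (L := u t) (X := X)
      (r := (i, e, w, s, pre X (u (s + 1))))).2 ⟨hs, (u_le_iff h).2 hs, rfl, hO⟩
    have := hh _ h6 (by simp only [pa]; simp only at h7; simp [h7, hi])
    simpa using this
  · intro hh r hr hb
    rw [pa, Bool.and_eq_true, Bool.and_eq_true, decide_eq_true_eq, decide_eq_true_eq] at hb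
    obtain ⟨h1, h2, h3, h4⟩ := mem_hist_isPre.1 ⟨hr, hb.2⟩
    obtain ⟨i, e', w, s, σ⟩ := r
    obtain ⟨⟨hi, rfl⟩, _⟩ := hb
    simp only at h1 h2 h3 h4
    subst h3
    exact hh s h1 i hi w h4

theorem bv_le_iff {X : ℕ → Bool} {e t N : ℕ} : bv k T u X e t ≤ N ↔
    ∀ s < t, ∀ e' < e, ∀ w, Oc k T u X 0 e' w s → s + 1 ≤ N := by
  rw [bv, bVal, supBy_le]
  constructor
  · intro hh s hs e' he' w hO
    obtain ⟨h6, h7⟩ := (mem_hist_isPre (k := k) (T := T) (u := u) (t := t) (L := u t) (X := X)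
      (r := (0, e', w, s, pre X (u (s + 1))))).2 ⟨hs, (u_le_iff h).2 hs, rfl, hO⟩
    have := hh _ h6 (by simp only [pb]; simp only at h7; simp [h7, he'])
    simpa using this
  · intro hh r hr hb
    rw [pb, Bool.and_eq_true, Bool.and_eq_true, decide_eq_true_eq, decide_eq_true_eq] at hb
    obtain ⟨h1, h2, h3, h4⟩ := mem_hist_isPre.1 ⟨hr, hb.2⟩
    obtain ⟨i, e', w, s, σ⟩ := r
    obtain ⟨⟨rfl, he'⟩, _⟩ := hb
    simp only at h1 h2 h3 h4 he'
    subst h3
    exact hh s h1 e' he' w h4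

end

end Pool.Agent.H19
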