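import Mathlib
import Pool.Agent.H19.Constr

/-!
Stage approximations to enumeration operators and to the jump.
-/

set_option autoImplicit false

namespace Pool.Agent.H19

open Encodable Nat.Partrec

/-- The functional with code `c` is seen to converge at `n` on some initial segment of `σ`. -/
def cvg (c : Code) (n : ℕ) (σ : List Bool) : Bool :=
  (List.range (σ.length + 1)).any fun s =>
    (Code.evaln σ.length c (encode (n, σ.take s))).isSome

theorem cvg_iff {c : Code} {n : ℕ} {σ : List Bool} : cvg c n σ = true ↔
    ∃ s ≤ σ.length, ∃ v, v ∈ Code.evaln σ.length c (encode (n, σ.take s)) := by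
  rw [cvg, List.any_eq_true]
  simp only [List.mem_range, Nat.lt_succ_iff, Option.isSome_iff_exists, Option.mem_def]

theorem cvg_mono {c : Code} {n : ℕ} {σ τ : List Bool} (h : σ <+: τ) (hc : cvg c n σ = true) :
    cvg c n τ = true := by
  obtain ⟨s, hs, v, hv⟩ := cvg_iff.1 hc
  have hl := h.length_le
  refine cvg_iff.2 ⟨s, hs.trans hl, v, ?_⟩
  have ht : τ.take s = σ.take s := by
    obtain ⟨u, rfl⟩ := h
    rw [List.take_append_of_le_length hs]
  rw [ht]
  exact Code.evaln_mono hl hv

theorem exists_cvg {c : Code} {n : ℕ} {X : ℕ → Bool} :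
    (∃ s, (c.eval (encode (n, pre X s))).Dom) ↔ ∃ t, cvg c n (pre X t) = true := by
  constructor
  · rintro ⟨s, hs⟩
    obtain ⟨v, hv⟩ := Part.dom_iff_mem.1 hs
    obtain ⟨k, hk⟩ := Code.evaln_complete.1 hv
    refine ⟨max s k, cvg_iff.2 ⟨s, ?_, v, ?_⟩⟩
    · rw [pre_length]; exact le_max_left _ _
    · rw [pre_length, pre_take X (le_max_left _ _)]
      exact Code.evaln_mono (le_max_right _ _) hk
  · rintro ⟨t, ht⟩
    obtain ⟨s, hs, v, hv⟩ := cvg_iff.1 ht
    rw [pre_length] at hs
    rw [pre_take X hs] at hv
    exact ⟨s, Part.dom_iff_mem.2 ⟨v, Code.evaln_sound hv⟩⟩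

theorem comp_cvg {α : Type*} [Primcodable α] {c : α → Code} {n : α → ℕ} {σ : α → List Bool}
    (hc : Computable c) (hn : Computable n) (hσ : Computable σ) :
    Computable fun a => cvg (c a) (n a) (σ a) := by
  have hl : Computable fun a => (σ a).length := Computable.list_length.comp hσ
  refine comp_list_any (g := fun a s =>
    (Code.evaln (σ a).length (c a) (encode (n a, (σ a).take s))).isSome)
    (comp_range (Computable.succ.comp hl)) ?_
  have h1 : Computable (fun x : α × ℕ => ((((σ x.1).length, c x.1) : ℕ × Code),
      encode (n x.1, (σ x.1).take x.2))) := by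
    refine Computable.pair (Computable.pair (hl.comp Computable.fst) (hc.comp Computable.fst)) ?_
    exact Computable.encode.comp (Computable.pair (hn.comp Computable.fst)
      (comp_take Computable.snd (hσ.comp Computable.fst)))
  exact (Primrec.option_isSome.to_comp).comp ((Nat.Partrec.Code.primrec_evaln.to_comp).comp h1)

/-- Stage approximation to the jump. -/
def jap (p : ℕ) (σ : List Bool) : Bool :=
  cvg (Denumerable.ofNat Code p.unpair.1) p.unpair.2 σ

theorem jap_mono {p : ℕ} {σ τ : List Bool} (h : σ <+: τ) (hc : jap p σ = true) :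
    jap p τ = true := cvg_mono h hc

theorem comp_jap {α : Type*} [Primcodable α] {p : α → ℕ} {σ : α → List Bool}
    (hp : Computable p) (hσ : Computable σ) : Computable fun a => jap (p a) (σ a) :=
  comp_cvg ((Computable.ofNat Code).comp (Computable.fst.comp (Computable.unpair.comp hp)))
    (Computable.snd.comp (Computable.unpair.comp hp)) hσ

/-! ### Positions: every pair of a column and an index occurs infinitely often. -/

/-- The column of the position `p`. -/
def col (p : ℕ) : ℕ := p.unpair.1
/-- The index of the position `p`. -/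
def idx (p : ℕ) : ℕ := p.unpair.2.unpair.1
/-- The copy number of the position `p`. -/
def tim (p : ℕ) : ℕ := p.unpair.2.unpair.2
/-- The position with column `c`, index `x` and copy number `t`. -/
def pos (c x t : ℕ) : ℕ := Nat.pair c (Nat.pair x t)

@[simp] theorem col_pos (c x t : ℕ) : col (pos c x t) = c := by simp [col, pos]
@[simp] theorem idx_pos (c x t : ℕ) : idx (pos c x t) = x := by simp [idx, pos]
@[simp] theorem tim_pos (c x t : ℕ) : tim (pos c x t) = t := by simp [tim, pos]
theorem pos_eq (p : ℕ) : pos (col p) (idx p) (tim p) = p := by simp [col, idx, tim, pos]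
theorem le_pos (c x t : ℕ) : t ≤ pos c x t :=
  (Nat.right_le_pair x t).trans (Nat.right_le_pair c _)
theorem pos_lt_pos {c x x' t t' : ℕ} (hx : x ≤ x') (ht : t < t') : pos c x t < pos c x' t' := by
  refine Nat.pair_lt_pair_right c ?_
  rcases hx.lt_or_eq with hx | rfl
  · exact (Nat.pair_lt_pair_left t hx).trans (Nat.pair_lt_pair_right x' ht)
  · exact Nat.pair_lt_pair_right x ht
theorem pos_lt_pos' {c x x' t t' : ℕ} (hx : x < x') (ht : t ≤ t') : pos c x t < pos c x' t' := by
  refine Nat.pair_lt_pair_right c ?_
  rcases ht.lt_or_eq with ht | rfl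
  · exact (Nat.pair_lt_pair_left t hx).trans (Nat.pair_lt_pair_right x' ht)
  · exact Nat.pair_lt_pair_left t hx

theorem comp_col {α : Type*} [Primcodable α] {f : α → ℕ} (hf : Computable f) :
    Computable fun a => col (f a) := Computable.fst.comp (Computable.unpair.comp hf)
theorem comp_idx {α : Type*} [Primcodable α] {f : α → ℕ} (hf : Computable f) :
    Computable fun a => idx (f a) :=
  Computable.fst.comp (Computable.unpair.comp (Computable.snd.comp (Computable.unpair.comp hf)))
theorem comp_tim {α : Type*} [Primcodable α] {f : α → ℕ} (hf : Computable f) :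
    Computable fun a => tim (f a) :=
  Computable.snd.comp (Computable.unpair.comp (Computable.snd.comp (Computable.unpair.comp hf)))
theorem comp_pos {α : Type*} [Primcodable α] {c x t : α → ℕ} (hc : Computable c)
    (hx : Computable x) (ht : Computable t) : Computable fun a => pos (c a) (x a) (t a) :=
  comp_natpair hc (comp_natpair hx ht)

/-- The limit of a chain of strings. -/
theorem exists_limit (ρ : ℕ → List Bool) (h1 : ∀ k, ρ k <+: ρ (k + 1))
    (h2 : ∀ k, k ≤ (ρ k).length) : ∃ Z : ℕ → Bool, ∀ k, pre Z (ρ k).length = ρ k := by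
  have hmono : ∀ {k l}, k ≤ l → ρ k <+: ρ l := by
    intro k l hkl
    induction hkl with
    | refl => exact List.prefix_refl _
    | step _ ih => exact ih.trans (h1 _)
  refine ⟨fun n => (ρ (n + 1)).getD n false, fun k => ?_⟩
  apply List.ext_getElem?
  intro n
  by_cases hn : n < (ρ k).length
  · rw [pre_getElem? _ hn]
    have hn' : n < (ρ (n + 1)).length := h2 (n + 1)
    rcases le_total k (n + 1) with hk | hk
    · obtain ⟨u, hu⟩ := hmono hk
      rw [← hu, List.getD_append _ _ _ _ hn, List.getD_eq_getElem?_getD,
        List.getElem?_eq_getElem hn]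
      rfl
    · obtain ⟨u, hu⟩ := hmono hk
      rw [← hu, List.getElem?_append_left hn', List.getD_eq_getElem?_getD,
        List.getElem?_eq_getElem hn']
      rfl
  · rw [List.getElem?_eq_none, List.getElem?_eq_none]
    · omega
    · rw [pre_length]; omega

end Pool.Agent.H19
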