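import Mathlib
import Pool.Agent.H19.Verify

/-!
Verification of the block-wise finite injury construction: the requirements are met.
-/

set_option autoImplicit false

namespace Pool.Agent.H19

open Encodable Nat.Partrec

theorem maps_unique {t : List Bool → List Bool} (ht : ∀ σ τ, σ <+: τ → t σ <+: t τ)
    {X Y Z : ℕ → Bool} (h1 : Maps t X Y) (h2 : Maps t X Z) : Y = Z := by
  funext n
  obtain ⟨s, hs⟩ := h1 n
  obtain ⟨s', hs'⟩ := h2 n
  have key : ∀ a b : ℕ, a ≤ b → ∀ x y, (t (pre X a))[n]? = some x → (t (pre X b))[n]? = some y →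
      x = y := by
    intro a b hab x y hx hy
    obtain ⟨v, hv⟩ := ht _ _ (pre_mono X hab)
    have hl : n < (t (pre X a)).length := by
      rw [List.getElem?_eq_some_iff] at hx
      exact hx.1
    rw [← hv, List.getElem?_append_left hl, hx] at hy
    simpa using hy
  rcases le_total s s' with hss | hss
  · exact key _ _ hss _ _ hs hs'
  · exact (key _ _ hss _ _ hs' hs).symm

theorem bound_of_finite {P : ℕ → Prop} (h : {s | P s}.Finite) : ∃ B, ∀ s ≥ B, ¬ P s := by
  obtain ⟨B, hB⟩ := h.bddAbove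
  exact ⟨B + 1, fun s hs hP => by have := hB hP; omega⟩

section

variable {k : ℕ → ℕ} {T : ℕ → ℕ → List Bool → List Bool} {u : ℕ → ℕ} (h : Sys k T u)

include h

theorem le_av {X : ℕ → Bool} {i e w s t : ℕ} (hs : s < t) (hi : i ≤ 1)
    (hO : Oc k T u X i e w s) : s + 1 ≤ av k T u X e t :=
  (av_le_iff h).1 le_rfl s hs i hi w hO

theorem av_le_self {X : ℕ → Bool} {e t : ℕ} : av k T u X e t ≤ t :=
  (av_le_iff h).2 fun _ hs _ _ _ _ => hs

theorem le_bv {X : ℕ → Bool} {e e' w s t : ℕ} (hs : s < t) (he : e' < e)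
    (hO : Oc k T u X 0 e' w s) : s + 1 ≤ bv k T u X e t :=
  (bv_le_iff h).1 le_rfl s hs e' he w hO

theorem bv_le_self {X : ℕ → Bool} {e t : ℕ} : bv k T u X e t ≤ t :=
  (bv_le_iff h).2 fun _ hs _ _ _ _ => hs

theorem oc_rel {e e' : ℕ} (hee : e ≤ e') {X Y : ℕ → Bool} (hXY : LevelRel k T e X Y) {i w s : ℕ}
    (hi : i ≤ 1) (hO : Oc k T u X i e' w s) : Oc k T u Y i e' w s := by
  have hYX := (h.hyp.equivalence e').symm (h.rel_mono hee hXY)
  rcases Nat.le_one_iff_eq_zero_or_eq_one.1 hi with rfl | rfl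
  · obtain ⟨Z, hZ, h1, h2⟩ := (oc0_iff h).1 hO
    exact (oc0_iff h).2 ⟨Z, (h.hyp.equivalence e').trans hYX hZ, h1, h2⟩
  · obtain ⟨h1, h2, e'', he, Z, hZ, h3⟩ := (oc1_iff h).1 hO
    exact (oc1_iff h).2 ⟨h1, h2, e'', he, Z, (h.hyp.equivalence e').trans hYX hZ, h3⟩

theorem av_rel {e e' : ℕ} (hee : e ≤ e') {X Y : ℕ → Bool} (hXY : LevelRel k T e X Y) (t : ℕ) :
    av k T u X e' t = av k T u Y e' t := by
  have hYX := (h.hyp.equivalence e).symm hXY
  apply le_antisymm
  · exact (av_le_iff h).2 fun s hs i hi w hO => le_av h hs hi (oc_rel h hee hXY hi hO)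
  · exact (av_le_iff h).2 fun s hs i hi w hO => le_av h hs hi (oc_rel h hee hYX hi hO)

theorem oc0_witness {X : ℕ → Bool} {e w s : ℕ} (hO : Oc k T u X 0 e w s) :
    w = Nat.pair e (av k T u X e s) ∧ s % 2 = 0 := by
  obtain ⟨Z, hZ, h1, h2⟩ := (oc0_iff h).1 hO
  rw [av_rel h le_rfl hZ]
  exact ⟨h2, h1.1⟩

theorem ep_unique {X : ℕ → Bool} {e s t : ℕ} (hs : EP k T u X e s) (ht : EP k T u X e t) :
    s = t := by
  have key : ∀ a b, EP k T u X e a → EP k T u X e b → ¬ a < b := by
    intro a b ha hb hab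
    have h1 := hb.2.2
    rw [actP, (acted_iff h).2 ⟨a, hab, ha⟩] at h1
    simp at h1
  exact le_antisymm (not_lt.1 (key t s ht hs)) (not_lt.1 (key s t hs ht))

theorem fin0 (X : ℕ → Bool) (e : ℕ) : {s | ∃ w, Oc k T u X 0 e w s}.Finite := by
  refine Set.Finite.subset (Set.Finite.biUnion (Set.finite_lt_nat (k e))
    (t := fun j => {s | ∃ Z, Maps (T e j) X Z ∧ EP k T u Z e s}) fun j _ => ?_) ?_
  · refine Set.Subsingleton.finite ?_
    rintro s ⟨Z, h1, h2⟩ s' ⟨Z', h3, h4⟩
    rw [maps_unique (h.hyp.monotone e j) h3 h1] at h4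
    exact ep_unique h h2 h4
  · rintro s ⟨w, hO⟩
    obtain ⟨Z, ⟨j, hj, hZ⟩, h1, _⟩ := (oc0_iff h).1 hO
    exact Set.mem_biUnion (show j ∈ {j | j < k e} from hj) ⟨Z, hZ, h1⟩

theorem bound0 (X : ℕ → Bool) (e : ℕ) :
    ∃ B, ∀ s ≥ B, ∀ e' < e, ∀ w, ¬ Oc k T u X 0 e' w s := by
  have hf : {s | ∃ e' < e, ∃ w, Oc k T u X 0 e' w s}.Finite := by
    refine Set.Finite.subset (Set.Finite.biUnion (Set.finite_lt_nat e)
      (t := fun e' => {s | ∃ w, Oc k T u X 0 e' w s}) fun e' _ => fin0 h X e') ?_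
    rintro s ⟨e', he', hw⟩
    exact Set.mem_biUnion (show e' ∈ {j | j < e} from he') hw
  obtain ⟨B, hB⟩ := bound_of_finite hf
  exact ⟨B, fun s hs e' he' w hO => hB s hs ⟨e', he', w, hO⟩⟩

theorem bv_eventually (X : ℕ → Bool) (e : ℕ) : ∃ B, ∀ t ≥ B, bv k T u X e t = bv k T u X e B := by
  obtain ⟨B, hB⟩ := bound0 h X e
  refine ⟨B, fun t ht => le_antisymm ?_ ?_⟩
  · refine (bv_le_iff h).2 fun s hs e' he' w hO => ?_
    by_cases hsB : s < B
    · exact le_bv h hsB he' hO
    · exact absurd hO (hB s (not_lt.1 hsB) e' he' w)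
  · exact (bv_le_iff h).2 fun s hs e' he' w hO => le_bv h (lt_of_lt_of_le hs ht) he' hO

theorem finN (X : ℕ → Bool) (e : ℕ) : {s | EN k T u X e s}.Finite := by
  obtain ⟨B, hB⟩ := bv_eventually h X e
  have key : ∀ a b, B ≤ a → EN k T u X e a → EN k T u X e b → ¬ a < b := by
    intro a b hBa ha hb hab
    have h1 := hb.2.2
    have h2 : Oc k T u X 3 e (Nat.pair e (bv k T u X e a)) a := (oc3_iff h).2 ⟨ha, rfl⟩
    have h3 : bv k T u X e a = bVal (hist k T u b) e (pre X (u b)) := by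
      rw [hB a hBa, ← hB b (hBa.trans hab.le)]; rfl
    rw [h3] at h2
    rw [actN, (inC_iff h).2 ⟨a, hab, (u_le_iff h).2 hab, e, h2⟩] at h1
    simp at h1
  refine Set.Finite.subset ((Set.finite_lt_nat B).union
    (Set.Subsingleton.finite (s := {s | B ≤ s ∧ EN k T u X e s}) ?_)) ?_
  · rintro s ⟨h1, h2⟩ s' ⟨h3, h4⟩
    exact le_antisymm (not_lt.1 (key s' s h3 h4 h2)) (not_lt.1 (key s s' h1 h2 h4))
  · intro s hs
    by_cases hsB : s < B
    · exact Or.inl hsB
    · exact Or.inr ⟨not_lt.1 hsB, hs⟩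

theorem fin1 (X : ℕ → Bool) (e : ℕ) : {s | ∃ w, Oc k T u X 1 e w s}.Finite := by
  refine Set.Finite.subset (Set.Finite.biUnion (Set.finite_lt_nat (k e))
    (t := fun j => ⋃ e' ∈ {e' | e' < e + 1}, {s | ∃ Z, Maps (T e j) X Z ∧ EN k T u Z e' s})
    fun j hj => ?_) ?_
  · refine Set.Finite.biUnion (Set.finite_lt_nat (e + 1)) fun e' _ => ?_
    obtain ⟨Z, hZ⟩ := h.hyp.total e j hj X
    refine (finN h Z e').subset ?_
    rintro s ⟨Z', h3, h4⟩
    rw [maps_unique (h.hyp.monotone e j) h3 hZ] at h4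
    exact h4
  · rintro s ⟨w, hO⟩
    obtain ⟨_, _, e', he', Z, ⟨j, hj, hZ⟩, h1⟩ := (oc1_iff h).1 hO
    exact Set.mem_biUnion (show j ∈ {j | j < k e} from hj)
      (Set.mem_biUnion (show e' ∈ {e' | e' < e + 1} from Nat.lt_succ_iff.2 he') ⟨Z, hZ, h1⟩)

theorem av_eventually (X : ℕ → Bool) (e : ℕ) : ∃ B, ∀ t ≥ B, av k T u X e t = av k T u X e B := by
  obtain ⟨B0, hB0⟩ := bound_of_finite (fin0 h X e)
  obtain ⟨B1, hB1⟩ := bound_of_finite (fin1 h X e)
  refine ⟨max B0 B1, fun t ht => le_antisymm ?_ ?_⟩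
  · refine (av_le_iff h).2 fun s hs i hi w hO => ?_
    by_cases hsB : s < max B0 B1
    · exact le_av h hsB hi hO
    · exfalso
      rcases Nat.le_one_iff_eq_zero_or_eq_one.1 hi with rfl | rfl
      · exact hB0 s ((le_max_left _ _).trans (not_lt.1 hsB)) ⟨w, hO⟩
      · exact hB1 s ((le_max_right _ _).trans (not_lt.1 hsB)) ⟨w, hO⟩
  · exact (av_le_iff h).2 fun s hs i hi w hO => le_av h (lt_of_lt_of_le hs ht) hi hO

end

/-! ### The sets constructed -/

section

variable (k : ℕ → ℕ) (T : ℕ → ℕ → List Bool → List Bool) (u : ℕ → ℕ)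

/-- The set enumerated by the positive requirements. -/
def VS (X : ℕ → Bool) (w : ℕ) : Prop := ∃ s e, Oc k T u X 0 e w s

/-- The set enumerated by the negative requirements. -/
def CS (X : ℕ → Bool) (w : ℕ) : Prop := ∃ s e, Oc k T u X 3 e w s

open Classical in
/-- The characteristic function of `VS`. -/
noncomputable def VB (X : ℕ → Bool) : ℕ → Bool := fun w => decide (VS k T u X w)

open Classical in
/-- The characteristic function of `CS`. -/
noncomputable def CB (X : ℕ → Bool) : ℕ → Bool := fun w => decide (CS k T u X w)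

/-- The join of `X` and `VS`. -/
noncomputable def WB (X : ℕ → Bool) : ℕ → Bool :=
  fun n => if n % 2 = 0 then X (n / 2) else VB k T u X (n / 2)

end

section

variable {k : ℕ → ℕ} {T : ℕ → ℕ → List Bool → List Bool} {u : ℕ → ℕ} (h : Sys k T u)

theorem VB_iff {X : ℕ → Bool} {w : ℕ} : VB k T u X w = true ↔ VS k T u X w := by
  simp [VB]

theorem CB_iff {X : ℕ → Bool} {w : ℕ} : CB k T u X w = true ↔ CS k T u X w := by
  simp [CB]

theorem conv_iff {s e w : ℕ} {σ : List Bool} : conv s e w σ = true ↔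
    Code.evaln s (Denumerable.ofNat Code e) (encode (w, σ)) = some 0 := by
  simp [conv]

theorem actP_iff {s : ℕ} {H : List Rec} {e : ℕ} {ρ : List Bool} : actP s H e ρ = true ↔
    acted H e ρ = false ∧ ∃ i ≤ s, conv s e (Nat.pair e (aVal H e ρ)) (ρ.take i) = true := by
  rw [actP, Bool.and_eq_true, List.any_eq_true, Bool.not_eq_true']
  simp only [List.mem_range, Nat.lt_succ_iff]

theorem actN_iff {s : ℕ} {H : List Rec} {e : ℕ} {ρ : List Bool} : actN s H e ρ = true ↔
    inC H (Nat.pair e (bVal H e ρ)) ρ = false ∧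
      ∃ i ≤ s, conv s e (Nat.pair e (bVal H e ρ)) (wHat H ρ i) = true := by
  rw [actN, Bool.and_eq_true, List.any_eq_true, Bool.not_eq_true']
  simp only [List.mem_range, Nat.lt_succ_iff]

include h

theorem not_code_V (X : ℕ → Bool) (c : Code) : ¬ CodeComputes c X (VB k T u X) := by
  rintro ⟨hc1, hc2⟩
  obtain ⟨B, hB⟩ := av_eventually h X (encode c)
  set e := encode c with he
  have hce : Denumerable.ofNat Code e = c := Denumerable.ofNat_encode c
  set a := av k T u X e B with ha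
  -- the final witness is not enumerated
  have h1 : ¬ VS k T u X (Nat.pair e a) := by
    rintro ⟨s, e', hO⟩
    obtain ⟨h2, h3⟩ := oc0_witness h hO
    obtain ⟨h4, h5⟩ := Nat.pair_eq_pair.1 h2
    subst h4
    have h6 : s + 1 ≤ av k T u X e (max B (s + 1)) :=
      le_av h (Nat.lt_of_lt_of_le (Nat.lt_succ_self s) (le_max_right _ _)) (Nat.zero_le 1) hO
    rw [hB _ (le_max_left _ _)] at h6
    have := av_le_self h (X := X) (e := e) (t := s)
    omega
  -- hence the computation converges to zero on it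
  obtain ⟨s0, hs0⟩ := hc2 (Nat.pair e a)
  have h2 : VB k T u X (Nat.pair e a) = false := by
    rw [← Bool.not_eq_true, VB_iff]; exact h1
  rw [h2] at hs0
  obtain ⟨k0, hk0⟩ := Code.evaln_complete.1 hs0
  -- the requirement acts along `X`
  have h3 : ∃ t, EP k T u X e t := by
    set t := 2 * (B + e + s0 + k0) with ht
    by_cases hact : acted (hist k T u t) e (pre X (u t)) = true
    · obtain ⟨s, _, hs⟩ := (acted_iff h).1 hact
      exact ⟨s, hs⟩
    · refine ⟨t, by omega, by omega, actP_iff.2 ⟨by simpa using hact, s0, by omega, ?_⟩⟩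
      have hle : s0 ≤ u t := le_trans (by omega : s0 ≤ t) (h.le_u t)
      rw [conv_iff, pre_take X hle, hce]
      have hav : aVal (hist k T u t) e (pre X (u t)) = a := hB t (by omega)
      rw [hav]
      exact Code.evaln_mono (by omega : k0 ≤ t) hk0
  obtain ⟨t, ht⟩ := h3
  have hO : Oc k T u X 0 e (Nat.pair e (av k T u X e t)) t :=
    (oc0_iff h).2 ⟨X, (h.hyp.equivalence e).refl X, ht, rfl⟩
  obtain ⟨_, i, hi, hconv⟩ := actP_iff.1 ht.2.2
  have hle : i ≤ u t := hi.trans (h.le_u t)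
  rw [conv_iff, pre_take X hle, hce] at hconv
  have h4 := hc1 _ _ _ (Code.evaln_sound (Option.mem_def.2 hconv))
  have h5 : VB k T u X (Nat.pair e (av k T u X e t)) = true := VB_iff.2 ⟨t, e, hO⟩
  change (0 : ℕ) = if VB k T u X (Nat.pair e (av k T u X e t)) = true then 1 else 0 at h4
  rw [h5] at h4
  simp at h4

/-- The approximation to `WB` at stage `t`. -/
theorem wHat_eq {X : ℕ → Bool} {t i : ℕ} (hi : i ≤ t)
    (hV : ∀ p < i, p % 2 ≠ 0 → VS k T u X (p / 2) →
      ∃ s < t, ∃ e, Oc k T u X 0 e (p / 2) s) :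
    wHat (hist k T u t) (pre X (u t)) i = pre (WB k T u X) i := by
  rw [wHat]
  refine List.map_congr_left fun p hp => ?_
  rw [List.mem_range] at hp
  by_cases hp2 : p % 2 = 0
  · simp only [hp2, decide_true, if_true, WB]
    exact pre_getD X (lt_of_lt_of_le (by omega : p / 2 < t) (h.le_u t)) false
  · simp only [hp2, decide_false, if_false, WB, Bool.false_eq_true]
    rw [Bool.eq_iff_iff, inV_iff h, VB_iff]
    constructor
    · rintro ⟨s, _, _, e, hO⟩; exact ⟨s, e, hO⟩
    · intro hVS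
      obtain ⟨s, hs, e, hO⟩ := hV p hp hp2 hVS
      exact ⟨s, hs, (u_le_iff h).2 hs, e, hO⟩

theorem not_code_C (X : ℕ → Bool) (c : Code) :
    ¬ CodeComputes c (WB k T u X) (CB k T u X) := by
  rintro ⟨hc1, hc2⟩
  obtain ⟨B, hB⟩ := bv_eventually h X (encode c)
  set e := encode c with he
  have hce : Denumerable.ofNat Code e = c := Denumerable.ofNat_encode c
  set b := bv k T u X e B with hb
  by_cases hC : CS k T u X (Nat.pair e b)
  · -- the computation is preserved
    obtain ⟨t, e', hO⟩ := hC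
    obtain ⟨hN, h2⟩ := (oc3_iff h).1 hO
    obtain ⟨h4, h5⟩ := Nat.pair_eq_pair.1 h2
    subst h4
    have hC : CS k T u X (Nat.pair e b) := ⟨t, e, hO⟩
    obtain ⟨_, i, hi, hconv⟩ := actN_iff.1 hN.2.2
    change conv t e (Nat.pair e (bv k T u X e t)) _ = true at hconv
    rw [← h5, wHat_eq h hi ?_, conv_iff, hce] at hconv
    · have h6 := hc1 _ _ _ (Code.evaln_sound (Option.mem_def.2 hconv))
      rw [CB_iff.2 hC] at h6
      simp at h6
    · intro p hp hp2 ⟨s, e', hOs⟩
      refine ⟨s, ?_, e', hOs⟩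
      by_contra hst
      obtain ⟨hw, hpar⟩ := oc0_witness h hOs
      have hpar' := hN.1
      have hts : t < s := by omega
      rcases lt_or_ge e' e with hee | hee
      · -- a positive requirement of higher priority acts later
        have h7 : s + 1 ≤ bv k T u X e (max B (s + 1)) :=
          le_bv h (Nat.lt_of_lt_of_le (Nat.lt_succ_self s) (le_max_right _ _)) hee hOs
        rw [hB _ (le_max_left _ _)] at h7
        have := bv_le_self h (X := X) (e := e) (t := t)
        omega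
      · have hle1 := Nat.left_le_pair e' (av k T u X e' s)
        have hle2 := Nat.right_le_pair e' (av k T u X e' s)
        rw [← hw] at hle1 hle2
        rcases lt_or_ge t e' with hte | hte
        · omega
        · have hO1 : Oc k T u X 1 e' 0 t :=
            (oc1_iff h).2 ⟨rfl, hte, e, hee, X, (h.hyp.equivalence e').refl X, hN⟩
          have := le_av h hts (le_refl 1) hO1
          omega
  · -- the computation converges to zero, and the requirement acts
    obtain ⟨s0, hs0⟩ := hc2 (Nat.pair e b)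
    have h2 : CB k T u X (Nat.pair e b) = false := by
      rw [← Bool.not_eq_true, CB_iff]; exact hC
    rw [h2] at hs0
    obtain ⟨k0, hk0⟩ := Code.evaln_complete.1 hs0
    -- a stage by which the approximation to `WB` below `s0` is correct
    have h3 : ∃ S, ∀ p < s0, VS k T u X (p / 2) → ∃ s < S, ∃ e, Oc k T u X 0 e (p / 2) s := by
      clear hs0 hk0
      induction s0 with
      | zero => exact ⟨0, fun p hp => absurd hp (Nat.not_lt_zero p)⟩
      | succ n ih =>
        obtain ⟨S, hS⟩ := ih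
        by_cases hV : VS k T u X (n / 2)
        · obtain ⟨s, e', hO⟩ := hV
          refine ⟨max S (s + 1), fun p hp hVp => ?_⟩
          rcases Nat.lt_succ_iff_lt_or_eq.1 hp with hp | rfl
          · obtain ⟨s', hs', e'', hO'⟩ := hS p hp hVp
            exact ⟨s', lt_of_lt_of_le hs' (le_max_left _ _), e'', hO'⟩
          · exact ⟨s, lt_of_lt_of_le (Nat.lt_succ_self s) (le_max_right _ _), e', hO⟩
        · refine ⟨S, fun p hp hVp => ?_⟩
          rcases Nat.lt_succ_iff_lt_or_eq.1 hp with hp | rfl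
          · exact hS p hp hVp
          · exact absurd hVp hV
    obtain ⟨S, hS⟩ := h3
    set t := 2 * (B + e + s0 + k0 + S) + 1 with ht
    have hbt : bVal (hist k T u t) e (pre X (u t)) = b := hB t (by omega)
    have hin : inC (hist k T u t) (Nat.pair e b) (pre X (u t)) = false := by
      rw [← Bool.not_eq_true, inC_iff h]
      rintro ⟨s, _, _, e', hO⟩
      exact hC ⟨s, e', hO⟩
    have hN : EN k T u X e t := by
      refine ⟨by omega, by omega, actN_iff.2 ⟨?_, s0, by omega, ?_⟩⟩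
      · rw [hbt]; exact hin
      · rw [hbt, wHat_eq h (by omega) ?_, conv_iff, hce]
        · exact Code.evaln_mono (by omega : k0 ≤ t) hk0
        · intro p hp _ hVp
          obtain ⟨s, hs, h4⟩ := hS p hp hVp
          exact ⟨s, by omega, h4⟩
    refine hC ⟨t, e, (oc3_iff h).2 ⟨hN, ?_⟩⟩
    rw [bv, hbt]

end

end Pool.Agent.H19
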