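import Mathlib
import Pool.Agent.H19.Verify

/-!
The growth function needed by the construction exists by compactness of Cantor space.
-/

set_option autoImplicit false

namespace Pool.Agent.H19

open Encodable

/-- Extension of a string by zeros. -/
def extz (σ : List Bool) : ℕ → Bool := fun n => σ.getD n false

theorem pre_extz (σ : List Bool) : pre (extz σ) σ.length = σ := by
  apply List.ext_getElem?
  intro n
  by_cases hn : n < σ.length
  · rw [pre_getElem? _ hn, List.getElem?_eq_getElem hn, extz, List.getD_eq_getElem?_getD,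
      List.getElem?_eq_getElem hn]
    rfl
  · rw [List.getElem?_eq_none, List.getElem?_eq_none]
    · omega
    · rw [pre_length]; omega

theorem exists_len {t : List Bool → List Bool} (ht : ∀ σ τ, σ <+: τ → t σ <+: t τ)
    (tot : ∀ X, ∃ Y, Maps t X Y) (n : ℕ) :
    ∃ L, ∀ σ : List Bool, L ≤ σ.length → n ≤ (t σ).length := by
  let U : ℕ → Set (ℕ → Bool) := fun s => {X | n ≤ (t (pre X s)).length}
  have hopen : ∀ s, IsOpen (U s) := by
    intro s
    rw [isOpen_iff_mem_nhds]
    intro X hX
    have h1 : IsOpen (⋂ i ∈ Finset.range s, {Y : ℕ → Bool | Y i = X i}) := by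
      refine isOpen_biInter_finset fun i _ => ?_
      exact (isOpen_discrete ({X i} : Set Bool)).preimage (continuous_apply (A := fun _ : ℕ => Bool) i)
    refine Filter.mem_of_superset (h1.mem_nhds (by simp)) ?_
    intro Y hY
    simp only [Set.mem_iInter, Finset.mem_range, Set.mem_ofPred_eq] at hY
    have h2 : pre Y s = pre X s :=
      List.map_congr_left fun i hi => hY i (List.mem_range.1 hi)
    show n ≤ (t (pre Y s)).length
    rw [h2]; exact hX
  have hmono : Monotone U := by
    intro s s' hs X hX
    exact le_trans hX (ht _ _ (pre_mono X hs)).length_le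
  have hcover : (Set.univ : Set (ℕ → Bool)) ⊆ ⋃ s, U s := by
    intro X _
    obtain ⟨Y, hY⟩ := tot X
    rcases n with _ | m
    · exact Set.mem_iUnion.2 ⟨0, Nat.zero_le _⟩
    · obtain ⟨s, hs⟩ := hY m
      rw [List.getElem?_eq_some_iff] at hs
      exact Set.mem_iUnion.2 ⟨s, hs.1⟩
  obtain ⟨L, hL⟩ := isCompact_univ.elim_directed_cover U hopen hcover hmono.directed_le
  refine ⟨L, fun σ hσ => ?_⟩
  have h1 : n ≤ (t (pre (extz σ) L)).length := hL (Set.mem_univ (extz σ))
  refine h1.trans (List.IsPrefix.length_le (ht _ _ ?_))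
  have := pre_mono (extz σ) hσ
  rwa [pre_extz] at this

theorem comp_list_all {α β : Type*} [Primcodable α] [Primcodable β] {f : α → List β}
    {g : α → β → Bool} (hf : Computable f) (hg : Computable₂ g) :
    Computable fun a => (f a).all (g a) := by
  refine (comp_not (comp_list_any hf (g := fun a b => !(g a b)) (comp_not hg))).of_eq fun a => ?_
  rw [List.all_eq_not_any_not]

/-- The test used in the search for the next value of the growth function. -/
def growTest (k : ℕ → ℕ) (T : ℕ → ℕ → List Bool → List Bool) (s v L : ℕ) : Bool :=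
  decide (v + 1 ≤ L) && (List.range (s + 1)).all fun e => (List.range (k e)).all fun j =>
    (strs L).all fun σ => decide (v ≤ (T e j σ).length)

section

variable {k : ℕ → ℕ} {T : ℕ → ℕ → List Bool → List Bool} (h : CompHypFin k T)

theorem growTest_iff {s v L : ℕ} : growTest k T s v L = true ↔
    v + 1 ≤ L ∧ ∀ e ≤ s, ∀ j < k e, ∀ σ : List Bool, σ.length = L → v ≤ (T e j σ).length := by
  simp only [growTest, Bool.and_eq_true, decide_eq_true_eq, List.all_eq_true, List.mem_range,
    mem_strs, Nat.lt_succ_iff]

include h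

theorem exists_growTest (s v : ℕ) : ∃ L, growTest k T s v L = true := by
  have h1 : ∀ e j, ∃ L, j < k e → ∀ σ : List Bool, L ≤ σ.length → v ≤ (T e j σ).length := by
    intro e j
    by_cases hj : j < k e
    · obtain ⟨L, hL⟩ := exists_len (h.monotone e j) (h.total e j hj) v
      exact ⟨L, fun _ => hL⟩
    · exact ⟨0, fun hj' => absurd hj' hj⟩
  choose Lf hLf using h1
  refine ⟨(v + 1) + ∑ e ∈ Finset.range (s + 1), ∑ j ∈ Finset.range (k e), Lf e j,
    growTest_iff.2 ⟨Nat.le_add_right _ _, fun e he j hj σ hσ => hLf e j hj σ ?_⟩⟩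
  have h2 : Lf e j ≤ ∑ j ∈ Finset.range (k e), Lf e j :=
    Finset.single_le_sum (f := fun j => Lf e j) (fun _ _ => Nat.zero_le _) (Finset.mem_range.2 hj)
  have h3 : ∑ j ∈ Finset.range (k e), Lf e j ≤
      ∑ e ∈ Finset.range (s + 1), ∑ j ∈ Finset.range (k e), Lf e j :=
    Finset.single_le_sum (f := fun e => ∑ j ∈ Finset.range (k e), Lf e j)
      (fun _ _ => Nat.zero_le _) (Finset.mem_range.2 (Nat.lt_succ_iff.2 he))
  omega

theorem exists_sys : ∃ u, Sys k T u := by
  classical
  let nxt : ℕ → ℕ → ℕ := fun s v => Nat.find (exists_growTest h s v)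
  have htest : Computable (fun x : (ℕ × ℕ) × ℕ => growTest k T x.1.1 x.1.2 x.2) := by
    refine comp_and (comp_decLe (Computable.succ.comp (Computable.snd.comp Computable.fst))
      Computable.snd) ?_
    refine comp_list_all (g := fun (x : (ℕ × ℕ) × ℕ) e => (List.range (k e)).all fun j =>
      (strs x.2).all fun σ => decide (x.1.2 ≤ (T e j σ).length))
      (comp_range (Computable.succ.comp (Computable.fst.comp Computable.fst))) ?_
    refine comp_list_all (g := fun (x : ((ℕ × ℕ) × ℕ) × ℕ) j =>
      (strs x.1.2).all fun σ => decide (x.1.1.2 ≤ (T x.2 j σ).length))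
      (comp_range (h.computable_card.comp Computable.snd)) ?_
    refine comp_list_all (g := fun (x : (((ℕ × ℕ) × ℕ) × ℕ) × ℕ) σ =>
      decide (x.1.1.1.2 ≤ (T x.1.2 x.2 σ).length))
      (comp_strs.comp (Computable.snd.comp (Computable.fst.comp Computable.fst))) ?_
    refine comp_decLe (Computable.snd.comp (Computable.fst.comp (Computable.fst.comp
      (Computable.fst.comp Computable.fst)))) (Computable.list_length.comp ?_)
    exact comp_T h.computable_map (Computable.snd.comp (Computable.fst.comp Computable.fst))
      (Computable.snd.comp Computable.fst) Computable.snd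
  have hnxt : Computable₂ nxt := by
    have h1 : Partrec₂ (fun (a : ℕ × ℕ) (L : ℕ) => (Part.some (growTest k T a.1 a.2 L) :
      Part Bool)) := htest
    refine (Partrec.rfind h1).of_eq fun a => ?_
    refine Part.eq_some_iff.2 (Nat.mem_rfind.2 ⟨?_, fun {m} hm => ?_⟩)
    · have := Nat.find_spec (exists_growTest h a.1 a.2)
      exact Part.mem_some_iff.2 this.symm
    · have := Nat.find_min (exists_growTest h a.1 a.2) hm
      exact Part.mem_some_iff.2 (by simpa using this)
  let u : ℕ → ℕ := fun n => Nat.rec 0 (fun s v => nxt s v) n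
  have hu : Computable u := by
    have h2 : Computable₂ (fun (_ : ℕ) (p : ℕ × ℕ) => nxt p.1 p.2) :=
      hnxt.comp (Computable.fst.comp Computable.snd) (Computable.snd.comp Computable.snd)
    exact Computable.nat_rec Computable.id (Computable.const 0) h2
  have hspec : ∀ s, growTest k T s (u s) (u (s + 1)) = true := fun s =>
    Nat.find_spec (exists_growTest h s (u s))
  exact ⟨u, h, hu, fun s => (growTest_iff.1 (hspec s)).1, fun s => (growTest_iff.1 (hspec s)).2⟩

end

end Pool.Agent.H19
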