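import Mathlib
import Pool.Agent.H19.Along
import Pool.Agent.H19.Growth

/-!
The operator obtained from the block-wise finite injury construction.
-/

set_option autoImplicit false

namespace Pool.Agent.H19

open Encodable Nat.Partrec

/-- A computable test on numbers and strings is the domain of a partial recursive function. -/
theorem exists_code_dom {t : ℕ → List Bool → Bool} (ht : Computable₂ t) :
    ∃ c : Code, ∀ n σ, (c.eval (encode (n, σ))).Dom ↔ t n σ = true := by
  have h1 : Partrec₂ (fun (n : ℕ) (σ : List Bool) =>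
      cond (t n σ) (Part.some 0 : Part ℕ) Part.none) :=
    Partrec.cond ht (Computable.const 0) Partrec.none
  obtain ⟨c, hc⟩ := exists_code_of_partrec₂ h1
  refine ⟨c, fun n σ => ?_⟩
  rw [hc]
  cases t n σ <;> simp

section

variable {k : ℕ → ℕ} {T : ℕ → ℕ → List Bool → List Bool} {u : ℕ → ℕ} (h : Sys k T u)

include h

theorem vs_iff {X : ℕ → Bool} {w : ℕ} :
    VS k T u X w ↔ ∃ s, inV (hist k T u s) w (pre X s) = true := by
  constructor
  · rintro ⟨s, e, hO⟩
    refine ⟨u (s + 1), (inV_iff h).2 ⟨s, ?_, le_rfl, e, hO⟩⟩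
    exact lt_of_lt_of_le (Nat.lt_succ_self s) (h.le_u (s + 1))
  · rintro ⟨s, hs⟩
    obtain ⟨s', _, _, e, hO⟩ := (inV_iff h).1 hs
    exact ⟨s', e, hO⟩

theorem cs_iff {X : ℕ → Bool} {w : ℕ} :
    CS k T u X w ↔ ∃ s, inC (hist k T u s) w (pre X s) = true := by
  constructor
  · rintro ⟨s, e, hO⟩
    refine ⟨u (s + 1), (inC_iff h).2 ⟨s, ?_, le_rfl, e, hO⟩⟩
    exact lt_of_lt_of_le (Nat.lt_succ_self s) (h.le_u (s + 1))
  · rintro ⟨s, hs⟩
    obtain ⟨s', _, _, e, hO⟩ := (inC_iff h).1 hs
    exact ⟨s', e, hO⟩

theorem comp_hist' : Computable (hist k T u) :=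
  comp_hist h.hyp.computable_card h.hyp.computable_map h.comp

theorem exists_code_W : ∃ r : Code, ∀ X n,
    (∃ s, (r.eval (encode (n, pre X s))).Dom) ↔ WB k T u X n = true := by
  have h1 : Computable₂ (fun (n : ℕ) (σ : List Bool) =>
      if decide (n % 2 = 0) then σ.getD (n / 2) false
        else inV (hist k T u σ.length) (n / 2) σ) := by
    have hd : Computable (fun x : ℕ × List Bool => x.1 / 2) :=
      comp_div Computable.fst (Computable.const 2)
    refine comp_ite (c := fun x : ℕ × List Bool => decide (x.1 % 2 = 0))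
      (comp_decEq (comp_mod Computable.fst (Computable.const 2)) (Computable.const 0)) ?_ ?_
    · exact comp_getD Computable.snd hd
    · exact comp_inV ((comp_hist' h).comp (Computable.list_length.comp Computable.snd)) hd
        Computable.snd
  obtain ⟨r, hr⟩ := exists_code_dom h1
  refine ⟨r, fun X n => ?_⟩
  simp only [hr, pre_length]
  by_cases hn : n % 2 = 0
  · simp only [hn, decide_true, if_true, WB]
    constructor
    · rintro ⟨s, hs⟩
      by_cases hns : n / 2 < s
      · rwa [pre_getD X hns] at hs
      · rw [List.getD_eq_default] at hs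
        · simp at hs
        · rw [pre_length]; omega
    · intro hX
      exact ⟨n / 2 + 1, by rw [pre_getD X (Nat.lt_succ_self _)]; exact hX⟩
  · simp only [hn, decide_false, if_false, WB, Bool.false_eq_true]
    rw [VB_iff, vs_iff h]

theorem exists_code_C : ∃ r : Code, ∀ X n,
    (∃ s, (r.eval (encode (n, pre X s))).Dom) ↔ CB k T u X n = true := by
  have h1 : Computable₂ (fun (n : ℕ) (σ : List Bool) => inC (hist k T u σ.length) n σ) :=
    comp_inC ((comp_hist' h).comp (Computable.list_length.comp Computable.snd)) Computable.fst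
        Computable.snd
  obtain ⟨r, hr⟩ := exists_code_dom h1
  refine ⟨r, fun X n => ?_⟩
  simp only [hr, pre_length]
  rw [CB_iff, cs_iff h]

theorem vs_rel {e : ℕ} {X Y : ℕ → Bool} (hXY : LevelRel k T e X Y) {w : ℕ}
    (hw : e ≤ w.unpair.1) (hV : VS k T u X w) : VS k T u Y w := by
  obtain ⟨s, e', hO⟩ := hV
  have h1 := (oc0_witness h hO).1
  have h2 : e ≤ e' := by rw [h1, Nat.unpair_pair] at hw; exact hw
  exact ⟨s, e', oc_rel h h2 hXY (Nat.zero_le 1) hO⟩

theorem vs_fin (X : ℕ → Bool) (e : ℕ) : {w | VS k T u X w ∧ w.unpair.1 < e}.Finite := by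
  refine Set.Finite.subset (Set.Finite.biUnion (Set.finite_lt_nat e)
    (t := fun e' => (fun s => Nat.pair e' (av k T u X e' s)) ''
      {s | ∃ w, Oc k T u X 0 e' w s}) fun e' _ => (fin0 h X e').image _) ?_
  rintro w ⟨⟨s, e', hO⟩, hw⟩
  have h1 := (oc0_witness h hO).1
  rw [h1, Nat.unpair_pair] at hw
  exact Set.mem_biUnion (show e' ∈ {e' | e' < e} from hw) ⟨s, ⟨w, hO⟩, h1.symm⟩

/-- Invariance of the operator. -/
theorem wb_le_of_rel {e : ℕ} {X Y : ℕ → Bool} (hXY : LevelRel k T e X Y) :
    TuringReducible (chi (WB k T u Y)) (chi (WB k T u X)) := by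
  classical
  have hYX := (h.hyp.equivalence e).symm hXY
  obtain ⟨j, hj, hM⟩ := hXY
  have hXY : LevelRel k T e X Y := ⟨j, hj, hM⟩
  obtain ⟨l, hl⟩ : ∃ l : List ℕ, ∀ w, w ∈ l ↔ (VS k T u Y w ∧ w.unpair.1 < e) :=
    ⟨(vs_fin h Y e).toFinset.toList, fun w => by simp⟩
  let F : ℕ → List Bool → Bool := fun n σ =>
    if decide (n % 2 = 0) then
      (T e j ((List.range (σ.length / 2)).map (fun i => σ.getD (2 * i) false))).getD (n / 2) false
    else if decide ((n / 2).unpair.1 < e) then l.any (fun x => decide (x = n / 2))
      else σ.getD n false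
  have hF : Computable₂ F := by
    have hd : Computable (fun x : ℕ × List Bool => x.1 / 2) :=
      comp_div Computable.fst (Computable.const 2)
    refine comp_ite (c := fun x : ℕ × List Bool => decide (x.1 % 2 = 0))
      (comp_decEq (comp_mod Computable.fst (Computable.const 2)) (Computable.const 0)) ?_ ?_
    · refine comp_getD (comp_T h.hyp.computable_map (Computable.const e) (Computable.const j) ?_) hd
      refine comp_list_map (g := fun (x : ℕ × List Bool) i => x.2.getD (2 * i) false)
        (comp_range (comp_div (Computable.list_length.comp Computable.snd)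
          (Computable.const 2))) ?_
      exact comp_getD (Computable.snd.comp Computable.fst)
        (Primrec.nat_mul.to_comp.comp (Computable.const 2) Computable.snd)
    · refine comp_ite (c := fun x : ℕ × List Bool => decide ((x.1 / 2).unpair.1 < e))
        (comp_decLt (Computable.fst.comp (Computable.unpair.comp hd)) (Computable.const e)) ?_ ?_
      · exact comp_list_any (f := fun _ : ℕ × List Bool => l)
          (g := fun (x : ℕ × List Bool) y => decide (y = x.1 / 2)) (Computable.const l)
          (comp_decEq Computable.snd (hd.comp Computable.fst))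
      · exact comp_getD Computable.snd Computable.fst
  let g : ℕ → ℕ := fun n => 2 * u (e + n + 1 + 1) + (n + 1)
  have hg : Computable g := by
    have h1 : Computable (fun n : ℕ => e + n + 1 + 1) :=
      Computable.succ.comp (Computable.succ.comp
        (Primrec.nat_add.to_comp.comp (Computable.const e) Computable.id))
    exact Primrec.nat_add.to_comp.comp (Primrec.nat_mul.to_comp.comp (Computable.const 2)
      (h.comp.comp h1)) Computable.succ
  refine turingReducible_of_computable hF hg fun n => ?_
  have hgn : n < g n := by simp only [g]; omega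
  by_cases hn : n % 2 = 0
  · simp only [F, hn, decide_true, if_true, pre_length]
    have h1 : (List.range (g n / 2)).map (fun i => (pre (WB k T u X) (g n)).getD (2 * i) false) =
        pre X (g n / 2) := by
      refine List.map_congr_left fun i hi => ?_
      rw [List.mem_range] at hi
      rw [pre_getD _ (by omega : 2 * i < g n)]
      simp [WB]
    rw [h1]
    have h2 : WB k T u Y n = Y (n / 2) := by simp [WB, hn]
    rw [h2]
    -- the image has large length
    have h3 : u (e + n + 1) ≤ (T e j (pre X (u (e + n + 1 + 1)))).length :=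
      h.len (e + n + 1) e (by omega) j hj _ (pre_length _ _)
    have h4 : (T e j (pre X (u (e + n + 1 + 1)))).length ≤ (T e j (pre X (g n / 2))).length := by
      refine List.IsPrefix.length_le (h.hyp.monotone e j _ _ (pre_mono X ?_))
      simp only [g]; omega
    have h5 : e + n + 1 ≤ u (e + n + 1) := h.le_u (e + n + 1)
    have h7 : n / 2 < (T e j (pre X (g n / 2))).length := by omega
    have h8 := take_of_maps (h.hyp.monotone e j) hM (L := g n / 2) (n := n / 2 + 1) h7
    have h9 : (T e j (pre X (g n / 2)))[n / 2]? = some (Y (n / 2)) := by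
      rw [← List.getElem?_take_of_lt (Nat.lt_succ_self (n / 2)), h8,
        pre_getElem? _ (Nat.lt_succ_self _)]
    rw [List.getD_eq_getElem?_getD, h9]; rfl
  · have h2 : WB k T u Y n = VB k T u Y (n / 2) := by simp [WB, hn]
    rw [h2]
    by_cases hw : (n / 2).unpair.1 < e
    · simp only [F, hn, decide_false, Bool.false_eq_true, if_false, hw, decide_true, if_true]
      rw [Bool.eq_iff_iff, VB_iff, List.any_eq_true]
      constructor
      · rintro ⟨x, hx, hxn⟩
        rw [decide_eq_true_eq] at hxn
        subst hxn
        exact ((hl _).1 hx).1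
      · intro hV
        exact ⟨n / 2, (hl _).2 ⟨hV, hw⟩, by simp⟩
    · simp only [F, hn, decide_false, Bool.false_eq_true, if_false, hw]
      rw [pre_getD _ hgn]
      have h3 : WB k T u X n = VB k T u X (n / 2) := by simp [WB, hn]
      rw [h3, Bool.eq_iff_iff, VB_iff, VB_iff]
      exact ⟨vs_rel h hXY (not_lt.1 hw), vs_rel h hYX (not_lt.1 hw)⟩

end

/-- The set enumerated by the operator with code `r` from the oracle `X`. -/
def opSet (r : Code) (X : ℕ → Bool) : Set ℕ :=
  {n | ∃ s : ℕ, (r.eval (encode (n, (List.range s).map X))).Dom}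

/-- The Turing jump of `X`. -/
def jumpSet (X : ℕ → Bool) : Set ℕ :=
  {p | ∃ s : ℕ, ((Denumerable.ofNat Code p.unpair.1).eval
    (encode (p.unpair.2, (List.range s).map X))).Dom}

open Classical in
/-- The characteristic function of a set of natural numbers. -/
noncomputable def chr (A : Set ℕ) : ℕ →. ℕ := fun n => Part.some (if n ∈ A then 1 else 0)

theorem chr_eq_chi {A : Set ℕ} {Z : ℕ → Bool} (hA : ∀ n, n ∈ A ↔ Z n = true) :
    chr A = chi Z := by
  funext n
  simp only [chr, chi, Part.some_inj]
  by_cases hn : Z n = true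
  · rw [if_pos hn, if_pos ((hA n).2 hn)]
  · rw [if_neg hn, if_neg (fun h => hn ((hA n).1 h))]

theorem main_construction {k : ℕ → ℕ} {T : ℕ → ℕ → List Bool → List Bool}
    (h : CompHypFin k T) : ∃ r : Code,
      (∀ X : ℕ → Bool,
        TuringReducible (chr {n | X n = true}) (chr (opSet r X)) ∧
        ¬ TuringReducible (chr (opSet r X)) (chr {n | X n = true}) ∧
        TuringReducible (chr (opSet r X)) (chr (jumpSet X)) ∧
        ¬ TuringReducible (chr (jumpSet X)) (chr (opSet r X))) ∧
      ∀ (e : ℕ) (X Y : ℕ → Bool), LevelRel k T e X Y →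
        TuringReducible (chr (opSet r X)) (chr (opSet r Y)) ∧
        TuringReducible (chr (opSet r Y)) (chr (opSet r X)) := by
  obtain ⟨u, hu⟩ := exists_sys h
  obtain ⟨r, hr⟩ := exists_code_W hu
  obtain ⟨rc, hrc⟩ := exists_code_C hu
  have hW : ∀ X, chr (opSet r X) = chi (WB k T u X) := fun X => chr_eq_chi (hr X)
  have hX : ∀ X : ℕ → Bool, chr {n | X n = true} = chi X := fun X => chr_eq_chi fun n => Iff.rfl
  classical
  have hJ : ∀ X, chr (jumpSet X) = chi (fun n => decide (n ∈ jumpSet X)) := fun X =>
    chr_eq_chi fun n => by simp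
  -- a set uniformly enumerable from `X` is reducible to the jump of `X`
  have hmj : ∀ (c : Code) (X B : ℕ → Bool),
      (∀ n, (∃ s, (c.eval (encode (n, pre X s))).Dom) ↔ B n = true) →
      TuringReducible (chi B) (chi (fun n => decide (n ∈ jumpSet X))) := by
    intro c X B hB
    have hp : Computable (fun n : ℕ => Nat.pair (encode c) n) :=
      comp_natpair (Computable.const _) Computable.id
    refine turingReducible_of_computable (F := fun n σ => σ.getD (Nat.pair (encode c) n) false)
      (g := fun n => Nat.pair (encode c) n + 1)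
      (comp_getD Computable.snd (hp.comp Computable.fst)) (Computable.succ.comp hp) fun n => ?_
    rw [pre_getD _ (Nat.lt_succ_self _), Bool.eq_iff_iff, decide_eq_true_eq, ← hB n]
    show (∃ s : ℕ, ((Denumerable.ofNat Code (Nat.pair (encode c) n).unpair.1).eval
      (encode ((Nat.pair (encode c) n).unpair.2, (List.range s).map X))).Dom) ↔ _
    rw [Nat.unpair_pair, Denumerable.ofNat_encode]
    exact Iff.rfl
  refine ⟨r, fun X => ⟨?_, ?_, ?_, ?_⟩, fun e X Y hXY => ⟨?_, ?_⟩⟩
  · rw [hW, hX]
    refine turingReducible_of_computable (F := fun n σ => σ.getD (2 * n) false)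
      (g := fun n => 2 * n + 1)
      (comp_getD Computable.snd (Primrec.nat_mul.to_comp.comp (Computable.const 2)
        Computable.fst)) (Computable.succ.comp (Primrec.nat_mul.to_comp.comp (Computable.const 2)
        Computable.id)) fun n => ?_
    rw [pre_getD _ (Nat.lt_succ_self _)]
    simp [WB]
  · rw [hW, hX]
    intro hred
    have h1 : TuringReducible (chi (VB k T u X)) (chi (WB k T u X)) := by
      refine turingReducible_of_computable (F := fun n σ => σ.getD (2 * n + 1) false)
        (g := fun n => 2 * n + 1 + 1)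
        (comp_getD Computable.snd (Computable.succ.comp (Primrec.nat_mul.to_comp.comp
          (Computable.const 2) Computable.fst))) (Computable.succ.comp (Computable.succ.comp
          (Primrec.nat_mul.to_comp.comp (Computable.const 2) Computable.id))) fun n => ?_
      rw [pre_getD _ (Nat.lt_succ_self _)]
      have h2 : ¬ (2 * n + 1) % 2 = 0 := by omega
      have h3 : (2 * n + 1) / 2 = n := by omega
      simp [WB, h2, h3]
    obtain ⟨c, hc⟩ := turingReducible_iff.1 (h1.trans hred)
    exact not_code_V hu X c hc
  · rw [hW, hJ]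
    exact hmj r X _ (hr X)
  · rw [hW, hJ]
    intro hred
    obtain ⟨c, hc⟩ := turingReducible_iff.1 ((hmj rc X _ (hrc X)).trans hred)
    exact not_code_C hu X c hc
  · rw [hW, hW]
    exact wb_le_of_rel hu ((hu.hyp.equivalence e).symm hXY)
  · rw [hW, hW]
    exact wb_le_of_rel hu hXY

end Pool.Agent.H19
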