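import Mathlib
import Pool.Agent.H19.Op

/-!
Nested coding trees and switches.
-/

set_option autoImplicit false

namespace Pool.Agent.H19

open Encodable Nat.Partrec

/-- `σ` codes the columns `D 0, …, D (j - 1)` at the positions from `s` on. -/
def Coh (D : ℕ → ℕ → Bool) (j s : ℕ) (σ : List Bool) : Prop :=
  ∀ p, s ≤ p → p < σ.length → col p < j → σ.getD p false = D (col p) (idx p)

/-- Some extension of `ρ` coding the first `j` columns makes `A m` true. -/
def Qr (A : ℕ → List Bool → Bool) (D : ℕ → ℕ → Bool) (j : ℕ) (ρ : List Bool) (m : ℕ) : Prop :=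
  ∃ τ, ρ <+: τ ∧ Coh D j ρ.length τ ∧ A m τ = true

/-- The family `D` codes `P` and its own extension questions. -/
structure Fam (A : ℕ → List Bool → Bool) (P : ℕ → Bool) (D : ℕ → ℕ → Bool) : Prop where
  par : ∀ j x, D j (2 * x) = P x
  qry : ∀ j (ρ : List Bool) m, D j (2 * encode (ρ, m) + 1) = true ↔ Qr A D j ρ m

theorem coh_congr {D D' : ℕ → ℕ → Bool} {j s : ℕ} {σ : List Bool}
    (h : ∀ c < j, ∀ x, D c x = D' c x) (hc : Coh D j s σ) : Coh D' j s σ := by
  intro p h1 h2 h3
  rw [hc p h1 h2 h3, h _ h3]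

theorem coh_mono {D : ℕ → ℕ → Bool} {j j' s s' : ℕ} {σ : List Bool} (hj : j' ≤ j) (hs : s ≤ s')
    (hc : Coh D j s σ) : Coh D j' s' σ :=
  fun p h1 h2 h3 => hc p (hs.trans h1) h2 (h3.trans_le hj)

open Classical in
/-- One more column. -/
noncomputable def newCol (A : ℕ → List Bool → Bool) (P : ℕ → Bool) (D : ℕ → ℕ → Bool) (j : ℕ) :
    ℕ → Bool := fun x =>
  if x % 2 = 0 then P (x / 2)
  else decide (∃ (ρ : List Bool) (m : ℕ), encode (ρ, m) = x / 2 ∧ Qr A D j ρ m)

/-- Approximations to the family. -/
noncomputable def preD (A : ℕ → List Bool → Bool) (P : ℕ → Bool) : ℕ → ℕ → ℕ → Bool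
  | 0 => fun _ _ => false
  | j + 1 => fun c x => if c = j then newCol A P (preD A P j) j x else preD A P j c x

theorem exists_fam (A : ℕ → List Bool → Bool) (P : ℕ → Bool) : ∃ D, Fam A P D := by
  classical
  have h1 : ∀ j c, c < j → ∀ x, preD A P j c x = preD A P (c + 1) c x := by
    intro j
    induction j with
    | zero => intro c hc; exact absurd hc (Nat.not_lt_zero c)
    | succ j ih =>
      intro c hc x
      by_cases hcj : c = j
      · subst hcj; rfl
      · rw [← ih c (by omega) x]
        simp [preD, hcj]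
  refine ⟨fun c x => preD A P (c + 1) c x, ⟨fun j x => ?_, fun j ρ m => ?_⟩⟩
  · simp [preD, newCol]
  · show preD A P (j + 1) j (2 * encode (ρ, m) + 1) = true ↔ _
    generalize hDD : (fun c x => preD A P (c + 1) c x) = DD
    have h2 : (2 * encode (ρ, m) + 1) % 2 ≠ 0 := by omega
    have h3 : (2 * encode (ρ, m) + 1) / 2 = encode (ρ, m) := by omega
    have h4 : ∀ c < j, ∀ x, preD A P j c x = DD c x :=
      fun c hc x => by rw [← hDD]; exact h1 j c hc x
    simp only [preD, newCol, if_true, h2, if_false, decide_eq_true_eq, h3]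
    constructor
    · rintro ⟨ρ', m', he, τ, hτ1, hτ2, hτ3⟩
      obtain ⟨rfl, rfl⟩ := Prod.mk.inj (encode_injective he)
      exact ⟨τ, hτ1, coh_congr h4 hτ2, hτ3⟩
    · rintro ⟨τ, hτ1, hτ2, hτ3⟩
      exact ⟨ρ, m, rfl, τ, hτ1, coh_congr (fun c hc x => (h4 c hc x).symm) hτ2, hτ3⟩

/-- The switch `m` is off, and can be turned on, on the tree coding the columns up to `j`
above `σ`. -/
def Good (A : ℕ → List Bool → Bool) (D : ℕ → ℕ → Bool) (j : ℕ) (σ : List Bool) (m : ℕ) : Prop :=
  ∀ ρ, σ <+: ρ → Coh D (j + 1) σ.length ρ → A m ρ = false ∧ Qr A D j ρ m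

open Classical in
/-- The set enumerated by `A` along `Z`. -/
noncomputable def WA (A : ℕ → List Bool → Bool) (Z : ℕ → Bool) : ℕ → Bool :=
  fun m => decide (∃ t, A m (pre Z t) = true)

theorem WA_iff {A : ℕ → List Bool → Bool} {Z : ℕ → Bool} {m : ℕ} :
    WA A Z m = true ↔ ∃ t, A m (pre Z t) = true := by simp [WA]

theorem TotRec.ident (Z : ℕ → Bool) : TotRec Z (fun x => x) := TotRec.of_computable Computable.id

theorem TotRec.turing {Z B : ℕ → Bool} (h : TotRec Z (fun n => if B n then 1 else 0)) :
    TuringReducible (chi B) (chi Z) :=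
  RecursiveIn.iff_nat.2 h

theorem coh_append {D : ℕ → ℕ → Bool} {j s : ℕ} {σ : List Bool} (hc : Coh D j s σ) :
    Coh D j s (σ ++ [D (col σ.length) (idx σ.length)]) := by
  intro p h1 h2 h3
  rcases Nat.lt_or_ge p σ.length with hp | hp
  · rw [List.getD_append _ _ _ _ hp]
    exact hc p h1 hp h3
  · have hp' : p = σ.length := by simp at h2; omega
    subst hp'
    simp

theorem coh_trans {D : ℕ → ℕ → Bool} {j s t : ℕ} {σ τ : List Bool} (hst : σ <+: τ)
    (ht : t = σ.length) (h1 : Coh D j s σ) (h2 : Coh D j t τ) : Coh D j s τ := by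
  intro p hp1 hp2 hp3
  rcases Nat.lt_or_ge p σ.length with hp | hp
  · obtain ⟨u, rfl⟩ := hst
    rw [List.getD_append _ _ _ _ hp]
    exact h1 p hp1 hp hp3
  · exact h2 p (ht ▸ hp) hp2 hp3

theorem coh_prefix {D : ℕ → ℕ → Bool} {j s : ℕ} {σ τ : List Bool} (hst : σ <+: τ)
    (h1 : Coh D j s τ) : Coh D j s σ := by
  intro p hp1 hp2 hp3
  obtain ⟨u, rfl⟩ := hst
  have := h1 p hp1 (by simp; omega) hp3
  rwa [List.getD_append _ _ _ _ hp2] at this

section

variable {A : ℕ → List Bool → Bool} {P : ℕ → Bool} {D : ℕ → ℕ → Bool}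
  (hA : ∀ m σ τ, σ <+: τ → A m σ = true → A m τ = true)
  (hAc : Computable₂ A) (hD : Fam A P D)

include hD in
/-- A member of a coding tree computes the parameter. -/
theorem par_le {Z : ℕ → Bool} {s : ℕ}
    (hZ : ∀ p, s ≤ p → col p < 1 → Z p = D (col p) (idx p)) :
    TuringReducible (chi P) (chi Z) := by
  have hm2 : Computable (fun n : ℕ => 2 * n) :=
    Primrec.nat_mul.to_comp.comp (Computable.const 2) Computable.id
  refine turingReducible_of_computable (F := fun n σ => σ.getD (pos 0 (2 * n) s) false)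
    (g := fun n => pos 0 (2 * n) s + 1) ?_ ?_ fun n => ?_
  · exact comp_getD Computable.snd (comp_pos (Computable.const 0) (hm2.comp Computable.fst)
      (Computable.const s))
  · exact Computable.succ.comp (comp_pos (Computable.const 0) hm2 (Computable.const s))
  · rw [pre_getD _ (Nat.lt_succ_self _), hZ _ (le_pos _ _ _) (by simp)]
    simp [hD.par]

include hA hAc hD in
/-- If every number is decided along `Z`, then `Z` computes the set enumerated from it. -/
theorem wa_le {Z : ℕ → Bool} {j s : ℕ}
    (hZ : ∀ p, s ≤ p → col p < j + 1 → Z p = D (col p) (idx p))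
    (hdec : ∀ m, ∃ t, s ≤ t ∧ (A m (pre Z t) = true ∨ ¬ Qr A D j (pre Z t) m)) :
    TuringReducible (chi (WA A Z)) (chi Z) := by
  -- the oracle answer to the question whether `pre Z t` has an extension
  have hq : ∀ m t, Z (pos j (2 * encode (pre Z t, m) + 1) s) = true ↔ Qr A D j (pre Z t) m := by
    intro m t
    rw [hZ _ (le_pos _ _ _) (by simp), ← hD.qry j (pre Z t) m]
    simp
  have hpr : TotRec Z (fun x => encode (pre Z x.unpair.2)) :=
    (TotRec.pre Z).comp (TotRec.of_computable (Computable.snd.comp Computable.unpair))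
  -- position of the question
  have hpos : TotRec Z (fun x => (fun (x i : ℕ) =>
      pos j (2 * encode (((decode (α := List Bool) i).getD []), x.unpair.1) + 1) s) x
        (encode (pre Z x.unpair.2))) := by
    refine TotRec.comp_computable₂ (f := fun (x i : ℕ) =>
      pos j (2 * encode (((decode (α := List Bool) i).getD []), x.unpair.1) + 1) s)
      (g := fun x => x) ?_ (TotRec.ident Z) hpr
    refine comp_pos (Computable.const j) (Computable.succ.comp (Primrec.nat_mul.to_comp.comp
      (Computable.const 2) (Computable.encode.comp (Computable.pair ?_ ?_)))) (Computable.const s)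
    · exact Computable.option_getD (Computable.decode.comp Computable.snd) (Computable.const [])
    · exact Computable.fst.comp (Computable.unpair.comp Computable.fst)
  have hans : TotRec Z (fun x => if Z (pos j (2 * encode (pre Z x.unpair.2, x.unpair.1) + 1) s)
      then 1 else 0) := by
    have := (TotRec.oracle Z).comp hpos
    refine (this : Nat.RecursiveIn _ _).of_eq fun x => ?_
    simp [encodek]
  have hh : TotRec Z (fun x => (fun (x y : ℕ) =>
      if decide (s ≤ x.unpair.2) && (A x.unpair.1 ((decode (α := List Bool) y.unpair.1).getD []) ||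
        decide (y.unpair.2 = 0)) then 0 else 1) x (Nat.pair (encode (pre Z x.unpair.2))
        (if Z (pos j (2 * encode (pre Z x.unpair.2, x.unpair.1) + 1) s) then 1 else 0))) := by
    refine TotRec.comp_computable₂ (f := fun (x y : ℕ) =>
      if decide (s ≤ x.unpair.2) && (A x.unpair.1 ((decode (α := List Bool) y.unpair.1).getD []) ||
        decide (y.unpair.2 = 0)) then 0 else 1) (g := fun x => x) ?_ (TotRec.ident Z)
        (hpr.pair hans)
    refine comp_ite (c := fun z : ℕ × ℕ => decide (s ≤ z.1.unpair.2) &&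
      (A z.1.unpair.1 ((decode (α := List Bool) z.2.unpair.1).getD []) ||
        decide (z.2.unpair.2 = 0))) ?_ (Computable.const 0) (Computable.const 1)
    refine comp_and (comp_decLe (Computable.const s) (Computable.snd.comp
      (Computable.unpair.comp Computable.fst))) (comp_or (hAc.comp ?_ ?_) (comp_decEq ?_ ?_))
    · exact Computable.fst.comp (Computable.unpair.comp Computable.fst)
    · exact Computable.option_getD (Computable.decode.comp (Computable.fst.comp
        (Computable.unpair.comp Computable.snd))) (Computable.const [])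
    · exact Computable.snd.comp (Computable.unpair.comp Computable.snd)
    · exact Computable.const 0
  obtain ⟨g, hg, hg0⟩ := TotRec.find hh (by
    intro m
    obtain ⟨t, hst, ht⟩ := hdec m
    refine ⟨t, ?_⟩
    simp only [Nat.unpair_pair, encodek, Option.getD_some]
    rw [if_pos]
    rw [Bool.and_eq_true, Bool.or_eq_true, decide_eq_true_eq, decide_eq_true_eq]
    refine ⟨hst, ?_⟩
    rcases ht with ht | ht
    · exact Or.inl ht
    · right
      rw [← hq m t] at ht
      rw [if_neg ht])
  have hval : TotRec Z (fun m => (fun (m y : ℕ) =>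
      if A m ((decode (α := List Bool) y).getD []) then 1 else 0) m (encode (pre Z (g m)))) := by
    refine TotRec.comp_computable₂ (f := fun (m y : ℕ) =>
      if A m ((decode (α := List Bool) y).getD []) then 1 else 0) (g := fun x => x) ?_
      (TotRec.ident Z) ((TotRec.pre Z).comp hg)
    refine comp_ite (c := fun z : ℕ × ℕ => A z.1 ((decode (α := List Bool) z.2).getD [])) ?_
      (Computable.const 1) (Computable.const 0)
    exact hAc.comp Computable.fst (Computable.option_getD (Computable.decode.comp Computable.snd)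
      (Computable.const []))
  refine TotRec.turing ((hval : Nat.RecursiveIn _ _).of_eq fun m => ?_)
  have h0 := hg0 m
  simp only [Nat.unpair_pair, encodek, Option.getD_some] at h0 ⊢
  rw [Part.some_inj]
  by_cases hAm : A m (pre Z (g m)) = true
  · rw [if_pos hAm, if_pos (WA_iff.2 ⟨_, hAm⟩)]
  · rw [if_neg hAm, if_neg]
    intro hW
    obtain ⟨t', ht'⟩ := WA_iff.1 hW
    have h1 : s ≤ g m ∧ ¬ Qr A D j (pre Z (g m)) m := by
      by_contra hcon
      rw [if_neg] at h0
      · exact absurd h0 one_ne_zero
      · rw [Bool.and_eq_true, Bool.or_eq_true, decide_eq_true_eq, decide_eq_true_eq]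
        rintro ⟨h2, h3 | h3⟩
        · exact hAm h3
        · apply hcon
          refine ⟨h2, ?_⟩
          rw [← hq m (g m)]
          intro h4
          rw [h4] at h3
          simp at h3
    refine h1.2 ⟨pre Z (max (g m) t'), pre_mono Z (le_max_left _ _), ?_, ?_⟩
    · intro p hp1 hp2 hp3
      rw [pre_length] at hp1 hp2
      rw [pre_getD Z hp2]
      exact hZ p (h1.1.trans hp1) (hp3.trans (Nat.lt_succ_self j))
    · exact hA m _ _ (pre_mono Z (le_max_right _ _)) ht'

include hA hAc hD in
theorem exists_good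
    (H : ∀ Z : ℕ → Bool, TuringReducible (chi P) (chi Z) →
      ¬ TuringReducible (chi (WA A Z)) (chi Z)) (j : ℕ) (σ' : List Bool) :
    ∃ σ m, σ' <+: σ ∧ Coh D (j + 1) σ'.length σ ∧ Good A D j σ m := by
  by_contra hcon
  have h1 : ∀ m σ, (σ' <+: σ ∧ Coh D (j + 1) σ'.length σ) →
      ∃ ρ, (σ' <+: ρ ∧ Coh D (j + 1) σ'.length ρ) ∧ σ <+: ρ ∧
        (A m ρ = true ∨ ¬ Qr A D j ρ m) := by
    intro m σ ⟨hσ1, hσ2⟩
    have h2 : ¬ Good A D j σ m := fun hG => hcon ⟨σ, m, hσ1, hσ2, hG⟩
    simp only [Good, not_forall] at h2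
    obtain ⟨ρ, hρ1, hρ2, hρ3⟩ := h2
    refine ⟨ρ, ⟨hσ1.trans hρ1, coh_trans hρ1 rfl hσ2 hρ2⟩, hρ1, ?_⟩
    by_cases hq : Qr A D j ρ m
    · left
      by_contra hAm
      exact hρ3 ⟨by simpa using hAm, hq⟩
    · exact Or.inr hq
  choose! f hf1 hf2 hf3 using h1
  -- the chain
  let ch : ℕ → List Bool := fun n => Nat.rec σ' (fun k ρ =>
    f k ρ ++ [D (col (f k ρ).length) (idx (f k ρ).length)]) n
  have hch : ∀ k, σ' <+: ch k ∧ Coh D (j + 1) σ'.length (ch k) := by
    intro k
    induction k with
    | zero =>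
      refine ⟨List.prefix_refl _, fun p hp1 hp2 _ => absurd hp2 (not_lt.2 hp1)⟩
    | succ k ih =>
      obtain ⟨h3, h4⟩ := hf1 k (ch k) ih
      exact ⟨h3.trans (List.prefix_append _ _), coh_append h4⟩
  have hstep : ∀ k, f k (ch k) <+: ch (k + 1) := fun k => List.prefix_append _ _
  obtain ⟨Z, hZ⟩ := exists_limit ch (fun k => (hf2 k _ (hch k)).trans (hstep k)) (by
    intro k
    induction k with
    | zero => exact Nat.zero_le _
    | succ k ih =>
      have h5 := (hf2 k _ (hch k)).length_le
      have h6 : (ch (k + 1)).length = (f k (ch k)).length + 1 := by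
        show (f k (ch k) ++ [_]).length = _
        simp
      omega)
  have hlen : ∀ k, k ≤ (ch k).length := by
    intro k
    induction k with
    | zero => exact Nat.zero_le _
    | succ k ih =>
      have h5 := (hf2 k _ (hch k)).length_le
      have h6 : (ch (k + 1)).length = (f k (ch k)).length + 1 := by
        show (f k (ch k) ++ [_]).length = _
        simp
      omega
  have hZc : ∀ p, σ'.length ≤ p → col p < j + 1 → Z p = D (col p) (idx p) := by
    intro p hp1 hp2
    have h5 : p < (ch (p + 1)).length := hlen (p + 1)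
    have h6 := (hch (p + 1)).2 p hp1 h5 hp2
    rw [← hZ (p + 1), pre_getD Z h5] at h6
    exact h6
  refine H Z (par_le hD (s := σ'.length) fun p hp1 hp2 => hZc p hp1 (by omega))
    (wa_le hA hAc hD hZc fun m => ?_)
  have h7 : pre Z (f m (ch m)).length = f m (ch m) := by
    have h8 := hstep m
    rw [← hZ (m + 1), prefix_pre_iff] at h8
    exact h8.2.symm
  refine ⟨(f m (ch m)).length, (hf1 m _ (hch m)).1.length_le, ?_⟩
  rw [h7]
  exact hf3 m _ (hch m)

end

end Pool.Agent.H19
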