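import Mathlib
import Pool.Agent.H19.Tree

/-!
A cardinality lemma for sets enumerable relative to an oracle.
-/

set_option autoImplicit false

namespace Pool.Agent.H19

open Encodable

/-- The list coded by a number. -/
def dl (x : ℕ) : List ℕ := ((decode (α := List ℕ) x).getD [])

theorem dl_encode (l : List ℕ) : dl (encode l) = l := by simp [dl]

theorem comp_dl {α : Type*} [Primcodable α] {f : α → ℕ} (hf : Computable f) :
    Computable fun a => dl (f a) :=
  Computable.option_getD (Computable.decode.comp hf) (Computable.const [])

theorem comp_mem {α : Type*} [Primcodable α] {f : α → ℕ} {g : α → List ℕ} (hf : Computable f)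
    (hg : Computable g) : Computable fun a => decide (f a ∈ g a) := by
  refine (comp_list_any (g := fun a y => decide (y = f a)) hg
    (comp_decEq Computable.snd (hf.comp Computable.fst))).of_eq fun a => ?_
  rw [Bool.eq_iff_iff, List.any_eq_true, decide_eq_true_eq]
  constructor
  · rintro ⟨x, hx, hxa⟩
    rw [decide_eq_true_eq] at hxa
    exact hxa ▸ hx
  · intro h
    exact ⟨f a, h, by simp⟩

/-- `n` is enumerated by `en`. -/
def InA (en : ℕ → ℕ) (n : ℕ) : Prop := ∃ t, n ∈ dl (en t)

open Classical in
/-- The number of members of `l` in the enumerated set. -/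
noncomputable def cntA (en : ℕ → ℕ) (l : List ℕ) : ℕ := (l.filter fun n => decide (InA en n)).length

theorem cntA_cons_of_mem {en : ℕ → ℕ} {n : ℕ} {l : List ℕ} (h : InA en n) :
    cntA en (n :: l) = cntA en l + 1 := by
  simp [cntA, h]

theorem cntA_pos {en : ℕ → ℕ} {n : ℕ} {l : List ℕ} (hl : n ∈ l) (h : InA en n) :
    0 < cntA en l := by
  rw [cntA, List.length_pos_iff_exists_mem]
  exact ⟨n, List.mem_filter.2 ⟨hl, by simpa using h⟩⟩

theorem cntA_le {en : ℕ → ℕ} {l : List ℕ} : cntA en l ≤ l.length :=
  List.length_filter_le _ _

/-- Relativised cardinality lemma: if among the `r + 1` possible values for the number of members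
of an `r`-tuple in an enumerable set one can always enumerate some, but not all, among them the
right one, then the set is computable. -/
theorem card_lemma {Z : ℕ → Bool} {en : ℕ → ℕ} (hen : TotRec Z en)
    (hmono : ∀ n t t', t ≤ t' → n ∈ dl (en t) → n ∈ dl (en t')) :
    ∀ r, ∀ e : ℕ → ℕ, TotRec Z e →
      (∀ l : List ℕ, l.length = r →
        (∃ t, e (Nat.pair (encode l) (Nat.pair (cntA en l) t)) = 0) ∧
        ∃ c ≤ r, ∀ t, e (Nat.pair (encode l) (Nat.pair c t)) ≠ 0) →
      ∃ d, TotRec Z d ∧ ∀ n, d n = 0 ↔ InA en n := by
  intro r
  induction r with
  | zero =>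
    intro e _ h
    exfalso
    obtain ⟨⟨t, ht⟩, c, hc, hc'⟩ := h [] rfl
    have hc0 : c = 0 := Nat.le_zero.1 hc
    subst hc0
    exact hc' t ht
  | succ r ih =>
    intro e he h
    -- the first stage at which something happens
    have hh1 : TotRec Z (fun p => (fun (p y : ℕ) =>
        if decide (y.unpair.1 = 0) || (dl p.unpair.1).any (fun n => decide (n ∈ dl y.unpair.2)) ||
          decide ((dl p.unpair.1).length ≠ r + 1)
        then 0 else 1) p (Nat.pair (e (Nat.pair p.unpair.1 (Nat.pair 0 p.unpair.2)))
          (en p.unpair.2))) := by
      have h1 : Computable (fun p : ℕ => p.unpair.1) := Computable.fst.comp Computable.unpair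
      have h2 : Computable (fun p : ℕ => p.unpair.2) := Computable.snd.comp Computable.unpair
      refine TotRec.comp_computable₂ (f := fun (p y : ℕ) =>
        if decide (y.unpair.1 = 0) || (dl p.unpair.1).any (fun n => decide (n ∈ dl y.unpair.2)) ||
          decide ((dl p.unpair.1).length ≠ r + 1)
        then 0 else 1) (g := fun x => x) ?_ (TotRec.ident Z)
        ((he.comp (TotRec.of_computable (comp_natpair h1 (comp_natpair (Computable.const 0)
          h2)))).pair (hen.comp (TotRec.of_computable h2)))
      refine comp_ite (c := fun z : ℕ × ℕ => decide (z.2.unpair.1 = 0) ||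
        (dl z.1.unpair.1).any (fun n => decide (n ∈ dl z.2.unpair.2)) ||
          decide ((dl z.1.unpair.1).length ≠ r + 1)) ?_ (Computable.const 0)
          (Computable.const 1)
      refine comp_or (comp_or (comp_decEq (h1.comp Computable.snd) (Computable.const 0)) ?_) ?_
      · exact comp_list_any (g := fun (z : ℕ × ℕ) n => decide (n ∈ dl z.2.unpair.2))
          (comp_dl (h1.comp Computable.fst)) (comp_mem Computable.snd
            (comp_dl (h2.comp (Computable.snd.comp Computable.fst))))
      · refine (comp_not (comp_decEq (Computable.list_length.comp (comp_dl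
          (h1.comp Computable.fst))) (Computable.const (r + 1)))).of_eq fun z => ?_
        simp
    obtain ⟨T, hT, hT0⟩ := TotRec.find hh1 (by
      intro x
      simp only [Nat.unpair_pair]
      by_cases hl : (dl x).length = r + 1
      · by_cases hx : ∃ n ∈ dl x, InA en n
        · obtain ⟨n, hn, t, ht⟩ := hx
          refine ⟨t, ?_⟩
          rw [if_pos]
          rw [Bool.or_eq_true, Bool.or_eq_true, List.any_eq_true]
          exact Or.inl (Or.inr ⟨n, hn, by simpa using ht⟩)
        · have h3 : cntA en (dl x) = 0 := by
            rw [cntA, List.length_eq_zero_iff, List.filter_eq_nil_iff]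
            intro n hn
            simpa using fun hA => hx ⟨n, hn, hA⟩
          obtain ⟨t, ht⟩ := (h (dl x) hl).1
          rw [h3] at ht
          refine ⟨t, ?_⟩
          have hdx : encode (dl x) = x := by
            have hnil : dl x ≠ [] := by
              intro h0; rw [h0] at hl; simp at hl
            unfold dl at hnil ⊢
            cases hd : (decode (α := List ℕ) x) with
            | none => rw [hd] at hnil; simp at hnil
            | some l =>
              simp only [Option.getD_some]
              rw [Denumerable.decode_eq_ofNat] at hd
              simp only [Option.some.injEq] at hd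
              rw [← hd, Denumerable.encode_ofNat]
          rw [hdx] at ht
          rw [if_pos]
          rw [Bool.or_eq_true, Bool.or_eq_true]
          exact Or.inl (Or.inl (by simpa using ht))
      · refine ⟨0, ?_⟩
        rw [if_pos]
        rw [Bool.or_eq_true]
        exact Or.inr (by simpa using hl))
    have hcons : Computable₂ (fun (n x : ℕ) => encode (n :: dl x)) :=
      Computable.encode.comp (Computable.list_cons.comp Computable.fst (comp_dl Computable.snd))
    by_cases hcase : ∃ l' : List ℕ, l'.length = r ∧
        ∀ n, InA en n → n ∈ dl (en (T (encode (n :: l'))))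
    · -- first case
      obtain ⟨l', _, hl'⟩ := hcase
      refine ⟨fun n => if decide (n ∈ dl (en (T (encode (n :: l'))))) then 0 else 1, ?_, ?_⟩
      · refine TotRec.comp_computable₂ (f := fun (n y : ℕ) =>
          if decide (n ∈ dl y) then 0 else 1) (g := fun x => x)
          (h := fun n => en (T (encode (n :: l')))) ?_ (TotRec.ident Z) ?_
        · exact comp_ite (c := fun z : ℕ × ℕ => decide (z.1 ∈ dl z.2))
            (comp_mem Computable.fst (comp_dl Computable.snd)) (Computable.const 0)
            (Computable.const 1)
        · exact hen.comp (hT.comp (TotRec.of_computable (Computable.encode.comp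
            (Computable.list_cons.comp Computable.id (Computable.const l')))))
      · intro n
        dsimp only
        constructor
        · intro hn
          by_contra hA
          rw [if_neg] at hn
          · exact one_ne_zero hn
          · intro hmem
            exact hA ⟨_, by simpa using hmem⟩
        · intro hA
          rw [if_pos (by simpa using hl' n hA)]
    · -- second case
      have hc2 : ∀ l' : List ℕ, l'.length = r →
          ∃ n, InA en n ∧ n ∉ dl (en (T (encode (n :: l')))) := by
        intro l' hl'
        by_contra hcon
        refine hcase ⟨l', hl', fun n hn => ?_⟩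
        by_contra hn'
        exact hcon ⟨n, hn, hn'⟩
      have h1 : Computable (fun p : ℕ => p.unpair.1) := Computable.fst.comp Computable.unpair
      have h2 : Computable (fun p : ℕ => p.unpair.2) := Computable.snd.comp Computable.unpair
      -- search for a pair `(n, t)` with `n` enumerated at stage `t` but not by the stage `T`
      have hx : Computable (fun p : ℕ => encode (p.unpair.2.unpair.1 :: dl p.unpair.1)) :=
        hcons.comp (h1.comp h2) h1
      have hh2 : TotRec Z (fun p => (fun (p y : ℕ) =>
          if (decide (p.unpair.2.unpair.1 ∈ dl y.unpair.1) &&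
            !(decide (p.unpair.2.unpair.1 ∈ dl y.unpair.2))) ||
              decide ((dl p.unpair.1).length ≠ r) then 0 else 1) p
          (Nat.pair (en p.unpair.2.unpair.2)
            (en (T (encode (p.unpair.2.unpair.1 :: dl p.unpair.1)))))) := by
        refine TotRec.comp_computable₂ (f := fun (p y : ℕ) =>
          if (decide (p.unpair.2.unpair.1 ∈ dl y.unpair.1) &&
            !(decide (p.unpair.2.unpair.1 ∈ dl y.unpair.2))) ||
              decide ((dl p.unpair.1).length ≠ r) then 0 else 1) (g := fun x => x) ?_
          (TotRec.ident Z) ((hen.comp (TotRec.of_computable (h2.comp h2))).pair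
            (hen.comp (hT.comp (TotRec.of_computable hx))))
        refine comp_ite (c := fun z : ℕ × ℕ => (decide (z.1.unpair.2.unpair.1 ∈ dl z.2.unpair.1) &&
            !(decide (z.1.unpair.2.unpair.1 ∈ dl z.2.unpair.2))) ||
              decide ((dl z.1.unpair.1).length ≠ r)) ?_ (Computable.const 0) (Computable.const 1)
        have h3 : Computable (fun z : ℕ × ℕ => z.1.unpair.2.unpair.1) :=
          (h1.comp h2).comp Computable.fst
        refine comp_or (comp_and (comp_mem h3 (comp_dl (h1.comp Computable.snd)))
          (comp_not (comp_mem h3 (comp_dl (h2.comp Computable.snd))))) ?_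
        refine (comp_not (comp_decEq (Computable.list_length.comp (comp_dl
          (h1.comp Computable.fst))) (Computable.const r))).of_eq fun z => ?_
        simp
      obtain ⟨g, hg, hg0⟩ := TotRec.find hh2 (by
        intro x
        by_cases hl : (dl x).length = r
        · obtain ⟨n, ⟨t, ht⟩, hn⟩ := hc2 (dl x) hl
          refine ⟨Nat.pair n t, ?_⟩
          simp only [Nat.unpair_pair]
          rw [if_pos]
          rw [Bool.or_eq_true, Bool.and_eq_true]
          exact Or.inl ⟨by simpa using ht, by simpa using hn⟩
        · refine ⟨0, ?_⟩
          simp only [Nat.unpair_pair]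
          rw [if_pos]
          rw [Bool.or_eq_true]
          exact Or.inr (by simpa using hl))
      -- the element found
      let n₁ : ℕ → ℕ := fun x => (g x).unpair.1
      have hn₁ : TotRec Z n₁ := (TotRec.of_computable h1).comp hg
      have hx₁ : TotRec Z (fun x => encode (n₁ x :: dl x)) :=
        TotRec.comp_computable₂ hcons hn₁ (TotRec.ident Z)
      -- the new enumeration
      refine ih (fun z => (fun (z y : ℕ) =>
        if (dl z.unpair.1).any (fun n => decide (n ∈ dl y.unpair.1)) &&
          decide (z.unpair.2.unpair.1 = 0) then 1 else y.unpair.2) z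
        (Nat.pair (en (T (encode (n₁ z.unpair.1 :: dl z.unpair.1))))
          (e (Nat.pair (encode (n₁ z.unpair.1 :: dl z.unpair.1))
            (Nat.pair (z.unpair.2.unpair.1 + 1) z.unpair.2.unpair.2))))) ?_ ?_
      · have hxz : TotRec Z (fun z => encode (n₁ z.unpair.1 :: dl z.unpair.1)) :=
          hx₁.comp (TotRec.of_computable h1)
        refine TotRec.comp_computable₂ (f := fun (z y : ℕ) =>
          if (dl z.unpair.1).any (fun n => decide (n ∈ dl y.unpair.1)) &&
            decide (z.unpair.2.unpair.1 = 0) then 1 else y.unpair.2) (g := fun x => x) ?_
          (TotRec.ident Z) ((hen.comp (hT.comp hxz)).pair (he.comp (hxz.pair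
            (TotRec.of_computable (comp_natpair (Computable.succ.comp (h1.comp h2))
              (h2.comp h2))))))
        refine comp_ite (c := fun x : ℕ × ℕ => (dl x.1.unpair.1).any
          (fun n => decide (n ∈ dl x.2.unpair.1)) && decide (x.1.unpair.2.unpair.1 = 0))
          (comp_and ?_ ?_) (Computable.const 1) (h2.comp Computable.snd)
        · exact comp_list_any (g := fun (x : ℕ × ℕ) n => decide (n ∈ dl x.2.unpair.1))
            (comp_dl (h1.comp Computable.fst)) (comp_mem Computable.snd
              (comp_dl (h1.comp (Computable.snd.comp Computable.fst))))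
        · exact comp_decEq ((h1.comp h2).comp Computable.fst) (Computable.const 0)
      · intro l' hl'
        have hgl := hg0 (encode l')
        simp only [Nat.unpair_pair, dl_encode] at hgl
        have hgl' : n₁ (encode l') ∈ dl (en (g (encode l')).unpair.2) ∧
            n₁ (encode l') ∉ dl (en (T (encode (n₁ (encode l') :: l')))) := by
          by_contra hcon
          rw [if_neg] at hgl
          · exact one_ne_zero hgl
          · rw [Bool.or_eq_true, Bool.and_eq_true]
            rintro (⟨h3, h4⟩ | h3)
            · exact hcon ⟨by simpa using h3, by simpa using h4⟩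
            · simp [hl'] at h3
        simp only [Nat.unpair_pair, dl_encode]
        set n := n₁ (encode l') with hn
        have hnA : InA en n := ⟨_, hgl'.1⟩
        obtain ⟨⟨t, ht⟩, c, hc, hc'⟩ := h (n :: l') (by simp [hl'])
        rw [cntA_cons_of_mem hnA] at ht
        by_cases hB : ∃ n' ∈ l', n' ∈ dl (en (T (encode (n :: l'))))
        · obtain ⟨n', hn'1, hn'2⟩ := hB
          have hB' : l'.any (fun n' => decide (n' ∈ dl (en (T (encode (n :: l')))))) = true :=
            List.any_eq_true.2 ⟨n', hn'1, by simpa using hn'2⟩
          refine ⟨⟨t, ?_⟩, 0, Nat.zero_le _, fun t => ?_⟩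
          · have hpos := cntA_pos hn'1 (en := en) ⟨_, hn'2⟩
            have : decide (cntA en l' = 0) = false := by simp; omega
            rw [hB', this]
            simpa using ht
          · rw [hB']
            simp
        · have hB' : l'.any (fun n' => decide (n' ∈ dl (en (T (encode (n :: l')))))) = false := by
            rw [List.any_eq_false]
            intro n' hn' hmem
            exact hB ⟨n', hn', by simpa using hmem⟩
          rw [hB']
          simp only [Bool.false_and, Bool.false_eq_true, if_false]
          refine ⟨⟨t, ht⟩, ?_⟩
          have hTl := hT0 (encode (n :: l'))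
          simp only [Nat.unpair_pair, dl_encode] at hTl
          have h5 : e (Nat.pair (encode (n :: l'))
              (Nat.pair 0 (T (encode (n :: l'))))) = 0 := by
            by_contra hne
            rw [if_neg] at hTl
            · exact one_ne_zero hTl
            · rw [Bool.or_eq_true, Bool.or_eq_true, List.any_cons, hB']
              rintro ((h3 | h3) | h3)
              · exact hne (by simpa using h3)
              · rw [Bool.or_false] at h3
                exact hgl'.2 (by simpa using h3)
              · simp [hl'] at h3
          have hc0 : c ≠ 0 := by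
            rintro rfl
            exact hc' _ h5
          obtain ⟨c, rfl⟩ := Nat.exists_eq_succ_of_ne_zero hc0
          exact ⟨c, Nat.succ_le_succ_iff.1 hc, fun t => hc' t⟩

end Pool.Agent.H19
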