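import Mathlib
import Pool.Agent.H19.Tree

/-!
A real with arbitrarily long nested sequences of switches.
-/

set_option autoImplicit false

namespace Pool.Agent.H19

open Encodable Nat.Partrec

/-- `σ` agrees with `X` on the first `j` columns from the position `s` on. -/
def Agr (X : ℕ → Bool) (j s : ℕ) (σ : List Bool) : Prop :=
  ∀ p, s ≤ p → p < σ.length → col p < j → σ.getD p false = X p

/-- The numbers `m 0, …, m (r - 1)` are nested switches above `pre X s₀`. -/
structure Sw (A : ℕ → List Bool → Bool) (X : ℕ → Bool) (r s₀ : ℕ) (m : ℕ → ℕ) : Prop where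
  red : ∀ j < r, ∀ x t t', s₀ ≤ t → s₀ ≤ t' → X (pos j x t) = X (pos j x t')
  sw : ∀ j < r, ∀ ρ, pre X s₀ <+: ρ → Agr X (j + 1) s₀ ρ →
    (∀ i ≤ j, A (m i) ρ = false) ∧ ∃ τ, ρ <+: τ ∧ Agr X j ρ.length τ ∧ A (m j) τ = true

theorem getD_of_prefix {σ τ : List Bool} (h : σ <+: τ) {p : ℕ} (hp : p < σ.length) :
    τ.getD p false = σ.getD p false := by
  obtain ⟨u, rfl⟩ := h
  rw [List.getD_append _ _ _ _ hp]

theorem exists_stems {A : ℕ → List Bool → Bool} {P : ℕ → Bool}
    (hA : ∀ m σ τ, σ <+: τ → A m σ = true → A m τ = true) (hAc : Computable₂ A)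
    (H : ∀ Z : ℕ → Bool, TuringReducible (chi P) (chi Z) →
      ¬ TuringReducible (chi (WA A Z)) (chi Z)) :
    ∃ (X : ℕ → Bool) (s m : ℕ → ℕ), TuringReducible (chi P) (chi X) ∧
      ∀ r, Sw A X r (s r) m := by
  obtain ⟨D, hD⟩ := exists_fam A P
  have hg := exists_good hA hAc hD H
  choose G M hG1 hG2 hG3 using hg
  let ex : List Bool → List Bool := fun σ => σ ++ [D (col σ.length) (idx σ.length)]
  let st : ℕ → List Bool := fun n => Nat.rec [] (fun j σ => G j (ex σ)) n
  have hst : ∀ j, st (j + 1) = G j (ex (st j)) := fun j => rfl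
  have hex1 : ∀ σ, σ <+: ex σ := fun σ => List.prefix_append _ _
  have hexl : ∀ σ, (ex σ).length = σ.length + 1 := fun σ => by simp [ex]
  have hstep : ∀ j, st j <+: st (j + 1) := fun j => (hex1 _).trans (hG1 j _)
  have hlen : ∀ j, (st j).length + 1 ≤ (st (j + 1)).length := fun j => by
    rw [← hexl]; exact (hG1 j _).length_le
  have hlen' : ∀ j, j ≤ (st j).length := by
    intro j
    induction j with
    | zero => exact Nat.zero_le _
    | succ j ih => have := hlen j; omega
  have hlmono : ∀ {i j}, i ≤ j → (st i).length ≤ (st j).length := by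
    intro i j hij
    induction hij with
    | refl => exact le_rfl
    | step _ ih => exact ih.trans ((Nat.le_succ _).trans (hlen _))
  have hcoh1 : ∀ j, Coh D (j + 1) (st j).length (st (j + 1)) := by
    intro j
    refine coh_trans (t := (ex (st j)).length) (hG1 j _) rfl (coh_append ?_) (hG2 j _)
    intro p hp1 hp2 _
    exact absurd hp2 (not_lt.2 hp1)
  have hcoh2 : ∀ j k, j ≤ k → Coh D (j + 1) (st j).length (st (k + 1)) := by
    intro j k hjk
    induction hjk with
    | refl => exact hcoh1 j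
    | step hjk ih =>
      rename_i l
      refine coh_trans (hstep _) rfl ih ?_
      have hjl : j ≤ l := hjk
      exact coh_mono (by omega) le_rfl (hcoh1 (l + 1))
  obtain ⟨X, hX⟩ := exists_limit st hstep hlen'
  have hXc : ∀ j p, (st j).length ≤ p → col p < j + 1 → X p = D (col p) (idx p) := by
    intro j p hp1 hp2
    have h1 : p < (st (max j p + 1)).length := by
      have := hlen' (max j p + 1)
      have := le_max_right j p
      omega
    have h2 := hcoh2 j (max j p) (le_max_left _ _) p hp1 h1 hp2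
    rw [← hX (max j p + 1), pre_getD X h1] at h2
    exact h2
  refine ⟨X, fun r => (st r).length, fun j => M j (ex (st j)), ?_, fun r => ⟨?_, ?_⟩⟩
  · exact par_le hD (s := (st 0).length) fun p hp1 hp2 => hXc 0 p hp1 hp2
  · intro j hj x t t' ht ht'
    rw [hXc j _ ((hlmono hj.le).trans (ht.trans (le_pos _ _ _))) (by simp),
      hXc j _ ((hlmono hj.le).trans (ht'.trans (le_pos _ _ _))) (by simp)]
    simp
  · intro j hj ρ hρ1 hρ2
    rw [hX r] at hρ1
    have key : ∀ i ≤ j, Coh D (i + 1) (st (i + 1)).length ρ := by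
      intro i hi p hp1 hp2 hp3
      rcases Nat.lt_or_ge p (st r).length with hpr | hpr
      · rw [getD_of_prefix hρ1 hpr, ← hX r, pre_getD X hpr]
        exact hXc (i + 1) p hp1 (by omega)
      · rw [hρ2 p hpr hp2 (by omega)]
        exact hXc (i + 1) p hp1 (by omega)
    have hpre : ∀ i ≤ j, st (i + 1) <+: ρ := by
      intro i hi
      have hir : i + 1 ≤ r := by omega
      have : st (i + 1) <+: st r := by
        rw [← hX (i + 1), ← hX r]
        exact pre_mono X (hlmono hir)
      exact this.trans hρ1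
    refine ⟨fun i hi => (hG3 i (ex (st i)) ρ (hpre i hi) (key i hi)).1, ?_⟩
    obtain ⟨τ, hτ1, hτ2, hτ3⟩ := (hG3 j (ex (st j)) ρ (hpre j le_rfl) (key j le_rfl)).2
    refine ⟨τ, hτ1, fun p hp1 hp2 hp3 => ?_, hτ3⟩
    rw [hτ2 p hp1 hp2 hp3]
    exact (hXc j p ((hlmono hj.le).trans (hρ1.length_le.trans hp1)) (by omega)).symm

end Pool.Agent.H19
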