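import Mathlib
import Pool.Agent.H19.Stems

/-!
The transformation which turns on switches, and its inverse, on finite strings.
-/

set_option autoImplicit false

namespace Pool.Agent.H19

open Encodable

/-! ### Searches -/

theorem find_range_some {n a : ℕ} {p : ℕ → Bool} :
    ((List.range n).filter p).head? = some a ↔ a < n ∧ p a = true ∧ ∀ b < a, p b = false := by
  rw [List.head?_filter, List.find?_range_eq_some]
  simp only [List.mem_range, Bool.not_eq_true']
  tauto

theorem find_range_none {n : ℕ} {p : ℕ → Bool} :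
    ((List.range n).filter p).head? = none ↔ ∀ b < n, p b = false := by
  rw [List.head?_filter, List.find?_range_eq_none]
  simp

/-- All strings of length at most `n`, ordered by length. -/
def strsLe (n : ℕ) : List (List Bool) := (List.range (n + 1)).flatMap strs

theorem strsLe_succ (n : ℕ) : strsLe (n + 1) = strsLe n ++ strs (n + 1) := by
  rw [strsLe, List.range_succ, List.flatMap_append]
  simp [strsLe]

theorem mem_strs' {s : ℕ} {σ : List Bool} : σ ∈ strs s ↔ σ.length = s := by
  induction s generalizing σ with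
  | zero => simp [strs]
  | succ s ih =>
    simp only [strs, List.mem_flatMap, List.mem_cons, List.not_mem_nil, or_false]
    constructor
    · rintro ⟨τ, hτ, rfl | rfl⟩ <;> simp [ih.1 hτ]
    · intro hσ
      have hne : σ ≠ [] := by rintro rfl; simp at hσ
      refine ⟨σ.dropLast, ih.2 (by simp [hσ]), ?_⟩
      have hd := List.dropLast_append_getLast hne
      rcases hb : σ.getLast hne with _ | _
      · left; rw [hb] at hd; exact hd.symm
      · right; rw [hb] at hd; exact hd.symm

theorem mem_strsLe {n : ℕ} {σ : List Bool} : σ ∈ strsLe n ↔ σ.length ≤ n := by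
  simp only [strsLe, List.mem_flatMap, List.mem_range, mem_strs', Nat.lt_succ_iff]
  constructor
  · rintro ⟨a, ha, rfl⟩; exact ha
  · intro h; exact ⟨_, h, rfl⟩

/-- Searching the strings by length: the first string with the property `R`. -/
theorem find_strs {R : List Bool → Prop} (hR : ∃ τ, R τ) :
    ∃ τ₀, R τ₀ ∧ (∀ τ, R τ → τ₀.length ≤ τ.length) ∧
      ∀ (s : ℕ) (q : List Bool → Bool), (∀ τ : List Bool, τ.length ≤ s → (q τ = true ↔ R τ)) →
        ((strsLe s).filter q).head? = if τ₀.length ≤ s then some τ₀ else none := by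
  classical
  have hex : ∃ L, ∃ τ : List Bool, τ.length = L ∧ R τ := by
    obtain ⟨τ, hτ⟩ := hR; exact ⟨_, τ, rfl, hτ⟩
  have hmin : ∀ τ, R τ → Nat.find hex ≤ τ.length := fun τ hτ => Nat.find_min' hex ⟨τ, rfl, hτ⟩
  set L := Nat.find hex with hL
  obtain ⟨τ₁, hτ₁, hRτ₁⟩ : ∃ τ : List Bool, τ.length = L ∧ R τ := Nat.find_spec hex
  have hq0 : ((strs L).find? fun τ => decide (R τ)).isSome = true := by
    rw [List.find?_isSome]
    exact ⟨τ₁, mem_strs'.2 hτ₁, by simpa using hRτ₁⟩
  obtain ⟨τ₀, hτ₀⟩ := Option.isSome_iff_exists.1 hq0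
  have hRτ₀ : R τ₀ := by simpa using List.find?_some hτ₀
  have hlτ₀ : τ₀.length = L := mem_strs'.1 (List.mem_of_find?_eq_some hτ₀)
  refine ⟨τ₀, hRτ₀, fun τ hτ => hlτ₀ ▸ hmin τ hτ, fun s q hq => ?_⟩
  rw [List.head?_filter]
  have hcong : ∀ s', s' ≤ s →
      (strsLe s').find? q = (strsLe s').find? fun τ => decide (R τ) := by
    intro s' hs'
    have : ∀ l : List (List Bool), (∀ τ ∈ l, τ.length ≤ s) →
        l.find? q = l.find? fun τ => decide (R τ) := by
      intro l
      induction l with
      | nil => intro _; rfl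
      | cons a l ih =>
        intro hl
        rw [List.find?_cons, List.find?_cons, ih fun τ hτ => hl τ (List.mem_cons_of_mem _ hτ)]
        have h1 := hq a (hl a List.mem_cons_self)
        by_cases hRa : R a
        · simp [h1.2 hRa, hRa]
        · have : q a = false := by
            rw [← Bool.not_eq_true]; exact fun h => hRa (h1.1 h)
          simp [this, hRa]
    exact this _ fun τ hτ => (mem_strsLe.1 hτ).trans hs'
  rw [hcong s le_rfl, hlτ₀]
  have key : ∀ s', (strsLe s').find? (fun τ => decide (R τ)) =
      if L ≤ s' then some τ₀ else none := by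
    intro s'
    induction s' with
    | zero =>
      by_cases hL0 : L ≤ 0
      · rw [if_pos hL0]
        have hL0' : L = 0 := Nat.le_zero.1 hL0
        have : strsLe 0 = strs L := by rw [hL0']; simp [strsLe]
        rw [this]; exact hτ₀
      · rw [if_neg hL0, List.find?_eq_none]
        intro τ hτ
        have h1 := mem_strsLe.1 hτ
        have h2 : ¬ R τ := fun h => hL0 ((hmin τ h).trans h1)
        simpa using h2
    | succ s' ih =>
      rw [strsLe_succ, List.find?_append, ih]
      by_cases h1 : L ≤ s'
      · rw [if_pos h1, if_pos (h1.trans (Nat.le_succ _))]; rfl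
      · rw [if_neg h1]
        by_cases h2 : L ≤ s' + 1
        · have h3 : L = s' + 1 := by omega
          rw [if_pos h2, ← h3, hτ₀]; rfl
        · rw [if_neg h2]
          simp only [Option.none_or]
          rw [List.find?_eq_none]
          intro τ hτ
          have h4 := mem_strs'.1 hτ
          have h5 : ¬ R τ := fun h => h2 ((hmin τ h).trans h4.le)
          simpa using h5
  exact key s

/-! ### The transformation -/

/-- Agreement of `τ` with `x` on the first `j` columns from `s` on. -/
def agr (j s : ℕ) (τ x : List Bool) : Bool :=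
  (List.range τ.length).all fun p =>
    !(decide (s ≤ p) && decide (col p < j)) || decide (τ.getD p false = x.getD p false)

def srch (A : ℕ → List Bool → Bool) (mj j : ℕ) (ρ x : List Bool) : Option (List Bool) :=
  ((strsLe x.length).filter fun τ => isPre ρ τ && (A mj τ && agr j ρ.length τ x)).head?

def trig (cnt : List Bool → ℕ) (c g : ℕ) (x : List Bool) : Option ℕ :=
  ((List.range (x.length + 1)).filter fun l =>
    decide (g ≤ l) && decide (c + 1 ≤ cnt (x.take l))).head?

def gnew (j t : ℕ) : ℕ := pos j t (t + 1) + 1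

/-- The position `p` stores a bit. -/
def stor (j t p : ℕ) : Bool := decide (col p = j) && (decide (tim p = t) && decide (idx p < t))

def newE (j : ℕ) (τ x : List Bool) : List Bool :=
  (List.range x.length).map fun p =>
    if decide (p < τ.length) then τ.getD p false
    else if stor j τ.length p then x.getD (idx p) false else x.getD p false

def fnd (A : ℕ → List Bool → Bool) (mj l : ℕ) (y : List Bool) : Option ℕ :=
  ((List.range (y.length + 1)).filter fun t => decide (l ≤ t) && A mj (y.take t)).head?

def newD (j t : ℕ) (y : List Bool) : List Bool :=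
  (List.range y.length).map fun p =>
    if decide (p < t) then y.getD (pos j p t) false
    else if stor j t p then y.getD (pos j (idx p) (t + 1)) false else y.getD p false

/-- States: a string, a bound, and a Boolean telling whether the computation is finished. -/
abbrev Stt := List Bool × ℕ × Bool

def stepE (A : ℕ → List Bool → Bool) (m : ℕ → ℕ) (r : ℕ) (cnt : List Bool → ℕ) (x : List Bool)
    (c : ℕ) (st : Stt) : Stt :=
  if st.2.2 then st else
    (Option.casesOn (trig cnt c st.2.1 x) (st.1, st.2.1, true) fun l =>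
      (Option.casesOn (srch A (m (r - 1 - c)) (r - 1 - c) (st.1.take l) x)
        (st.1.take l, st.2.1, true) fun τ =>
          if decide (gnew (r - 1 - c) τ.length ≤ x.length) then
            (newE (r - 1 - c) τ x, gnew (r - 1 - c) τ.length, false)
          else (st.1.take l, st.2.1, true) : Stt) : Stt)

def stepD (A : ℕ → List Bool → Bool) (m : ℕ → ℕ) (r : ℕ) (cnt : List Bool → ℕ) (y : List Bool)
    (c : ℕ) (st : Stt) : Stt :=
  if st.2.2 then st else
    (Option.casesOn (trig cnt c st.2.1 st.1) (st.1, st.2.1, true) fun l =>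
      (Option.casesOn (fnd A (m (r - 1 - c)) l y)
        (st.1.take l, st.2.1, true) fun t =>
          if decide (gnew (r - 1 - c) t ≤ y.length) then
            (newD (r - 1 - c) t y, gnew (r - 1 - c) t, false)
          else (st.1.take l, st.2.1, true) : Stt) : Stt)

def runE (A : ℕ → List Bool → Bool) (m : ℕ → ℕ) (r : ℕ) (cnt : List Bool → ℕ) (s₀ : ℕ)
    (x : List Bool) (c : ℕ) : Stt :=
  Nat.rec (x, s₀, false) (fun c st => stepE A m r cnt x c st) c

def runD (A : ℕ → List Bool → Bool) (m : ℕ → ℕ) (r : ℕ) (cnt : List Bool → ℕ) (s₀ : ℕ)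
    (y : List Bool) (c : ℕ) : Stt :=
  Nat.rec (y, s₀, false) (fun c st => stepD A m r cnt y c st) c

/-- The real agreeing with `X` below `g` and with `Y` from `g` on. -/
def splice (X : ℕ → Bool) (g : ℕ) (Y : ℕ → Bool) : ℕ → Bool := fun p => if p < g then X p else Y p

/-- The state of the two transformations after `c` switches have been turned on. -/
structure StInv (A : ℕ → List Bool → Bool) (X : ℕ → Bool) (r s₀ : ℕ) (m : ℕ → ℕ)
    (cnt : List Bool → ℕ) (c : ℕ) (Y : ℕ → Bool) (g : ℕ) : Prop where
  hg : s₀ ≤ g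
  tail : ∀ p, g ≤ p → Y p = X p
  head : ∀ p < s₀, Y p = X p
  agr : ∀ p, s₀ ≤ p → col p < r - c → Y p = X p
  on : ∀ i, r - c ≤ i → i < r → A (m i) (pre Y g) = true
  enc1 : ∀ s, runE A m r cnt s₀ (pre X s) c = (pre Y s, g, false) ∨
    ((runE A m r cnt s₀ (pre X s) c).2.2 = true ∧
      (runE A m r cnt s₀ (pre X s) c).1 <+: pre Y g)
  enc2 : ∃ S, ∀ s ≥ S, runE A m r cnt s₀ (pre X s) c = (pre Y s, g, false)
  dec1 : ∀ Z, pre Z g = pre Y g → ∀ s,
    runD A m r cnt s₀ (pre Z s) c = (pre (splice X g Z) s, g, false) ∨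
    ((runD A m r cnt s₀ (pre Z s) c).2.2 = true ∧
      (runD A m r cnt s₀ (pre Z s) c).1 <+: pre X g)
  dec2 : ∃ S, ∀ Z, pre Z g = pre Y g → ∀ s ≥ S,
    runD A m r cnt s₀ (pre Z s) c = (pre (splice X g Z) s, g, false)

/-- `l` is the position where the `c + 1`-st switch is turned on. -/
def IsTrig (cnt : List Bool → ℕ) (c g : ℕ) (X : ℕ → Bool) (l : ℕ) : Prop :=
  g ≤ l ∧ c + 1 ≤ cnt (pre X l) ∧ ∀ b, g ≤ b → b < l → cnt (pre X b) < c + 1

theorem trig_eq {cnt : List Bool → ℕ} {c g l : ℕ} {X : ℕ → Bool} (h : IsTrig cnt c g X l) (s : ℕ) :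
    trig cnt c g (pre X s) = if l ≤ s then some l else none := by
  obtain ⟨h1, h2, h3⟩ := h
  by_cases hl : l ≤ s
  · rw [if_pos hl, trig, find_range_some, pre_length]
    refine ⟨by omega, ?_, fun b hb => ?_⟩
    · rw [pre_take X hl]; simp [h1, h2]
    · rw [pre_take X (by omega)]
      by_cases hgb : g ≤ b
      · have := h3 b hgb hb
        simp; omega
      · simp; omega
  · rw [if_neg hl, trig, find_range_none, pre_length]
    intro b hb
    rw [pre_take X (by omega)]
    by_cases hgb : g ≤ b
    · have := h3 b hgb (by omega)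
      simp; omega
    · simp; omega

theorem trig_none {cnt : List Bool → ℕ} {c g : ℕ} {X : ℕ → Bool}
    (h : ∀ l, g ≤ l → cnt (pre X l) < c + 1) (s : ℕ) : trig cnt c g (pre X s) = none := by
  rw [trig, find_range_none, pre_length]
  intro b hb
  rw [pre_take X (by omega)]
  by_cases hgb : g ≤ b
  · have := h b hgb
    simp; omega
  · simp; omega

theorem pre_congr {X Y : ℕ → Bool} {s : ℕ} (h : ∀ p < s, X p = Y p) : pre X s = pre Y s :=
  List.map_congr_left fun p hp => h p (List.mem_range.1 hp)

theorem pre_eq_iff {X Y : ℕ → Bool} {s : ℕ} : pre X s = pre Y s ↔ ∀ p < s, X p = Y p := by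
  constructor
  · intro h p hp
    rw [← pre_getD X hp false, h, pre_getD Y hp]
  · exact pre_congr

theorem pre_eq_of_le {X Y : ℕ → Bool} {s t : ℕ} (hst : s ≤ t) (h : pre X t = pre Y t) :
    pre X s = pre Y s := by
  rw [← pre_take X hst, ← pre_take Y hst, h]

theorem agr_iff {X : ℕ → Bool} {j l s : ℕ} {τ : List Bool} (hτ : τ.length ≤ s) :
    agr j l τ (pre X s) = true ↔ Agr X j l τ := by
  rw [agr, List.all_eq_true]
  simp only [List.mem_range, Bool.or_eq_true, Bool.not_eq_true', Bool.and_eq_false_iff,
    decide_eq_false_iff_not, decide_eq_true_eq, Agr]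
  constructor
  · intro h p h1 h2 h3
    rcases h p h2 with (h4 | h4) | h4
    · exact absurd h1 h4
    · exact absurd h3 h4
    · rw [h4, pre_getD X (lt_of_lt_of_le h2 hτ)]
  · intro h p hp
    by_cases h1 : l ≤ p
    · by_cases h3 : col p < j
      · right
        rw [h p h1 hp h3, pre_getD X (lt_of_lt_of_le hp hτ)]
      · exact Or.inl (Or.inr h3)
    · exact Or.inl (Or.inl h1)

end Pool.Agent.H19
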