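import Mathlib
import Pool.Agent.H19.Switch

/-!
Turning on one more switch.
-/

set_option autoImplicit false

namespace Pool.Agent.H19

open Encodable

theorem pos_lt_gnew {j t k : ℕ} (hk : k < t) : pos j k t < gnew j t := by
  have : pos j k t < pos j t (t + 1) := pos_lt_pos hk.le (Nat.lt_succ_self t)
  unfold gnew; omega

theorem pos_lt_gnew' {j t k : ℕ} (hk : k < t) : pos j k (t + 1) < gnew j t := by
  have : pos j k (t + 1) < pos j t (t + 1) := pos_lt_pos' hk le_rfl
  unfold gnew; omega

theorem lt_gnew {j t : ℕ} : t < gnew j t := by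
  have : t + 1 ≤ pos j t (t + 1) := le_pos _ _ _
  unfold gnew; omega

theorem stor_iff {j t p : ℕ} : stor j t p = true ↔ col p = j ∧ tim p = t ∧ idx p < t := by
  simp [stor]

theorem stor_lt {j t p : ℕ} (h : stor j t p = true) : p < gnew j t := by
  obtain ⟨h1, h2, h3⟩ := stor_iff.1 h
  rw [← pos_eq p, h1, h2]
  exact pos_lt_gnew h3

section

variable {A : ℕ → List Bool → Bool} {X : ℕ → Bool} {r s₀ : ℕ} {m : ℕ → ℕ}
  {cnt : List Bool → ℕ}
  (hA : ∀ m σ τ, σ <+: τ → A m σ = true → A m τ = true)

include hA in
theorem stInv_succ (hS : Sw A X r s₀ m) {c : ℕ} {Y : ℕ → Bool} {g l : ℕ} (hc : c < r)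
    (hI : StInv A X r s₀ m cnt c Y g) (hl : IsTrig cnt c g X l) :
    ∃ Y' g', StInv A X r s₀ m cnt (c + 1) Y' g' ∧ l ≤ g' := by
  classical
  set j := r - 1 - c with hj
  have hjr : j < r := by omega
  have hj1 : j + 1 = r - c := by omega
  have hgl : g ≤ l := hl.1
  have hs0l : s₀ ≤ l := hI.hg.trans hgl
  -- the string on which the switch is turned on
  have hρ0 : pre X s₀ <+: pre Y l := by
    have : pre X s₀ = pre Y s₀ := pre_congr fun p hp => (hI.head p hp).symm
    rw [this]; exact pre_mono Y hs0l
  have hρ1 : Agr X (j + 1) s₀ (pre Y l) := by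
    intro p hp1 hp2 hp3
    rw [pre_length] at hp2
    rw [pre_getD Y hp2]
    exact hI.agr p hp1 (hj1 ▸ hp3)
  obtain ⟨hoff, hex⟩ := hS.sw j hjr (pre Y l) hρ0 hρ1
  obtain ⟨τ, ⟨hτ1, hτ2, hτ3⟩, hτmin, hτfind⟩ := find_strs
    (R := fun τ => pre Y l <+: τ ∧ Agr X j (pre Y l).length τ ∧ A (m j) τ = true) hex
  set t := τ.length with ht
  rw [pre_length] at hτ2
  have hsrch : ∀ s, srch A (m j) j (pre Y l) (pre X s) = if t ≤ s then some τ else none := by
    intro s
    simp only [srch, pre_length]
    refine hτfind s _ fun τ' hτ' => ?_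
    rw [Bool.and_eq_true, Bool.and_eq_true, isPre_iff, agr_iff hτ', pre_length]
    tauto
  -- values of `τ` below `l`
  have hτY : ∀ p < l, τ.getD p false = Y p := by
    intro p hp
    rw [getD_of_prefix hτ1 (by rw [pre_length]; exact hp), pre_getD Y hp]
  have hlt : l < t := by
    have h1 : l ≤ t := by
      have := hτ1.length_le
      rwa [pre_length] at this
    rcases h1.lt_or_eq with h1 | h1
    · exact h1
    · exfalso
      have h2 : pre Y l = τ := by
        obtain ⟨u, hu⟩ := hτ1
        have h3 := congrArg List.length hu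
        rw [List.length_append, pre_length, ← ht] at h3
        have h4 : u = [] := List.length_eq_zero_iff.1 (by omega)
        rw [← hu, h4, List.append_nil]
      rw [← h2] at hτ3
      rw [hoff j le_rfl] at hτ3
      exact absurd hτ3 (by simp)
  -- the new real
  let Y' : ℕ → Bool := fun p => if p < t then τ.getD p false
    else if stor j t p = true then X (idx p) else X p
  set g' := gnew j t with hg'
  have htg : t < g' := lt_gnew
  have hY1 : ∀ p < t, Y' p = τ.getD p false := fun p hp => if_pos hp
  have hY2 : ∀ p, t ≤ p → stor j t p = true → Y' p = X (idx p) := fun p hp hst => by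
    show (if p < t then _ else if stor j t p = true then X (idx p) else X p) = _
    rw [if_neg (not_lt.2 hp), if_pos hst]
  have hY3 : ∀ p, t ≤ p → stor j t p = false → Y' p = X p := fun p hp hst => by
    show (if p < t then _ else if stor j t p = true then X (idx p) else X p) = _
    rw [if_neg (not_lt.2 hp), hst, if_neg (by simp)]
  have hYl : ∀ p < l, Y' p = Y p := fun p hp => by
    rw [hY1 p (hp.trans hlt), hτY p hp]
  have hYt : pre Y' t = τ := by
    apply List.ext_getElem?
    intro i
    by_cases hi : i < t
    · rw [pre_getElem? _ hi, hY1 i hi, List.getD_eq_getElem?_getD, List.getElem?_eq_getElem hi]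
      rfl
    · rw [List.getElem?_eq_none, List.getElem?_eq_none]
      · exact not_lt.1 hi
      · rw [pre_length]; exact not_lt.1 hi
  have hmin : ∀ q < t, A (m j) (pre Y' q) = false := by
    intro q hq
    rw [← Bool.not_eq_true]
    intro hAq
    have h1 : pre Y' (max q l) <+: τ := by
      rw [← hYt]; exact pre_mono Y' (max_lt hq hlt).le
    have h2 := hτmin (pre Y' (max q l)) ⟨?_, ?_, hA _ _ _ (pre_mono Y' (le_max_left _ _)) hAq⟩
    · rw [pre_length] at h2
      have := max_lt hq hlt
      omega
    · have : pre Y l = pre Y' l := pre_congr fun p hp => (hYl p hp).symm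
      rw [this]; exact pre_mono Y' (le_max_right _ _)
    · intro p hp1 hp2 hp3
      rw [pre_length] at hp1
      rw [← getD_of_prefix h1 hp2]
      exact hτ2 p hp1 (lt_of_lt_of_le hp2 h1.length_le) hp3
  have hpreg : pre Y g <+: pre Y' g' := by
    have : pre Y g = pre Y' g := pre_congr fun p hp => (hYl p (lt_of_lt_of_le hp hgl)).symm
    rw [this]; exact pre_mono Y' (by omega)
  have hprel : pre Y l <+: pre Y' g' := by
    have : pre Y l = pre Y' l := pre_congr fun p hp => (hYl p hp).symm
    rw [this]; exact pre_mono Y' (by omega)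
  -- one step of the encoder
  have hnewE : ∀ s, g' ≤ s → newE j τ (pre X s) = pre Y' s := by
    intro s hs
    rw [newE, pre_length]
    refine List.map_congr_left fun p hp => ?_
    have hps := List.mem_range.1 hp
    by_cases hpt : p < t
    · simp only [← ht, hpt, decide_true, if_true]
      exact (hY1 p hpt).symm
    · simp only [← ht, hpt, decide_false, Bool.false_eq_true, if_false]
      by_cases hst : stor j t p = true
      · rw [if_pos hst, hY2 p (not_lt.1 hpt) hst, pre_getD X]
        have h1 := (stor_iff.1 hst).2.2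
        omega
      · rw [if_neg hst, hY3 p (not_lt.1 hpt) (by simpa using hst), pre_getD X hps]
  have hstepE : ∀ s, runE A m r cnt s₀ (pre X s) c = (pre Y s, g, false) →
      runE A m r cnt s₀ (pre X s) (c + 1) =
        if g' ≤ s then (pre Y' s, g', false)
        else if l ≤ s then (pre Y l, g, true) else (pre Y s, g, true) := by
    intro s hs
    have h1 : runE A m r cnt s₀ (pre X s) (c + 1) =
        stepE A m r cnt (pre X s) c (runE A m r cnt s₀ (pre X s) c) := rfl
    rw [h1, hs, stepE]
    simp only [Bool.false_eq_true, if_false, ← hj]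
    rw [trig_eq hl s]
    by_cases hls : l ≤ s
    · simp only [if_pos hls]
      rw [pre_take Y hls, hsrch s]
      by_cases hts : t ≤ s
      · simp only [if_pos hts, pre_length]
        by_cases hgs : g' ≤ s
        · rw [if_pos hgs]
          simp only [← ht, ← hg', hgs, decide_true, if_true]
          rw [hnewE s hgs]
        · rw [if_neg hgs]
          simp only [← ht, ← hg', hgs, decide_false, Bool.false_eq_true, if_false]
      · rw [if_neg hts, if_neg (by omega)]
    · rw [if_neg hls, if_neg (by omega), if_neg hls]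
  -- one step of the decoder
  have hred : ∀ p, t ≤ p → stor j t p = true → X (pos j (idx p) (t + 1)) = X p := by
    intro p _ hst
    obtain ⟨h1, h2, h3⟩ := stor_iff.1 hst
    have h4 := hS.red j hjr (idx p) (t + 1) t (by omega) (by omega)
    rw [h4]
    congr 1
    conv_rhs => rw [← pos_eq p]
    rw [h1, h2]
  have hnewD : ∀ Z, pre Z g' = pre Y' g' → ∀ s, g' ≤ s →
      newD j t (pre Z s) = pre (splice X g' Z) s := by
    intro Z hZ s hs
    have hZ' := pre_eq_iff.1 hZ
    rw [newD, pre_length]
    refine List.map_congr_left fun p hp => ?_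
    have hps := List.mem_range.1 hp
    by_cases hpt : p < t
    · simp only [hpt, decide_true, if_true]
      have h1 : pos j p t < g' := pos_lt_gnew hpt
      rw [pre_getD Z (lt_of_lt_of_le h1 hs), hZ' _ h1, hY2 _ (le_pos _ _ _)
        (stor_iff.2 (by simp [hpt]))]
      simp only [idx_pos, splice]
      rw [if_pos (by omega)]
    · simp only [hpt, decide_false, Bool.false_eq_true, if_false]
      by_cases hst : stor j t p = true
      · have h3 := (stor_iff.1 hst).2.2
        have h1 : pos j (idx p) (t + 1) < g' := pos_lt_gnew' h3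
        have h2 : t + 1 ≤ pos j (idx p) (t + 1) := le_pos _ _ _
        rw [if_pos hst, pre_getD Z (lt_of_lt_of_le h1 hs), hZ' _ h1, hY3 _ (by omega)]
        · rw [hred p (not_lt.1 hpt) hst]
          simp only [splice]
          rw [if_pos (stor_lt hst)]
        · rw [← Bool.not_eq_true, stor_iff]
          rintro ⟨_, h4, _⟩
          simp at h4
      · rw [if_neg hst, pre_getD Z hps]
        simp only [splice]
        by_cases hpg : p < g'
        · rw [if_pos hpg, hZ' p hpg, hY3 p (not_lt.1 hpt) (by simpa using hst)]
        · rw [if_neg hpg]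
  have hstepD : ∀ Z, pre Z g' = pre Y' g' → ∀ s,
      runD A m r cnt s₀ (pre Z s) c = (pre (splice X g Z) s, g, false) →
      runD A m r cnt s₀ (pre Z s) (c + 1) =
        if g' ≤ s then (pre (splice X g' Z) s, g', false)
        else if l ≤ s then (pre X l, g, true) else (pre X s, g, true) := by
    intro Z hZ s hs
    have hZ' := pre_eq_iff.1 hZ
    have hsp : ∀ p < l, splice X g Z p = X p := by
      intro p hp
      simp only [splice]
      by_cases hpg : p < g
      · rw [if_pos hpg]
      · rw [if_neg hpg, hZ' p (by omega), hYl p hp, hI.tail p (not_lt.1 hpg)]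
    have hl' : IsTrig cnt c g (splice X g Z) l := by
      refine ⟨hgl, ?_, fun b hb1 hb2 => ?_⟩
      · rw [pre_congr hsp]; exact hl.2.1
      · rw [pre_congr (fun p hp => hsp p (hp.trans hb2))]; exact hl.2.2 b hb1 hb2
    have h1 : runD A m r cnt s₀ (pre Z s) (c + 1) =
        stepD A m r cnt (pre Z s) c (runD A m r cnt s₀ (pre Z s) c) := rfl
    rw [h1, hs, stepD]
    simp only [Bool.false_eq_true, if_false, ← hj]
    rw [trig_eq hl' s]
    by_cases hls : l ≤ s
    · simp only [if_pos hls]
      rw [pre_take _ hls, pre_congr hsp]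
      have hfnd : fnd A (m j) l (pre Z s) = if t ≤ s then some t else none := by
        by_cases hts : t ≤ s
        · rw [if_pos hts, fnd, find_range_some, pre_length]
          refine ⟨by omega, ?_, fun b hb => ?_⟩
          · rw [pre_take Z hts]
            have : pre Z t = τ := by
              rw [← hYt]; exact pre_eq_of_le htg.le hZ
            rw [this, hτ3]
            simp [hlt.le]
          · rw [pre_take Z (by omega), pre_eq_of_le (by omega : b ≤ g') hZ, hmin b hb]
            simp
        · rw [if_neg hts, fnd, find_range_none, pre_length]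
          intro b hb
          rw [pre_take Z (by omega), pre_eq_of_le (by omega : b ≤ g') hZ, hmin b (by omega)]
          simp
      rw [hfnd]
      by_cases hts : t ≤ s
      · simp only [if_pos hts, pre_length]
        by_cases hgs : g' ≤ s
        · rw [if_pos hgs]
          simp only [← hg', hgs, decide_true, if_true]
          rw [hnewD Z hZ s hgs]
        · rw [if_neg hgs]
          simp only [← hg', hgs, decide_false, Bool.false_eq_true, if_false]
      · rw [if_neg hts, if_neg (by omega)]
    · rw [if_neg hls, if_neg (by omega), if_neg hls, pre_congr fun p hp => hsp p (by omega)]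
  refine ⟨Y', g', ⟨by omega, ?_, ?_, ?_, ?_, ?_, ?_, ?_, ?_⟩, by omega⟩
  · -- tail
    intro p hp
    refine hY3 p (by omega) ?_
    rw [← Bool.not_eq_true]
    intro hst
    have := stor_lt hst
    omega
  · -- head
    intro p hp
    rw [hYl p (by omega), hI.head p hp]
  · -- agr
    intro p hp1 hp2
    by_cases hpt : p < t
    · by_cases hpl : p < l
      · rw [hYl p hpl]; exact hI.agr p hp1 (by omega)
      · rw [hY1 p hpt]; exact hτ2 p (not_lt.1 hpl) hpt (by omega)
    · refine hY3 p (not_lt.1 hpt) ?_
      rw [← Bool.not_eq_true, stor_iff]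
      rintro ⟨h1, _⟩
      omega
  · -- on
    intro i hi1 hi2
    by_cases hij : i = j
    · subst hij
      refine hA _ _ _ ?_ hτ3
      rw [← hYt]; exact pre_mono Y' htg.le
    · exact hA _ _ _ hpreg (hI.on i (by omega) hi2)
  · -- enc1
    intro s
    rcases hI.enc1 s with h1 | ⟨h1, h2⟩
    · rw [hstepE s h1]
      by_cases hgs : g' ≤ s
      · rw [if_pos hgs]; exact Or.inl rfl
      · rw [if_neg hgs]
        by_cases hls : l ≤ s
        · rw [if_pos hls]; exact Or.inr ⟨rfl, hprel⟩
        · rw [if_neg hls]
          exact Or.inr ⟨rfl, (pre_mono Y (not_le.1 hls).le).trans hprel⟩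
    · right
      have h3 : runE A m r cnt s₀ (pre X s) (c + 1) = runE A m r cnt s₀ (pre X s) c := by
        show stepE A m r cnt (pre X s) c (runE A m r cnt s₀ (pre X s) c) = _
        rw [stepE, if_pos h1]
      rw [h3]
      exact ⟨h1, h2.trans hpreg⟩
  · -- enc2
    obtain ⟨S, hS'⟩ := hI.enc2
    refine ⟨max S g', fun s hs => ?_⟩
    rw [hstepE s (hS' s ((le_max_left _ _).trans hs)), if_pos ((le_max_right _ _).trans hs)]
  · -- dec1
    intro Z hZ s
    have hZg : pre Z g = pre Y g := by
      rw [pre_eq_of_le (by omega : g ≤ g') hZ]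
      exact pre_congr fun p hp => hYl p (lt_of_lt_of_le hp hgl)
    rcases hI.dec1 Z hZg s with h1 | ⟨h1, h2⟩
    · rw [hstepD Z hZ s h1]
      by_cases hgs : g' ≤ s
      · rw [if_pos hgs]; exact Or.inl rfl
      · rw [if_neg hgs]
        by_cases hls : l ≤ s
        · rw [if_pos hls]; exact Or.inr ⟨rfl, pre_mono X (by omega)⟩
        · rw [if_neg hls]
          exact Or.inr ⟨rfl, pre_mono X (by omega)⟩
    · right
      have h3 : runD A m r cnt s₀ (pre Z s) (c + 1) = runD A m r cnt s₀ (pre Z s) c := by
        show stepD A m r cnt (pre Z s) c (runD A m r cnt s₀ (pre Z s) c) = _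
        rw [stepD, if_pos h1]
      rw [h3]
      exact ⟨h1, h2.trans (pre_mono X (by omega))⟩
  · -- dec2
    obtain ⟨S, hS'⟩ := hI.dec2
    refine ⟨max S g', fun Z hZ s hs => ?_⟩
    have hZg : pre Z g = pre Y g := by
      rw [pre_eq_of_le (by omega : g ≤ g') hZ]
      exact pre_congr fun p hp => hYl p (lt_of_lt_of_le hp hgl)
    rw [hstepD Z hZ s (hS' Z hZg s ((le_max_left _ _).trans hs)),
      if_pos ((le_max_right _ _).trans hs)]

end

end Pool.Agent.H19
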