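import Mathlib
import Pool.Agent.H19.Act

/-!
The two transformations are inverse to each other along the constructed real.
-/

set_option autoImplicit false

namespace Pool.Agent.H19

open Encodable

section

variable {A : ℕ → List Bool → Bool} {X : ℕ → Bool} {r s₀ : ℕ} {m : ℕ → ℕ}
  {cnt : List Bool → ℕ}

theorem runE_stay {x : List Bool} {c : ℕ} (h : (runE A m r cnt s₀ x c).2.2 = true) :
    ∀ c' ≥ c, runE A m r cnt s₀ x c' = runE A m r cnt s₀ x c := by
  intro c' hc'
  induction hc' with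
  | refl => rfl
  | step _ ih =>
    rename_i l _
    have h1 : runE A m r cnt s₀ x (l + 1) = stepE A m r cnt x l (runE A m r cnt s₀ x l) := rfl
    rw [Nat.succ_eq_add_one, h1, ih, stepE, if_pos h]

theorem runD_stay {x : List Bool} {c : ℕ} (h : (runD A m r cnt s₀ x c).2.2 = true) :
    ∀ c' ≥ c, runD A m r cnt s₀ x c' = runD A m r cnt s₀ x c := by
  intro c' hc'
  induction hc' with
  | refl => rfl
  | step _ ih =>
    rename_i l _
    have h1 : runD A m r cnt s₀ x (l + 1) = stepD A m r cnt x l (runD A m r cnt s₀ x l) := rfl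
    rw [Nat.succ_eq_add_one, h1, ih, stepD, if_pos h]

theorem stInv_zero : StInv A X r s₀ m cnt 0 X s₀ where
  hg := le_rfl
  tail := fun _ _ => rfl
  head := fun _ _ => rfl
  agr := fun _ _ _ => rfl
  on := fun i h1 h2 => absurd h2 (by omega)
  enc1 := fun _ => Or.inl rfl
  enc2 := ⟨0, fun _ _ => rfl⟩
  dec1 := fun Z hZ s => Or.inl (by
    have : splice X s₀ Z = Z := by
      funext p
      simp only [splice]
      by_cases hp : p < s₀
      · rw [if_pos hp]; exact (pre_eq_iff.1 hZ p hp).symm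
      · rw [if_neg hp]
    rw [this]; rfl)
  dec2 := ⟨0, fun Z hZ s _ => by
    have : splice X s₀ Z = Z := by
      funext p
      simp only [splice]
      by_cases hp : p < s₀
      · rw [if_pos hp]; exact (pre_eq_iff.1 hZ p hp).symm
      · rw [if_neg hp]
    rw [this]; rfl⟩

theorem exists_stInv (hA : ∀ m σ τ, σ <+: τ → A m σ = true → A m τ = true)
    (hS : Sw A X r s₀ m) {C : ℕ} (hC : ∃ t, ∀ s ≥ t, cnt (pre X s) = C) (hCr : C ≤ r) :
    ∀ c ≤ C, ∃ Y g, StInv A X r s₀ m cnt c Y g := by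
  intro c
  induction c with
  | zero => intro _; exact ⟨X, s₀, stInv_zero⟩
  | succ c ih =>
    intro hc
    obtain ⟨Y, g, hI⟩ := ih (by omega)
    obtain ⟨t, ht⟩ := hC
    have hex : ∃ l, g ≤ l ∧ c + 1 ≤ cnt (pre X l) :=
      ⟨max g t, le_max_left _ _, by rw [ht _ (le_max_right _ _)]; exact hc⟩
    classical
    have hl : IsTrig cnt c g X (Nat.find hex) := by
      refine ⟨(Nat.find_spec hex).1, (Nat.find_spec hex).2, fun b hb1 hb2 => ?_⟩
      have := Nat.find_min hex hb2
      simp only [not_and, not_le] at this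
      exact this hb1
    obtain ⟨Y', g', h1, _⟩ := stInv_succ hA hS (by omega) hI hl
    exact ⟨Y', g', h1⟩

/-- The main property of the transformation. -/
theorem exists_run (hA : ∀ m σ τ, σ <+: τ → A m σ = true → A m τ = true)
    (hS : Sw A X r s₀ m) {C : ℕ} (hC1 : ∃ t, ∀ s ≥ t, cnt (pre X s) = C)
    (hC2 : ∀ s, cnt (pre X s) ≤ C) (hCr : C ≤ r) :
    ∃ Y : ℕ → Bool, {n | X n ≠ Y n}.Finite ∧
      (∀ i < r, (∃ t, A (m i) (pre Y t) = true) ↔ r - C ≤ i) ∧
      (∀ s, ∃ t, (runE A m r cnt s₀ (pre X s) r).1 = pre Y t) ∧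
      (∀ n, ∃ s, n < (runE A m r cnt s₀ (pre X s) r).1.length) ∧
      (∀ s, ∃ t, (runD A m r cnt s₀ (pre Y s) r).1 = pre X t) ∧
      (∀ n, ∃ s, n < (runD A m r cnt s₀ (pre Y s) r).1.length) := by
  obtain ⟨Y, g, hI⟩ := exists_stInv hA hS hC1 hCr C le_rfl
  have hpx : ∀ {Z : ℕ → Bool} {σ : List Bool} {n : ℕ}, σ <+: pre Z n → ∃ t, σ = pre Z t :=
    fun {Z σ n} h => ⟨σ.length, ((prefix_pre_iff Z).1 h).2⟩
  -- the encoder
  have hE : ∀ s, ((runE A m r cnt s₀ (pre X s) C = (pre Y s, g, false)) →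
      (runE A m r cnt s₀ (pre X s) r).1 = pre Y s) ∧
      ((runE A m r cnt s₀ (pre X s) C).2.2 = true ∧
        (runE A m r cnt s₀ (pre X s) C).1 <+: pre Y g →
        (runE A m r cnt s₀ (pre X s) r).1 <+: pre Y g) := by
    intro s
    constructor
    · intro h
      rcases hCr.lt_or_eq with hlt | rfl
      · have h1 : runE A m r cnt s₀ (pre X s) (C + 1) = (pre Y s, g, true) := by
          show stepE A m r cnt (pre X s) C (runE A m r cnt s₀ (pre X s) C) = _
          rw [h, stepE]
          simp only [Bool.false_eq_true, if_false]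
          rw [trig_none fun l _ => Nat.lt_succ_of_le (hC2 l)]
        rw [runE_stay (c := C + 1) (by rw [h1]) r hlt, h1]
      · rw [h]
    · rintro ⟨h1, h2⟩
      rw [runE_stay h1 r hCr]; exact h2
  -- the decoder
  have hsp : splice X g Y = X := by
    funext p
    simp only [splice]
    by_cases hp : p < g
    · rw [if_pos hp]
    · rw [if_neg hp]; exact hI.tail p (not_lt.1 hp)
  have hD : ∀ s, ((runD A m r cnt s₀ (pre Y s) C = (pre X s, g, false)) →
      (runD A m r cnt s₀ (pre Y s) r).1 = pre X s) ∧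
      ((runD A m r cnt s₀ (pre Y s) C).2.2 = true ∧
        (runD A m r cnt s₀ (pre Y s) C).1 <+: pre X g →
        (runD A m r cnt s₀ (pre Y s) r).1 <+: pre X g) := by
    intro s
    constructor
    · intro h
      rcases hCr.lt_or_eq with hlt | rfl
      · have h1 : runD A m r cnt s₀ (pre Y s) (C + 1) = (pre X s, g, true) := by
          show stepD A m r cnt (pre Y s) C (runD A m r cnt s₀ (pre Y s) C) = _
          rw [h, stepD]
          simp only [Bool.false_eq_true, if_false]
          rw [trig_none fun l _ => Nat.lt_succ_of_le (hC2 l)]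
        rw [runD_stay (c := C + 1) (by rw [h1]) r hlt, h1]
      · rw [h]
    · rintro ⟨h1, h2⟩
      rw [runD_stay h1 r hCr]; exact h2
  refine ⟨Y, ?_, ?_, ?_, ?_, ?_, ?_⟩
  · refine (Set.finite_lt_nat g).subset fun n hn => ?_
    by_contra hng
    exact hn (hI.tail n (not_lt.1 hng)).symm
  · intro i hi
    constructor
    · rintro ⟨t, ht⟩
      by_contra hlt
      have h1 : r - C - 1 < r := by omega
      have h2 : pre X s₀ <+: pre Y (max s₀ t) := by
        have : pre X s₀ = pre Y s₀ := pre_congr fun p hp => (hI.head p hp).symm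
        rw [this]; exact pre_mono Y (le_max_left _ _)
      have h3 : Agr X (r - C - 1 + 1) s₀ (pre Y (max s₀ t)) := by
        intro p hp1 hp2 hp3
        rw [pre_length] at hp2
        rw [pre_getD Y hp2]
        exact hI.agr p hp1 (by omega)
      have h4 := (hS.sw (r - C - 1) h1 _ h2 h3).1 i (by omega)
      rw [hA _ _ _ (pre_mono Y (le_max_right _ _)) ht] at h4
      exact absurd h4 (by simp)
    · intro hi'
      exact ⟨g, hI.on i hi' hi⟩
  · intro s
    rcases hI.enc1 s with h | h
    · exact ⟨s, (hE s).1 h⟩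
    · exact hpx ((hE s).2 h)
  · intro n
    obtain ⟨S, hS'⟩ := hI.enc2
    refine ⟨max S (n + 1), ?_⟩
    rw [(hE _).1 (hS' _ (le_max_left _ _)), pre_length]
    exact lt_of_lt_of_le (Nat.lt_succ_self n) (le_max_right _ _)
  · intro s
    rcases hI.dec1 Y rfl s with h | h
    · rw [hsp] at h
      exact ⟨s, (hD s).1 h⟩
    · exact hpx ((hD s).2 h)
  · intro n
    obtain ⟨S, hS'⟩ := hI.dec2
    have h := hS' Y rfl (max S (n + 1)) (le_max_left _ _)
    rw [hsp] at h
    refine ⟨max S (n + 1), ?_⟩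
    rw [(hD _).1 h, pre_length]
    exact lt_of_lt_of_le (Nat.lt_succ_self n) (le_max_right _ _)

end

end Pool.Agent.H19
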