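import Mathlib
import Pool.Agent.H19.Run
import Pool.Agent.H19.Growth
import Pool.Agent.H19.Cardl

/-!
Indices of the two transformations, uniformly in the parameter.
-/

set_option autoImplicit false

namespace Pool.Agent.H19

open Encodable Nat.Partrec

theorem comp_head {α β : Type*} [Primcodable α] [Primcodable β] {f : α → List β}
    (hf : Computable f) : Computable fun a => (f a).head? :=
  Primrec.list_head?.to_comp.comp hf

section

variable {α : Type*} [Primcodable α]

theorem comp_strsLe {f : α → ℕ} (hf : Computable f) : Computable fun a => strsLe (f a) :=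
  comp_list_flatMap (g := fun _ n => strs n) (comp_range (Computable.succ.comp hf))
    (comp_strs.comp Computable.snd)

theorem comp_agr {j s : α → ℕ} {τ x : α → List Bool} (hj : Computable j) (hs : Computable s)
    (hτ : Computable τ) (hx : Computable x) : Computable fun a => agr (j a) (s a) (τ a) (x a) := by
  refine comp_list_all (g := fun a p => !(decide (s a ≤ p) && decide (col p < j a)) ||
    decide ((τ a).getD p false = (x a).getD p false)) (comp_range (Computable.list_length.comp hτ))
    ?_
  refine comp_or (comp_not (comp_and (comp_decLe (hs.comp Computable.fst) Computable.snd)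
    (comp_decLt (comp_col Computable.snd) (hj.comp Computable.fst)))) ?_
  exact comp_decEq (comp_getD (hτ.comp Computable.fst) Computable.snd)
    (comp_getD (hx.comp Computable.fst) Computable.snd)

theorem comp_srch {A : ℕ → List Bool → Bool} (hA : Computable₂ A) {mj j : α → ℕ}
    {ρ x : α → List Bool} (hm : Computable mj) (hj : Computable j) (hρ : Computable ρ)
    (hx : Computable x) : Computable fun a => srch A (mj a) (j a) (ρ a) (x a) := by
  refine comp_head (comp_list_filter (g := fun a τ => isPre (ρ a) τ &&
    (A (mj a) τ && agr (j a) (ρ a).length τ (x a)))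
    (comp_strsLe (Computable.list_length.comp hx)) ?_)
  refine comp_and (comp_isPre (hρ.comp Computable.fst) Computable.snd) (comp_and
    (hA.comp (hm.comp Computable.fst) Computable.snd) ?_)
  exact comp_agr (hj.comp Computable.fst) ((Computable.list_length.comp hρ).comp Computable.fst)
    Computable.snd (hx.comp Computable.fst)

theorem comp_trig {cnt : ℕ → List Bool → ℕ} (hcnt : Computable₂ cnt) {a c g : α → ℕ}
    {x : α → List Bool} (ha : Computable a) (hc : Computable c) (hg : Computable g)
    (hx : Computable x) : Computable fun z => trig (cnt (a z)) (c z) (g z) (x z) := by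
  refine comp_head (comp_list_filter (g := fun z l =>
    decide (g z ≤ l) && decide (c z + 1 ≤ cnt (a z) ((x z).take l)))
    (comp_range (Computable.succ.comp (Computable.list_length.comp hx))) ?_)
  refine comp_and (comp_decLe (hg.comp Computable.fst) Computable.snd) (comp_decLe
    (Computable.succ.comp (hc.comp Computable.fst)) ?_)
  exact hcnt.comp (ha.comp Computable.fst) (comp_take Computable.snd (hx.comp Computable.fst))

theorem comp_gnew {j t : α → ℕ} (hj : Computable j) (ht : Computable t) :
    Computable fun a => gnew (j a) (t a) :=
  Computable.succ.comp (comp_pos hj ht (Computable.succ.comp ht))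

theorem comp_stor {j t p : α → ℕ} (hj : Computable j) (ht : Computable t) (hp : Computable p) :
    Computable fun a => stor (j a) (t a) (p a) :=
  comp_and (comp_decEq (comp_col hp) hj) (comp_and (comp_decEq (comp_tim hp) ht)
    (comp_decLt (comp_idx hp) ht))

theorem comp_newE {j : α → ℕ} {τ x : α → List Bool} (hj : Computable j) (hτ : Computable τ)
    (hx : Computable x) : Computable fun a => newE (j a) (τ a) (x a) := by
  refine comp_list_map (g := fun a p =>
    if decide (p < (τ a).length) then (τ a).getD p false
    else if stor (j a) (τ a).length p then (x a).getD (idx p) false else (x a).getD p false)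
    (comp_range (Computable.list_length.comp hx)) ?_
  have hl : Computable (fun z : α × ℕ => (τ z.1).length) :=
    (Computable.list_length.comp hτ).comp Computable.fst
  refine comp_ite (c := fun z : α × ℕ => decide (z.2 < (τ z.1).length))
    (comp_decLt Computable.snd hl) (comp_getD (hτ.comp Computable.fst) Computable.snd) ?_
  exact comp_ite (comp_stor (hj.comp Computable.fst) hl Computable.snd)
    (comp_getD (hx.comp Computable.fst) (comp_idx Computable.snd))
    (comp_getD (hx.comp Computable.fst) Computable.snd)

theorem comp_fnd {A : ℕ → List Bool → Bool} (hA : Computable₂ A) {mj l : α → ℕ}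
    {y : α → List Bool} (hm : Computable mj) (hl : Computable l) (hy : Computable y) :
    Computable fun a => fnd A (mj a) (l a) (y a) := by
  refine comp_head (comp_list_filter (g := fun a t =>
    decide (l a ≤ t) && A (mj a) ((y a).take t))
    (comp_range (Computable.succ.comp (Computable.list_length.comp hy))) ?_)
  exact comp_and (comp_decLe (hl.comp Computable.fst) Computable.snd)
    (hA.comp (hm.comp Computable.fst) (comp_take Computable.snd (hy.comp Computable.fst)))

theorem comp_newD {j t : α → ℕ} {y : α → List Bool} (hj : Computable j) (ht : Computable t)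
    (hy : Computable y) : Computable fun a => newD (j a) (t a) (y a) := by
  refine comp_list_map (g := fun a p =>
    if decide (p < t a) then (y a).getD (pos (j a) p (t a)) false
    else if stor (j a) (t a) p then (y a).getD (pos (j a) (idx p) (t a + 1)) false
      else (y a).getD p false)
    (comp_range (Computable.list_length.comp hy)) ?_
  have ht' : Computable (fun z : α × ℕ => t z.1) := ht.comp Computable.fst
  have hj' : Computable (fun z : α × ℕ => j z.1) := hj.comp Computable.fst
  have hy' : Computable (fun z : α × ℕ => y z.1) := hy.comp Computable.fst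
  refine comp_ite (c := fun z : α × ℕ => decide (z.2 < t z.1))
    (comp_decLt Computable.snd ht') (comp_getD hy' (comp_pos hj' Computable.snd ht')) ?_
  exact comp_ite (comp_stor hj' ht' Computable.snd)
    (comp_getD hy' (comp_pos hj' (comp_idx Computable.snd) (Computable.succ.comp ht')))
    (comp_getD hy' Computable.snd)

theorem comp_j (r : ℕ) {c : α → ℕ} (hc : Computable c) : Computable fun a => r - 1 - c a :=
  Primrec.nat_sub.to_comp.comp (Computable.const (r - 1)) hc

theorem comp_stepE {A : ℕ → List Bool → Bool} (hA : Computable₂ A) {m : ℕ → ℕ}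
    (hm : Computable m) (r : ℕ) {cnt : ℕ → List Bool → ℕ} (hcnt : Computable₂ cnt)
    {a c : α → ℕ} {x : α → List Bool} {st : α → Stt} (ha : Computable a) (hx : Computable x)
    (hc : Computable c) (hst : Computable st) :
    Computable fun z => stepE A m r (cnt (a z)) (x z) (c z) (st z) := by
  have h1 : Computable fun z => (st z).1 := Computable.fst.comp hst
  have h2 : Computable fun z => (st z).2.1 := Computable.fst.comp (Computable.snd.comp hst)
  have h3 : Computable fun z => (st z).2.2 := Computable.snd.comp (Computable.snd.comp hst)
  have hj : Computable fun z => r - 1 - c z := comp_j r hc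
  refine comp_ite h3 hst ?_
  refine Computable.option_casesOn (o := fun z => trig (cnt (a z)) (c z) (st z).2.1 (x z))
    (f := fun z => ((st z).1, (st z).2.1, true))
    (g := fun z l => (Option.casesOn (srch A (m (r - 1 - c z)) (r - 1 - c z) ((st z).1.take l)
        (x z)) ((st z).1.take l, (st z).2.1, true) fun τ =>
          if decide (gnew (r - 1 - c z) τ.length ≤ (x z).length) then
            (newE (r - 1 - c z) τ (x z), gnew (r - 1 - c z) τ.length, false)
          else ((st z).1.take l, (st z).2.1, true) : Stt))
    (comp_trig hcnt ha hc h2 hx) (h1.pair (h2.pair (Computable.const true))) ?_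
  have htk : Computable (fun y : α × ℕ => (st y.1).1.take y.2) :=
    comp_take Computable.snd (h1.comp Computable.fst)
  have hj1 : Computable (fun y : α × ℕ => r - 1 - c y.1) := hj.comp Computable.fst
  refine Computable.option_casesOn (o := fun y : α × ℕ => srch A (m (r - 1 - c y.1))
    (r - 1 - c y.1) ((st y.1).1.take y.2) (x y.1))
    (f := fun y => ((st y.1).1.take y.2, (st y.1).2.1, true))
    (g := fun y τ => if decide (gnew (r - 1 - c y.1) τ.length ≤ (x y.1).length) then
            (newE (r - 1 - c y.1) τ (x y.1), gnew (r - 1 - c y.1) τ.length, false)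
          else ((st y.1).1.take y.2, (st y.1).2.1, true))
    (comp_srch hA (hm.comp hj1) hj1 htk (hx.comp Computable.fst))
    (htk.pair ((h2.comp Computable.fst).pair (Computable.const true))) ?_
  have hj2 : Computable (fun y : (α × ℕ) × List Bool => r - 1 - c y.1.1) :=
    hj1.comp Computable.fst
  have hgn : Computable (fun y : (α × ℕ) × List Bool => gnew (r - 1 - c y.1.1) y.2.length) :=
    comp_gnew hj2 (Computable.list_length.comp Computable.snd)
  have hx2 : Computable (fun y : (α × ℕ) × List Bool => x y.1.1) :=
    hx.comp (Computable.fst.comp Computable.fst)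
  refine comp_ite (comp_decLe hgn (Computable.list_length.comp hx2)) ?_ ?_
  · exact (comp_newE hj2 Computable.snd hx2).pair (hgn.pair (Computable.const false))
  · exact (htk.comp Computable.fst).pair ((h2.comp (Computable.fst.comp Computable.fst)).pair
      (Computable.const true))

theorem comp_stepD {A : ℕ → List Bool → Bool} (hA : Computable₂ A) {m : ℕ → ℕ}
    (hm : Computable m) (r : ℕ) {cnt : ℕ → List Bool → ℕ} (hcnt : Computable₂ cnt)
    {a c : α → ℕ} {x : α → List Bool} {st : α → Stt} (ha : Computable a) (hx : Computable x)
    (hc : Computable c) (hst : Computable st) :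
    Computable fun z => stepD A m r (cnt (a z)) (x z) (c z) (st z) := by
  have h1 : Computable fun z => (st z).1 := Computable.fst.comp hst
  have h2 : Computable fun z => (st z).2.1 := Computable.fst.comp (Computable.snd.comp hst)
  have h3 : Computable fun z => (st z).2.2 := Computable.snd.comp (Computable.snd.comp hst)
  have hj : Computable fun z => r - 1 - c z := comp_j r hc
  refine comp_ite h3 hst ?_
  refine Computable.option_casesOn (o := fun z => trig (cnt (a z)) (c z) (st z).2.1 (st z).1)
    (f := fun z => ((st z).1, (st z).2.1, true))
    (g := fun z l => (Option.casesOn (fnd A (m (r - 1 - c z)) l (x z))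
        ((st z).1.take l, (st z).2.1, true) fun t =>
          if decide (gnew (r - 1 - c z) t ≤ (x z).length) then
            (newD (r - 1 - c z) t (x z), gnew (r - 1 - c z) t, false)
          else ((st z).1.take l, (st z).2.1, true) : Stt))
    (comp_trig hcnt ha hc h2 h1) (h1.pair (h2.pair (Computable.const true))) ?_
  have htk : Computable (fun y : α × ℕ => (st y.1).1.take y.2) :=
    comp_take Computable.snd (h1.comp Computable.fst)
  have hj1 : Computable (fun y : α × ℕ => r - 1 - c y.1) := hj.comp Computable.fst
  refine Computable.option_casesOn (o := fun y : α × ℕ => fnd A (m (r - 1 - c y.1)) y.2 (x y.1))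
    (f := fun y => ((st y.1).1.take y.2, (st y.1).2.1, true))
    (g := fun y t => if decide (gnew (r - 1 - c y.1) t ≤ (x y.1).length) then
            (newD (r - 1 - c y.1) t (x y.1), gnew (r - 1 - c y.1) t, false)
          else ((st y.1).1.take y.2, (st y.1).2.1, true))
    (comp_fnd hA (hm.comp hj1) Computable.snd (hx.comp Computable.fst))
    (htk.pair ((h2.comp Computable.fst).pair (Computable.const true))) ?_
  have hj2 : Computable (fun y : (α × ℕ) × ℕ => r - 1 - c y.1.1) :=
    hj1.comp Computable.fst
  have hgn : Computable (fun y : (α × ℕ) × ℕ => gnew (r - 1 - c y.1.1) y.2) :=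
    comp_gnew hj2 Computable.snd
  have hx2 : Computable (fun y : (α × ℕ) × ℕ => x y.1.1) :=
    hx.comp (Computable.fst.comp Computable.fst)
  refine comp_ite (comp_decLe hgn (Computable.list_length.comp hx2)) ?_ ?_
  · exact (comp_newD hj2 Computable.snd hx2).pair (hgn.pair (Computable.const false))
  · exact (htk.comp Computable.fst).pair ((h2.comp (Computable.fst.comp Computable.fst)).pair
      (Computable.const true))

end

theorem comp_runE {A : ℕ → List Bool → Bool} (hA : Computable₂ A) {m : ℕ → ℕ}
    (hm : Computable m) (r s₀ : ℕ) {cnt : ℕ → List Bool → ℕ} (hcnt : Computable₂ cnt) :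
    Computable₂ fun (a : ℕ) (x : List Bool) => (runE A m r (cnt a) s₀ x r).1 := by
  refine Computable.fst.comp ?_
  refine Computable.nat_rec (f := fun _ : ℕ × List Bool => r)
    (g := fun z => ((z.2, s₀, false) : Stt))
    (h := fun z p => stepE A m r (cnt z.1) z.2 p.1 p.2) (Computable.const r)
    (Computable.snd.pair ((Computable.const s₀).pair (Computable.const false))) ?_
  exact comp_stepE hA hm r hcnt (Computable.fst.comp Computable.fst)
    (Computable.snd.comp Computable.fst) (Computable.fst.comp Computable.snd)
    (Computable.snd.comp Computable.snd)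

theorem comp_runD {A : ℕ → List Bool → Bool} (hA : Computable₂ A) {m : ℕ → ℕ}
    (hm : Computable m) (r s₀ : ℕ) {cnt : ℕ → List Bool → ℕ} (hcnt : Computable₂ cnt) :
    Computable₂ fun (a : ℕ) (x : List Bool) => (runD A m r (cnt a) s₀ x r).1 := by
  refine Computable.fst.comp ?_
  refine Computable.nat_rec (f := fun _ : ℕ × List Bool => r)
    (g := fun z => ((z.2, s₀, false) : Stt))
    (h := fun z p => stepD A m r (cnt z.1) z.2 p.1 p.2) (Computable.const r)
    (Computable.snd.pair ((Computable.const s₀).pair (Computable.const false))) ?_
  exact comp_stepD hA hm r hcnt (Computable.fst.comp Computable.fst)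
    (Computable.snd.comp Computable.fst) (Computable.fst.comp Computable.snd)
    (Computable.snd.comp Computable.snd)

theorem exists_code_of_partrec {α : Type*} [Primcodable α] {F : α →. ℕ} (hF : Partrec F) :
    ∃ c : Code, ∀ a, c.eval (encode a) = F a := by
  obtain ⟨c, hc⟩ := Nat.Partrec.Code.exists_code.1 hF
  refine ⟨c, fun a => ?_⟩
  rw [hc]
  simp only [encodek, Part.coe_some, Part.bind_some]
  exact Part.map_id' (fun x => rfl) _

/-- Uniform indices for computable families of string functions. -/
theorem exists_uniform_code {T : ℕ → List Bool → List Bool} (hT : Computable₂ T) :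
    ∃ f : ℕ → Code, Computable f ∧ ∀ a (X Y : ℕ → Bool),
      (∀ s, ∃ t, T a (pre X s) = pre Y t) → (∀ n, ∃ s, n < (T a (pre X s)).length) →
      CodeComputes (f a) X Y := by
  have h1 : Computable (fun z : ℕ × (ℕ × List Bool) =>
      ((T z.1 z.2.2)[z.2.1]?).map (fun b : Bool => if b then 1 else 0)) := by
    refine Computable.option_map (Computable.list_getElem?.comp (hT.comp Computable.fst
      (Computable.snd.comp Computable.snd)) (Computable.fst.comp Computable.snd)) ?_
    exact comp_ite (c := fun p : (ℕ × (ℕ × List Bool)) × Bool => p.2) Computable.snd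
      (Computable.const 1) (Computable.const 0)
  obtain ⟨c, hc⟩ := exists_code_of_partrec (Computable.ofOption h1)
  refine ⟨fun a => Code.curry c a, ?_, fun a X Y h2 h3 => ⟨fun n s v hv => ?_, fun n => ?_⟩⟩
  · exact (Code.primrec₂_curry.to_comp).comp (Computable.const c) Computable.id
  · rw [Code.eval_curry] at hv
    have h4 : c.eval (Nat.pair a (encode (n, pre X s))) = _ := hc (a, (n, pre X s))
    rw [h4] at hv
    obtain ⟨t, ht⟩ := h2 s
    simp only [Part.mem_coe, Option.mem_def, Option.map_eq_some_iff] at hv
    obtain ⟨b, hb, rfl⟩ := hv
    rw [ht] at hb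
    have hn : n < t := by
      rw [List.getElem?_eq_some_iff] at hb
      simpa [pre_length] using hb.1
    rw [pre_getElem? _ hn] at hb
    simp only [Option.some.injEq] at hb
    rw [hb]
  · obtain ⟨s, hs⟩ := h3 n
    refine ⟨s, ?_⟩
    rw [Code.eval_curry]
    have h4 : c.eval (Nat.pair a (encode (n, pre X s))) = _ := hc (a, (n, pre X s))
    rw [h4]
    obtain ⟨t, ht⟩ := h2 s
    rw [ht, pre_length] at hs
    simp only [Part.mem_coe, Option.mem_def, Option.map_eq_some_iff]
    exact ⟨Y n, by rw [ht, pre_getElem? _ hs], rfl⟩

end Pool.Agent.H19
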