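import Mathlib
import Pool.Agent.H19.Codes
import Pool.Agent.H19.Post

/-!
No boundedly non-uniform degree invariant solution to Post's problem.
-/

set_option autoImplicit false

namespace Pool.Agent.H19

open Encodable Nat.Partrec

open Classical in
/-- The set `B` as a Boolean sequence. -/
noncomputable def toSeq (B : Set ℕ) : ℕ → Bool := fun n => decide (n ∈ B)

open Classical in
/-- `c` is an index of a Turing reduction of `A` to `B`: for every `n`, the value of the
characteristic function of `A` at `n` is obtained from some initial segment of `B`, and no other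
value is obtained from an initial segment of `B`. -/
def IsReduction (c : Code) (A B : Set ℕ) : Prop :=
  ∀ n, (∃ s, (if n ∈ A then 1 else 0) ∈ c.eval (encode (n, pre (toSeq B) s))) ∧
    ∀ s v, v ∈ c.eval (encode (n, pre (toSeq B) s)) → v = if n ∈ A then 1 else 0

open Classical in
/-- `c`, run with the additional input `p`, is a Turing reduction of `A` to `B`. -/
def IsReductionWith (c : Code) (p : ℕ) (A B : Set ℕ) : Prop :=
  ∀ n, (∃ s, (if n ∈ A then 1 else 0) ∈ c.eval (encode ((p, n), pre (toSeq B) s))) ∧
    ∀ s v, v ∈ c.eval (encode ((p, n), pre (toSeq B) s)) → v = if n ∈ A then 1 else 0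

theorem toSeq_iff {B : Set ℕ} {n : ℕ} : toSeq B n = true ↔ n ∈ B := by simp [toSeq]

theorem chr_eq_toSeq (B : Set ℕ) : chr B = chi (toSeq B) := chr_eq_chi fun _ => toSeq_iff.symm

theorem toSeq_setOf (X : ℕ → Bool) : toSeq {n | X n = true} = X := by
  funext n
  rw [Bool.eq_iff_iff, toSeq_iff]; rfl

theorem ite_iff {p q : Prop} [Decidable p] [Decidable q] (h : p ↔ q) :
    (if p then 1 else 0 : ℕ) = if q then 1 else 0 := by
  by_cases hp : p
  · rw [if_pos hp, if_pos (h.1 hp)]
  · rw [if_neg hp, if_neg fun hq => hp (h.2 hq)]

open Classical in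
theorem turingReducible_iff_isReduction {A B : Set ℕ} :
    TuringReducible (chr A) (chr B) ↔ ∃ c, IsReduction c A B := by
  rw [chr_eq_toSeq, chr_eq_toSeq, turingReducible_iff]
  refine exists_congr fun c => ?_
  have he : ∀ n, (if toSeq A n = true then 1 else 0 : ℕ) = if n ∈ A then 1 else 0 :=
    fun n => ite_iff toSeq_iff
  simp only [CodeComputes, IsReduction, he]
  constructor
  · rintro ⟨h1, h2⟩ n; exact ⟨h2 n, h1 n⟩
  · intro h; exact ⟨fun n => (h n).2, fun n => (h n).1⟩

theorem isReduction_of_codeComputes {c : Code} {X Y : ℕ → Bool} (h : CodeComputes c X Y) :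
    IsReduction c {n | Y n = true} {n | X n = true} := by
  intro n
  rw [toSeq_setOf]
  refine ⟨?_, fun s v hv => ?_⟩
  · obtain ⟨s, hs⟩ := h.2 n
    refine ⟨s, ?_⟩
    convert hs using 1
    exact @ite_iff _ _ (_) (_) Iff.rfl
  · rw [h.1 n s v hv]
    exact @ite_iff _ _ (_) (_) Iff.rfl

/-- Initial segments of a sequence recursive in the oracle. -/
theorem TotRec.pre_of {Z X : ℕ → Bool} (hX : TotRec Z (fun n => if X n then 1 else 0)) :
    TotRec Z (fun n => encode (Pool.Agent.H19.pre X n)) := by
  have h0 : TotRec Z (fun _ => encode ([] : List Bool)) :=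
    TotRec.of_computable (Computable.const _)
  let st : ℕ → ℕ → ℕ := fun i b =>
    encode (((decode (α := List Bool) i).getD []) ++ [decide (b = 1)])
  have hst : Computable₂ st := by
    refine Computable.encode.comp ?_
    refine Computable.list_append.comp ?_ ?_
    · exact Computable.option_getD (Computable.decode.comp Computable.fst) (Computable.const [])
    · exact Computable.list_cons.comp (comp_decEq Computable.snd (Computable.const 1))
        (Computable.const [])
  have h1 : TotRec Z (fun p : ℕ => st p.unpair.2.unpair.2
      ((fun n => if X n then 1 else 0) p.unpair.2.unpair.1)) := by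
    refine TotRec.comp_computable₂ hst (TotRec.of_computable ?_) (hX.comp
      (TotRec.of_computable ?_))
    · exact Computable.snd.comp (Computable.unpair.comp (Computable.snd.comp Computable.unpair))
    · exact Computable.fst.comp (Computable.unpair.comp (Computable.snd.comp Computable.unpair))
  have h2 := (TotRec.prec h0 h1).comp (TotRec.pair (TotRec.of_computable (Computable.const 0))
    (TotRec.of_computable Computable.id))
  refine (h2 : Nat.RecursiveIn _ _).of_eq fun n => ?_
  simp only [Nat.unpair_pair, id_eq, Part.some_inj]
  induction n with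
  | zero => rfl
  | succ n ih =>
    simp only
    rw [ih]
    simp only [st, encodek, Option.getD_some]
    congr 1
    rw [Pool.Agent.H19.pre, Pool.Agent.H19.pre, List.range_succ, List.map_append]
    congr 1
    cases hZ : X n <;> simp [hZ]

theorem totRec_of_turing {Z X : ℕ → Bool} (h : TuringReducible (chi X) (chi Z)) :
    TotRec Z (fun n => if X n then 1 else 0) :=
  RecursiveIn.iff_nat.1 h

/-! ### Approximating the values computed by a list of procedures -/

/-- The values of `c` with parameter `p` at `m` seen on initial segments of `σ`. -/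
def evs (c : Code) (p m : ℕ) (σ : List Bool) : List ℕ :=
  (List.range (σ.length + 1)).flatMap fun s =>
    (Code.evaln σ.length c (encode ((p, m), σ.take s))).toList

/-- All the values are available. -/
def avail (c : Code) (p : ℕ) (ms : List ℕ) (σ : List Bool) : Bool :=
  ms.all fun m => (evs c p m σ).head?.isSome

/-- The number of values equal to one. -/
def ones (c : Code) (p : ℕ) (ms : List ℕ) (σ : List Bool) : ℕ :=
  (ms.filter fun m => decide ((evs c p m σ).head? = some 1)).length

/-- The values become available at `σ`, and `q` of them are one. -/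
def hit (c : Code) (p : ℕ) (ms : List ℕ) (q : ℕ) (σ : List Bool) : Bool :=
  (avail c p ms σ && !((List.range σ.length).any fun t => avail c p ms (σ.take t))) &&
    decide (q = ones c p ms σ)

section

variable {α : Type*} [Primcodable α]

theorem comp_toList {β : Type*} [Primcodable β] {f : α → Option β} (hf : Computable f) :
    Computable fun a => (f a).toList := by
  have h1 : Computable₂ (fun (_ : α) (b : β) => [b]) :=
    Computable.list_cons.comp Computable.snd (Computable.const [])
  refine (Computable.option_casesOn hf (Computable.const []) h1).of_eq fun a => ?_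
  cases f a <;> rfl

theorem comp_evs {c : α → Code} {p m : α → ℕ} {σ : α → List Bool} (hc : Computable c)
    (hp : Computable p) (hm : Computable m) (hσ : Computable σ) :
    Computable fun a => evs (c a) (p a) (m a) (σ a) := by
  have hl : Computable fun a => (σ a).length := Computable.list_length.comp hσ
  refine comp_list_flatMap (g := fun a s =>
    (Code.evaln (σ a).length (c a) (encode ((p a, m a), (σ a).take s))).toList)
    (comp_range (Computable.succ.comp hl)) ?_
  refine comp_toList ?_
  refine (Nat.Partrec.Code.primrec_evaln.to_comp).comp (Computable.pair (Computable.pair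
    (hl.comp Computable.fst) (hc.comp Computable.fst)) (Computable.encode.comp ?_))
  exact ((hp.comp Computable.fst).pair (hm.comp Computable.fst)).pair
    (comp_take Computable.snd (hσ.comp Computable.fst))

theorem comp_avail (ms : List ℕ) {c : α → Code} {p : α → ℕ} {σ : α → List Bool}
    (hc : Computable c) (hp : Computable p) (hσ : Computable σ) :
    Computable fun a => avail (c a) (p a) ms (σ a) :=
  comp_list_all (g := fun a m => (evs (c a) (p a) m (σ a)).head?.isSome)
    (Computable.const ms) ((Primrec.option_isSome.to_comp).comp (comp_head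
      (comp_evs (hc.comp Computable.fst) (hp.comp Computable.fst) Computable.snd
        (hσ.comp Computable.fst))))

theorem comp_ones (ms : List ℕ) {c : α → Code} {p : α → ℕ} {σ : α → List Bool}
    (hc : Computable c) (hp : Computable p) (hσ : Computable σ) :
    Computable fun a => ones (c a) (p a) ms (σ a) :=
  Computable.list_length.comp (comp_list_filter
    (g := fun a m => decide ((evs (c a) (p a) m (σ a)).head? = some 1))
    (Computable.const ms) (comp_decEq (comp_head (comp_evs (hc.comp Computable.fst)
      (hp.comp Computable.fst) Computable.snd (hσ.comp Computable.fst))) (Computable.const _)))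

theorem comp_hit (ms : List ℕ) {c : α → Code} {p q : α → ℕ} {σ : α → List Bool}
    (hc : Computable c) (hp : Computable p) (hq : Computable q) (hσ : Computable σ) :
    Computable fun a => hit (c a) (p a) ms (q a) (σ a) := by
  refine comp_and (comp_and (comp_avail ms hc hp hσ) (comp_not ?_))
    (comp_decEq hq (comp_ones ms hc hp hσ))
  exact comp_list_any (g := fun a t => avail (c a) (p a) ms ((σ a).take t))
    (comp_range (Computable.list_length.comp hσ)) (comp_avail ms (hc.comp Computable.fst)
      (hp.comp Computable.fst) (comp_take Computable.snd (hσ.comp Computable.fst)))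

end

theorem mem_evs {c : Code} {p m : ℕ} {σ : List Bool} {v : ℕ} : v ∈ evs c p m σ ↔
    ∃ s ≤ σ.length, v ∈ Code.evaln σ.length c (encode ((p, m), σ.take s)) := by
  simp only [evs, List.mem_flatMap, List.mem_range, Nat.lt_succ_iff, Option.mem_toList,
    Option.mem_def]

theorem hit_unique {c : Code} {p : ℕ} {ms : List ℕ} {Z : ℕ → Bool} {q q' t t' : ℕ}
    (h : hit c p ms q (pre Z t) = true) (h' : hit c p ms q' (pre Z t') = true) : q = q' := by
  have key : ∀ a b q q', hit c p ms q (pre Z a) = true → hit c p ms q' (pre Z b) = true →
      ¬ a < b := by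
    intro a b q q' ha hb hab
    rw [hit, Bool.and_eq_true, Bool.and_eq_true] at ha hb
    have h1 := hb.1.2
    rw [Bool.not_eq_true', List.any_eq_false] at h1
    refine h1 a ?_ ?_
    · rw [pre_length]; exact List.mem_range.2 hab
    · rw [pre_take Z hab.le]; exact ha.1.1
  have htt : t = t' := le_antisymm (not_lt.1 (key _ _ _ _ h' h)) (not_lt.1 (key _ _ _ _ h h'))
  subst htt
  rw [hit, Bool.and_eq_true, decide_eq_true_eq] at h h'
  rw [h.2, h'.2]

theorem exists_hit {c : Code} {p : ℕ} {ms : List ℕ} {Z : ℕ → Bool} {B : Set ℕ}
    (hZ : ∀ n, (∃ s, ∃ v, v ∈ c.eval (encode ((p, n), pre Z s))) ∧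
      ∀ s v, v ∈ c.eval (encode ((p, n), pre Z s)) → (v = 1 ↔ n ∈ B)) :
    ∃ t, ∀ q, (open Classical in q = (ms.filter fun m => decide (m ∈ B)).length) →
      hit c p ms q (pre Z t) = true := by
  classical
  have hav : ∃ t, avail c p ms (pre Z t) = true := by
    have h1 : ∀ m, ∃ t, ∀ t' ≥ t, (evs c p m (pre Z t')).head?.isSome = true := by
      intro m
      obtain ⟨s, v, hv⟩ := (hZ m).1
      obtain ⟨k, hk⟩ := Code.evaln_complete.1 hv
      refine ⟨max s k, fun t' ht' => ?_⟩
      have hmem : v ∈ evs c p m (pre Z t') := by
        refine mem_evs.2 ⟨s, ?_, ?_⟩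
        · rw [pre_length]; exact (le_max_left _ _).trans ht'
        · rw [pre_length, pre_take Z ((le_max_left _ _).trans ht')]
          exact Code.evaln_mono ((le_max_right _ _).trans ht') hk
      cases hl : evs c p m (pre Z t') with
      | nil => rw [hl] at hmem; simp at hmem
      | cons a l => simp
    choose f hf using h1
    refine ⟨(ms.map f).foldl max 0, ?_⟩
    rw [avail, List.all_eq_true]
    intro m hm
    refine hf m _ ?_
    have : ∀ (l : List ℕ) (a b : ℕ), (a ≤ b ∨ a ∈ l) → a ≤ l.foldl max b := by
      intro l
      induction l with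
      | nil => intro a b h; simpa using h
      | cons x l ih =>
        intro a b h
        rw [List.foldl_cons]
        refine ih a _ ?_
        rcases h with h | h
        · exact Or.inl (h.trans (le_max_left _ _))
        · rcases List.mem_cons.1 h with rfl | h
          · exact Or.inl (le_max_right _ _)
          · exact Or.inr h
    exact this _ _ _ (Or.inr (List.mem_map.2 ⟨m, hm, rfl⟩))
  refine ⟨Nat.find hav, fun q hq => ?_⟩
  have hspec := Nat.find_spec hav
  rw [hit, Bool.and_eq_true, Bool.and_eq_true, decide_eq_true_eq]
  refine ⟨⟨hspec, ?_⟩, ?_⟩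
  · rw [Bool.not_eq_true', List.any_eq_false]
    intro t ht
    rw [pre_length, List.mem_range] at ht
    rw [pre_take Z ht.le]
    exact Nat.find_min hav ht
  · rw [hq, ones]
    congr 1
    refine List.filter_congr fun m hm => ?_
    rw [avail, List.all_eq_true] at hspec
    have h2 := hspec m hm
    obtain ⟨v, hv⟩ := Option.isSome_iff_exists.1 h2
    have hmem : v ∈ evs c p m (pre Z (Nat.find hav)) := List.mem_of_head? hv
    obtain ⟨s, hs, hev⟩ := mem_evs.1 hmem
    rw [pre_length] at hs
    rw [pre_take Z hs] at hev
    have h3 := (hZ m).2 s v (Code.evaln_sound hev)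
    rw [hv]
    simp only [Option.some.injEq]
    rw [decide_eq_decide]
    exact h3.symm

end Pool.Agent.H19
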