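import Mathlib
import Pool.Agent.H19.Bounded
import Pool.Agent.H19.Stems
import Pool.Agent.H19.Cardl

/-!
No boundedly non-uniform degree invariant solution to Post's problem: the proof.
-/

set_option autoImplicit false

namespace Pool.Agent.H19

open Encodable Nat.Partrec

theorem isReductionWith_hyp {c : Code} {p : ℕ} {A B : Set ℕ} (h : IsReductionWith c p A B) :
    ∀ n, (∃ s, ∃ v, v ∈ c.eval (encode ((p, n), pre (toSeq B) s))) ∧
      ∀ s v, v ∈ c.eval (encode ((p, n), pre (toSeq B) s)) → (v = 1 ↔ n ∈ A) := by
  intro n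
  obtain ⟨⟨s, hs⟩, h2⟩ := h n
  refine ⟨⟨s, _, hs⟩, fun s v hv => ?_⟩
  rw [h2 s v hv]
  by_cases hn : n ∈ A
  · simp [hn]
  · simp [hn]

theorem length_filter_range (r a : ℕ) :
    ((List.range r).filter fun i => decide (a ≤ i)).length = r - a := by
  induction r with
  | zero => simp
  | succ r ih =>
    rw [List.range_succ, List.filter_append, List.length_append, ih]
    by_cases h : a ≤ r
    · rw [List.filter_cons_of_pos (by simpa using h)]; simp; omega
    · rw [List.filter_cons_of_neg (by simpa using h)]; simp; omega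

open Classical in
theorem count_range {r C : ℕ} (hC : C ≤ r) {m : ℕ → ℕ} {B : Set ℕ}
    (h : ∀ i < r, m i ∈ B ↔ r - C ≤ i) :
    C = (((List.range r).map m).filter fun x => decide (x ∈ B)).length := by
  rw [List.filter_map, List.length_map]
  have h1 : (List.range r).filter ((fun x => decide (x ∈ B)) ∘ m) =
      (List.range r).filter fun i => decide (r - C ≤ i) := by
    refine List.filter_congr fun i hi => ?_
    rw [Function.comp_apply, decide_eq_decide]
    exact h i (List.mem_range.1 hi)
  rw [h1, length_filter_range]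
  omega

theorem bounded_nonuniform (r : Code) (P : ℕ → Bool)
    (h : ∀ X : ℕ → Bool, TuringReducible (chr {n | P n = true}) (chr {n | X n = true}) →
      TuringReducible (chr {n | X n = true}) (chr (opSet r X)) ∧
      ¬ TuringReducible (chr (opSet r X)) (chr {n | X n = true}) ∧
      ¬ TuringReducible (chr (jumpSet X)) (chr (opSet r X))) :
    ∃ X : ℕ → Bool, TuringReducible (chr {n | P n = true}) (chr {n | X n = true}) ∧
      ∀ L : List Code, ∃ (Y : ℕ → Bool) (i j : Code), {n | X n ≠ Y n}.Finite ∧
        IsReduction i {n | Y n = true} {n | X n = true} ∧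
        IsReduction j {n | X n = true} {n | Y n = true} ∧
        ∀ c ∈ L, ¬ IsReductionWith c (encode (i, j)) (opSet r Y) (opSet r X) := by
  classical
  have hXc : ∀ X : ℕ → Bool, chr {n | X n = true} = chi X := fun X => chr_eq_chi fun n => Iff.rfl
  have hA : ∀ m σ τ, σ <+: τ → cvg r m σ = true → cvg r m τ = true :=
    fun m σ τ h => cvg_mono h
  have hAc : Computable₂ (cvg r) := comp_cvg (Computable.const r) Computable.fst Computable.snd
  have hop : ∀ (Z : ℕ → Bool) n, n ∈ opSet r Z ↔ ∃ t, cvg r n (pre Z t) = true :=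
    fun Z n => exists_cvg
  have hWA : ∀ Z, chr (opSet r Z) = chi (WA (cvg r) Z) := fun Z => chr_eq_chi fun n => by
    rw [WA_iff]; exact hop Z n
  obtain ⟨X, s, m, hPX, hS⟩ := exists_stems (P := P) hA hAc (fun Z hZ => by
    rw [← hWA, ← hXc Z]
    exact (h Z (by rw [hXc, hXc]; exact hZ)).2.1)
  refine ⟨X, by rw [hXc, hXc]; exact hPX, fun L => ?_⟩
  by_contra hcon
  obtain ⟨h1, h2, h4⟩ := h X (by rw [hXc, hXc]; exact hPX)
  apply h4
  obtain ⟨Z, hZ⟩ : ∃ Z, Z = toSeq (opSet r X) := ⟨_, rfl⟩
  have hXZ : TotRec Z (fun n => if X n then 1 else 0) := by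
    refine totRec_of_turing ?_
    rw [hZ, ← hXc, ← chr_eq_toSeq]; exact h1
  obtain ⟨r₀, hr₀⟩ : ∃ n, n = L.length := ⟨_, rfl⟩
  obtain ⟨s₀, hs₀⟩ : ∃ n, n = s r₀ := ⟨_, rfl⟩
  obtain ⟨ms, hms⟩ : ∃ l : List ℕ, l = (List.range r₀).map m := ⟨_, rfl⟩
  obtain ⟨m', hm'⟩ : ∃ f : ℕ → ℕ, f = fun i => ms.getD i 0 := ⟨_, rfl⟩
  have hmm : ∀ i < r₀, m' i = m i := by
    intro i hi
    rw [hm', hms]
    simp [List.getD_eq_getElem?_getD, hi]
  have hm'c : Computable m' := by
    rw [hm']
    exact (Primrec.list_getD 0).to_comp.comp (Computable.const ms) Computable.id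
  have hS' : Sw (cvg r) X r₀ s₀ m' := by
    rw [hs₀]
    refine ⟨(hS r₀).red, fun j hj ρ h1 h2 => ?_⟩
    obtain ⟨h3, τ, h4, h5, h6⟩ := (hS r₀).sw j hj ρ h1 h2
    refine ⟨fun i hi => ?_, τ, h4, h5, ?_⟩
    · rw [hmm i (lt_of_le_of_lt hi hj)]; exact h3 i hi
    · rw [hmm j hj]; exact h6
  -- counting
  let cnt : ℕ → List Bool → ℕ := fun a x => ((dl a).filter fun n => jap n x).length
  have hcnt : Computable₂ cnt :=
    Computable.list_length.comp (comp_list_filter (g := fun (z : ℕ × List Bool) n => jap n z.2)
      (comp_dl Computable.fst) (comp_jap Computable.snd (Computable.snd.comp Computable.fst)))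
  obtain ⟨fE, hfE, hfE'⟩ := exists_uniform_code (comp_runE hAc hm'c r₀ s₀ hcnt)
  obtain ⟨fD, hfD, hfD'⟩ := exists_uniform_code (comp_runD hAc hm'c r₀ s₀ hcnt)
  -- the enumeration of the jump
  let en : ℕ → ℕ := fun t => encode ((List.range t).filter fun p => jap p (pre X t))
  have hen : TotRec Z en := by
    have h5 : Computable₂ (fun (t x : ℕ) => encode ((List.range t).filter fun p =>
        jap p ((decode (α := List Bool) x).getD []))) := by
      refine Computable.encode.comp (comp_list_filter (g := fun (z : ℕ × ℕ) p =>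
        jap p ((decode (α := List Bool) z.2).getD [])) (comp_range Computable.fst)
        (comp_jap Computable.snd (Computable.option_getD (Computable.decode.comp
          (Computable.snd.comp Computable.fst)) (Computable.const []))))
    refine ((TotRec.comp_computable₂ h5 (TotRec.ident Z) (TotRec.pre_of hXZ) :
      Nat.RecursiveIn _ _)).of_eq fun t => ?_
    simp only [encodek, Option.getD_some, en]
  have hmem : ∀ n t, n ∈ dl (en t) ↔ n < t ∧ jap n (pre X t) = true := by
    intro n t
    simp only [en, dl_encode, List.mem_filter, List.mem_range]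
  have hmono : ∀ n t t', t ≤ t' → n ∈ dl (en t) → n ∈ dl (en t') := by
    intro n t t' ht hn
    rw [hmem] at hn ⊢
    exact ⟨lt_of_lt_of_le hn.1 ht, jap_mono (pre_mono X ht) hn.2⟩
  have hInA : ∀ n, InA en n ↔ ∃ t, jap n (pre X t) = true := by
    intro n
    simp only [InA, hmem]
    constructor
    · rintro ⟨t, _, ht⟩; exact ⟨t, ht⟩
    · rintro ⟨t, ht⟩
      exact ⟨max t (n + 1), lt_of_lt_of_le (Nat.lt_succ_self n) (le_max_right _ _),
        jap_mono (pre_mono X (le_max_left _ _)) ht⟩
  have hjump : ∀ n, n ∈ jumpSet X ↔ InA en n := by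
    intro n
    rw [hInA]
    exact exists_cvg
  have hc2 : ∀ (l : List ℕ) (s : ℕ), (l.filter fun n => jap n (pre X s)).length ≤ cntA en l := by
    intro l s
    rw [cntA]
    refine (List.monotone_filter_right l ?_).length_le
    intro n hn
    exact decide_eq_true ((hInA n).2 ⟨s, hn⟩)
  have hc1 : ∀ (l : List ℕ), ∃ t, ∀ s ≥ t,
      (l.filter fun n => jap n (pre X s)).length = cntA en l := by
    intro l
    induction l with
    | nil => exact ⟨0, fun s _ => rfl⟩
    | cons n l ih =>
      obtain ⟨t, ht⟩ := ih
      by_cases hn : InA en n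
      · obtain ⟨t', ht'⟩ := (hInA n).1 hn
        refine ⟨max t t', fun s hs => ?_⟩
        rw [cntA_cons_of_mem hn, List.filter_cons_of_pos
          (p := fun n => jap n (pre X s)) (jap_mono (pre_mono X
          ((le_max_right _ _).trans hs)) ht'), List.length_cons, ht s ((le_max_left _ _).trans hs)]
      · refine ⟨t, fun s hs => ?_⟩
        have h9 : ¬ (jap n (pre X s) = true) := fun hj => hn ((hInA n).2 ⟨s, hj⟩)
        rw [List.filter_cons_of_neg (p := fun n => jap n (pre X s)) h9, ht s hs, cntA, cntA,
          List.filter_cons_of_neg (by simpa using hn)]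
  -- the search
  let e : ℕ → ℕ := fun x => if L.any (fun c => hit c (encode (fE x.unpair.1, fD x.unpair.1)) ms
    x.unpair.2.unpair.1 (pre Z x.unpair.2.unpair.2)) then 0 else 1
  have he : TotRec Z e := by
    have h5 : Computable₂ (fun (x y : ℕ) => if L.any (fun c =>
        hit c (encode (fE x.unpair.1, fD x.unpair.1)) ms x.unpair.2.unpair.1
          ((decode (α := List Bool) y).getD [])) then 0 else 1) := by
      have h6 : Computable (fun z : (ℕ × ℕ) × Code => z.1.1.unpair.1) :=
        Computable.fst.comp (Computable.unpair.comp (Computable.fst.comp Computable.fst))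
      refine comp_ite (comp_list_any (g := fun (z : ℕ × ℕ) c =>
        hit c (encode (fE z.1.unpair.1, fD z.1.unpair.1)) ms z.1.unpair.2.unpair.1
          ((decode (α := List Bool) z.2).getD [])) (Computable.const L)
        (comp_hit ms Computable.snd ?_ ?_ ?_)) (Computable.const 0) (Computable.const 1)
      · exact Computable.encode.comp (Computable.pair (hfE.comp h6) (hfD.comp h6))
      · exact Computable.fst.comp (Computable.unpair.comp (Computable.snd.comp
          (Computable.unpair.comp (Computable.fst.comp Computable.fst))))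
      · exact Computable.option_getD (Computable.decode.comp (Computable.snd.comp Computable.fst))
          (Computable.const [])
    have h7 : Computable (fun x : ℕ => x.unpair.2.unpair.2) :=
      Computable.snd.comp (Computable.unpair.comp (Computable.snd.comp Computable.unpair))
    refine ((TotRec.comp_computable₂ h5 (TotRec.ident Z)
      ((TotRec.pre Z).comp (TotRec.of_computable h7)) : Nat.RecursiveIn _ _)).of_eq fun t => ?_
    simp only [encodek, Option.getD_some, e]
  have hez : ∀ a q t, e (Nat.pair a (Nat.pair q t)) = 0 ↔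
      ∃ c ∈ L, hit c (encode (fE a, fD a)) ms q (pre Z t) = true := by
    intro a q t
    simp only [e, Nat.unpair_pair]
    rw [← List.any_eq_true]
    cases L.any fun c => hit c (encode (fE a, fD a)) ms q (pre Z t) <;> simp
  obtain ⟨d, hd, hd'⟩ := card_lemma hen hmono r₀ e he (fun l hl => by
    constructor
    · have hle : cntA en l ≤ r₀ := hl ▸ cntA_le
      obtain ⟨Y, hY1, hY2, hY3, hY4, hY5, hY6⟩ := exists_run (cnt := cnt (encode l)) hA hS'
        (C := cntA en l) (by simpa only [cnt, dl_encode] using hc1 l)
        (by simpa only [cnt, dl_encode] using hc2 l) hle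
      have hcE := hfE' (encode l) X Y hY3 hY4
      have hcD := hfD' (encode l) Y X hY5 hY6
      have hex : ∃ c ∈ L, IsReductionWith c (encode (fE (encode l), fD (encode l)))
          (opSet r Y) (opSet r X) := by
        by_contra hno
        push Not at hno
        exact hcon ⟨Y, fE (encode l), fD (encode l), hY1, isReduction_of_codeComputes hcE,
          isReduction_of_codeComputes hcD, hno⟩
      obtain ⟨c, hcL, hc⟩ := hex
      obtain ⟨t, ht⟩ := exists_hit (ms := ms) (isReductionWith_hyp hc)
      rw [← hZ] at ht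
      refine ⟨t, (hez _ _ _).2 ⟨c, hcL, ht _ ?_⟩⟩
      rw [hms]
      refine count_range hle fun i hi => ?_
      rw [hop, ← hmm i hi]
      exact hY2 i hi
    · by_contra hno
      push Not at hno
      have hno' : ∀ q, q ≤ r₀ → ∃ t, ∃ c ∈ L,
          hit c (encode (fE (encode l), fD (encode l))) ms q (pre Z t) = true := by
        intro q hq
        obtain ⟨t, ht⟩ := hno q hq
        exact ⟨t, (hez _ _ _).1 ht⟩
      choose! tt g hg1 hg2 using hno'
      have hcard : (Finset.range (r₀ + 1)).card ≤ L.toFinset.card := by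
        refine Finset.card_le_card_of_injOn g ?_ ?_
        · intro q hq
          rw [Finset.coe_range, Set.mem_Iio, Nat.lt_succ_iff] at hq
          exact List.mem_toFinset.2 (hg1 q hq)
        · intro q hq q' hq' hqq
          rw [Finset.coe_range, Set.mem_Iio, Nat.lt_succ_iff] at hq hq'
          have h5 := hg2 q hq
          have h6 := hg2 q' hq'
          rw [← hqq] at h6
          exact hit_unique h5 h6
      have h7 := L.toFinset_card_le
      rw [Finset.card_range] at hcard
      omega)
  have hfin : TuringReducible (chi (toSeq (jumpSet X))) (chi Z) := by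
    refine TotRec.turing ?_
    have h8 : TotRec Z (fun n => (fun z => if decide (z = 0) then 1 else 0) (d n)) :=
      TotRec.comp_computable (comp_ite (comp_decEq Computable.id (Computable.const 0))
        (Computable.const 1) (Computable.const 0)) hd
    refine (h8 : Nat.RecursiveIn _ _).of_eq fun n => ?_
    rw [Part.some_inj]
    refine ite_iff ?_
    rw [decide_eq_true_eq, hd', toSeq_iff, hjump]
  rw [chr_eq_toSeq, chr_eq_toSeq, ← hZ]
  exact hfin

end Pool.Agent.H19
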