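import Mathlib
import Pool.Agent.H19.Tree

/-!
Unary codes of sequences of numbers, as sequences of bits.
-/

set_option autoImplicit false

namespace Pool.Agent.H19

open Encodable Nat.Partrec

/-- The initial segment of length `s` of `Z`. -/
def preN (Z : ℕ → ℕ) (s : ℕ) : List ℕ := (List.range s).map Z

theorem preN_length (X : ℕ → ℕ) (s : ℕ) : (preN X s).length = s := by simp [preN]

theorem preN_getD (X : ℕ → ℕ) {s n : ℕ} (h : n < s) (d : ℕ) : (preN X s).getD n d = X n := by
  simp [preN, h]

theorem preN_take (X : ℕ → ℕ) {s t : ℕ} (h : t ≤ s) : (preN X s).take t = preN X t := by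
  rw [preN, preN, ← List.map_take, List.take_range, min_eq_left h]

theorem preN_mono (X : ℕ → ℕ) {s t : ℕ} (h : s ≤ t) : preN X s <+: preN X t := by
  rw [← preN_take X h]; exact List.take_prefix _ _

theorem prefix_preN_iff (X : ℕ → ℕ) {σ : List ℕ} {t : ℕ} :
    σ <+: preN X t ↔ σ.length ≤ t ∧ σ = preN X σ.length := by
  constructor
  · intro h
    have hl := h.length_le
    rw [preN_length] at hl
    refine ⟨hl, ?_⟩
    rw [List.prefix_iff_eq_take] at h
    rw [preN_take X hl] at h
    exact h
  · rintro ⟨hl, h⟩
    rw [h]; exact preN_mono X (by simpa [preN_length] using hl)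

/-- The shifted sequence. -/
def shN (k : ℕ) (Z : ℕ → ℕ) : ℕ → ℕ := fun n => Z (k + n)

theorem preN_drop (Z : ℕ → ℕ) (k s : ℕ) : (preN Z (k + s)).drop k = preN (shN k Z) s := by
  apply List.ext_getElem?
  intro n
  rw [List.getElem?_drop]
  by_cases h : n < s
  · rw [preN, preN, List.getElem?_map, List.getElem?_map, List.getElem?_range (by omega),
      List.getElem?_range h]
    rfl
  · rw [List.getElem?_eq_none (by rw [preN_length]; omega),
      List.getElem?_eq_none (by rw [preN_length]; omega)]

theorem preN_append (Z : ℕ → ℕ) (k s : ℕ) : preN Z (k + s) = preN Z k ++ preN (shN k Z) s := by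
  rw [← preN_drop, ← preN_take Z (Nat.le_add_right k s), List.take_append_drop]

/-- The unary code of a finite sequence. -/
def unl (l : List ℕ) : List Bool := l.flatMap fun a => (List.range a).map (fun _ => false) ++ [true]

theorem unl_append (l l' : List ℕ) : unl (l ++ l') = unl l ++ unl l' := by
  simp [unl, List.flatMap_append]

theorem unl_prefix {l l' : List ℕ} (h : l <+: l') : unl l <+: unl l' := by
  obtain ⟨u, rfl⟩ := h
  rw [unl_append]; exact List.prefix_append _ _

theorem length_unl (l : List ℕ) : l.length ≤ (unl l).length := by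
  induction l with
  | nil => simp
  | cons a l ih =>
    have : unl (a :: l) = unl [a] ++ unl l := unl_append [a] l
    rw [this, List.length_append, List.length_cons]
    have : 1 ≤ (unl [a]).length := by simp [unl]
    omega

theorem comp_unl {α : Type*} [Primcodable α] {f : α → List ℕ} (hf : Computable f) :
    Computable fun a => unl (f a) :=
  comp_list_flatMap (g := fun (_ : α) (a : ℕ) => (List.range a).map (fun _ => false) ++ [true]) hf
    (Computable.list_append.comp (comp_list_map (g := fun _ _ => false)
      (comp_range Computable.snd) (Computable.const false)) (Computable.const [true]))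

/-- One step of the parser. -/
def prsStep (s : List ℕ × ℕ) (b : Bool) : List ℕ × ℕ := if b then (s.1 ++ [s.2], 0) else
  (s.1, s.2 + 1)

/-- The parser. -/
def prs (σ : List Bool) : List ℕ × ℕ := σ.foldl prsStep ([], 0)

theorem prs_unl (l : List ℕ) : prs (unl l) = (l, 0) := by
  have h1 : ∀ (a : ℕ) (acc : List ℕ) (c : ℕ),
      ((List.range a).map (fun _ => false)).foldl prsStep (acc, c) = (acc, c + a) := by
    intro a
    induction a with
    | zero => intro acc c; simp
    | succ a ih =>
      intro acc c
      rw [List.range_succ, List.map_append, List.foldl_append, ih]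
      simp [prsStep, Nat.add_assoc]
  have h2 : ∀ (l acc : List ℕ), (unl l).foldl prsStep (acc, 0) = (acc ++ l, 0) := by
    intro l
    induction l with
    | nil => intro acc; simp [unl]
    | cons a l ih =>
      intro acc
      have : unl (a :: l) = unl [a] ++ unl l := unl_append [a] l
      rw [this, List.foldl_append]
      have h3 : (unl [a]).foldl prsStep (acc, 0) = (acc ++ [a], 0) := by
        simp only [unl, List.flatMap_cons, List.flatMap_nil, List.append_nil, List.foldl_append]
        rw [h1]
        simp [prsStep]
      rw [h3, ih, List.append_assoc]; rfl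
  have h3 := h2 l []
  rw [List.nil_append] at h3
  exact h3

theorem prs_prefix {σ τ : List Bool} (h : σ <+: τ) : (prs σ).1 <+: (prs τ).1 := by
  obtain ⟨u, rfl⟩ := h
  rw [prs, prs, List.foldl_append]
  generalize σ.foldl prsStep ([], 0) = s
  induction u generalizing s with
  | nil => exact List.prefix_refl _
  | cons b u ih =>
    rw [List.foldl_cons]
    refine List.IsPrefix.trans ?_ (ih (prsStep s b))
    cases b
    · simp [prsStep]
    · simp [prsStep]

theorem comp_prs {α : Type*} [Primcodable α] {f : α → List Bool} (hf : Computable f) :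
    Computable fun a => prs (f a) := by
  have h1 : Computable₂ (fun (_ : α) (p : (List ℕ × ℕ) × Bool) => prsStep p.1 p.2) := by
    refine comp_ite (c := fun x : α × ((List ℕ × ℕ) × Bool) => x.2.2)
      (Computable.snd.comp Computable.snd) (Computable.pair ?_ (Computable.const 0))
      (Computable.pair ?_ ?_)
    · exact Computable.list_append.comp (Computable.fst.comp (Computable.fst.comp
        Computable.snd)) (Computable.list_cons.comp (Computable.snd.comp (Computable.fst.comp
        Computable.snd)) (Computable.const []))
    · exact Computable.fst.comp (Computable.fst.comp Computable.snd)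
    · exact Computable.succ.comp (Computable.snd.comp (Computable.fst.comp Computable.snd))
  exact comp_list_foldl (h := fun (_ : α) (p : (List ℕ × ℕ) × Bool) => prsStep p.1 p.2) hf
    (Computable.const ([], 0)) h1

theorem exists_un (Z : ℕ → ℕ) :
    ∃ X : ℕ → Bool, ∀ k, Pool.Agent.H19.pre X (unl (preN Z k)).length = unl (preN Z k) :=
  exists_limit (fun k => unl (preN Z k)) (fun k => unl_prefix (preN_mono Z (Nat.le_succ k)))
    (fun k => by
      have := length_unl (preN Z k)
      rwa [preN_length] at this)

/-- The unary code of a sequence. -/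
noncomputable def un (Z : ℕ → ℕ) : ℕ → Bool := Classical.choose (exists_un Z)

theorem pre_un (Z : ℕ → ℕ) (k : ℕ) : pre (un Z) (unl (preN Z k)).length = unl (preN Z k) :=
  Classical.choose_spec (exists_un Z) k

theorem le_length_unl (Z : ℕ → ℕ) (k : ℕ) : k ≤ (unl (preN Z k)).length := by
  have := length_unl (preN Z k)
  rwa [preN_length] at this

theorem un_eq (Z : ℕ → ℕ) {k n : ℕ} (h : n < (unl (preN Z k)).length) :
    un Z n = (unl (preN Z k)).getD n false := by
  have h1 := pre_un Z k
  rw [← h1, pre_getD _ h]

/-- The sequence of bits with the first `k` bits deleted. -/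
def shB (k : ℕ) (X : ℕ → Bool) : ℕ → Bool := fun n => X (k + n)

theorem shB_un (Z : ℕ → ℕ) (L : ℕ) :
    shB (unl (preN Z L)).length (un Z) = un (shN L Z) := by
  funext n
  have h1 : n < (unl (preN (shN L Z) (n + 1))).length := le_length_unl _ (n + 1)
  have h2 : unl (preN Z (L + (n + 1))) = unl (preN Z L) ++ unl (preN (shN L Z) (n + 1)) := by
    rw [preN_append, unl_append]
  have h3 : (unl (preN Z L)).length + n < (unl (preN Z (L + (n + 1)))).length := by
    rw [h2, List.length_append]; omega
  rw [un_eq _ h1, shB, un_eq _ h3, h2, List.getD_append_right _ _ _ _ (Nat.le_add_right _ _)]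
  congr 1
  omega

theorem prs_pre_un (Z : ℕ → ℕ) (n : ℕ) :
    ∃ k, (prs (pre (un Z) n)).1 = preN Z k := by
  have h1 : pre (un Z) n <+: unl (preN Z n) := by
    rw [← pre_un Z n]; exact pre_mono _ (le_length_unl Z n)
  have h2 := prs_prefix h1
  rw [prs_unl] at h2
  exact ⟨_, ((prefix_preN_iff Z).1 h2).2⟩

theorem prs_pre_un' (Z : ℕ → ℕ) (k : ℕ) :
    (prs (pre (un Z) (unl (preN Z k)).length)).1 = preN Z k := by
  rw [pre_un, prs_unl]

/-- A code of the initial segment of `Z` is recursive in the unary code of `Z`. -/
theorem TotRec.preN_un {W : ℕ → Bool} (Z : ℕ → ℕ)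
    (hW : TotRec W (fun n => encode (Pool.Agent.H19.pre (un Z) n))) :
    TotRec W (fun k => encode (preN Z k)) := by
  have h1 : TotRec W (fun x => (fun (x y : ℕ) =>
      if decide (x.unpair.1 ≤ ((prs ((decode (α := List Bool) y).getD [])).1).length) then 0
        else 1) x (encode (Pool.Agent.H19.pre (un Z) x.unpair.2))) := by
    refine TotRec.comp_computable₂ (f := fun (x y : ℕ) =>
      if decide (x.unpair.1 ≤ ((prs ((decode (α := List Bool) y).getD [])).1).length) then 0
        else 1) (g := fun x => x) ?_ (TotRec.ident W)
        (hW.comp (TotRec.of_computable (Computable.snd.comp Computable.unpair)))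
    refine comp_ite (c := fun z : ℕ × ℕ => decide (z.1.unpair.1 ≤
      ((prs ((decode (α := List Bool) z.2).getD [])).1).length)) (comp_decLe
        (Computable.fst.comp (Computable.unpair.comp Computable.fst))
        (Computable.list_length.comp (Computable.fst.comp (comp_prs ?_))))
        (Computable.const 0) (Computable.const 1)
    exact Computable.option_getD (Computable.decode.comp Computable.snd) (Computable.const [])
  obtain ⟨g, hg, hg0⟩ := TotRec.find h1 (by
    intro k
    refine ⟨(unl (preN Z k)).length, ?_⟩
    simp only [Nat.unpair_pair, encodek, Option.getD_some]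
    rw [prs_pre_un', preN_length, if_pos (by simp)])
  have h2 : TotRec W (fun k => (fun (k y : ℕ) =>
      encode (((prs ((decode (α := List Bool) y).getD [])).1).take k)) k
        (encode (Pool.Agent.H19.pre (un Z) (g k)))) := by
    refine TotRec.comp_computable₂ (f := fun (k y : ℕ) =>
      encode (((prs ((decode (α := List Bool) y).getD [])).1).take k)) (g := fun x => x) ?_
      (TotRec.ident W) (hW.comp hg)
    refine Computable.encode.comp (comp_take Computable.fst (Computable.fst.comp (comp_prs ?_)))
    exact Computable.option_getD (Computable.decode.comp Computable.snd) (Computable.const [])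
  refine (h2 : Nat.RecursiveIn _ _).of_eq fun k => ?_
  have h3 := hg0 k
  simp only [Nat.unpair_pair, encodek, Option.getD_some] at h3 ⊢
  obtain ⟨k', hk'⟩ := prs_pre_un Z (g k)
  rw [hk'] at h3 ⊢
  have h4 : k ≤ k' := by
    by_contra hcon
    rw [preN_length, if_neg (by simpa using hcon)] at h3
    exact one_ne_zero h3
  rw [preN_take Z h4]

end Pool.Agent.H19
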