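import Mathlib
import Pool.Agent.H19.TreeN

/-!
The sequence along which the jump is coded into the shifted operator.
-/

set_option autoImplicit false

namespace Pool.Agent.H19

open Encodable Nat.Partrec

/-- Replace the letter of `ρ` after `σ` by `a`. -/
def rep (σ : List ℕ) (a : ℕ) (ρ : List ℕ) : List ℕ := σ ++ a :: ρ.drop (σ.length + 1)

theorem length_rep {σ ρ : List ℕ} (a : ℕ) (h : σ.length < ρ.length) :
    (rep σ a ρ).length = ρ.length := by
  simp [rep]; omega

theorem drop_rep (σ : List ℕ) (a : ℕ) (ρ : List ℕ) :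
    (rep σ a ρ).drop (σ.length + 1) = ρ.drop (σ.length + 1) := by
  have h : rep σ a ρ = (σ ++ [a]) ++ ρ.drop (σ.length + 1) := by simp [rep]
  rw [h, List.drop_append_of_le_length (by simp), List.drop_of_length_le (by simp)]
  rfl

theorem prefix_rep (σ : List ℕ) (a : ℕ) (ρ : List ℕ) : σ ++ [a] <+: rep σ a ρ := by
  refine ⟨ρ.drop (σ.length + 1), ?_⟩
  simp [rep]

theorem rep_prefix {σ ρ τ : List ℕ} (a : ℕ) (h : ρ <+: τ) (hl : σ.length < ρ.length) :
    rep σ a ρ <+: rep σ a τ := by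
  obtain ⟨u, rfl⟩ := h
  refine ⟨u, ?_⟩
  rw [rep, rep, List.append_assoc, List.cons_append,
    List.drop_append_of_le_length (Nat.succ_le_of_lt hl)]

theorem rep_rep (σ : List ℕ) (a b : ℕ) (ρ : List ℕ) : rep σ a (rep σ b ρ) = rep σ a ρ := by
  rw [rep, drop_rep]; rfl

theorem rep_self {σ ρ : List ℕ} {a : ℕ} (h : σ ++ [a] <+: ρ) : rep σ a ρ = ρ := by
  obtain ⟨u, rfl⟩ := h
  rw [rep]
  have h2 : σ.length + 1 = (σ ++ [a]).length := by simp
  rw [h2, List.drop_left]
  simp

theorem getD_rep {σ ρ : List ℕ} (a : ℕ) {p : ℕ} (hp : σ.length < p) :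
    (rep σ a ρ).getD p 0 = ρ.getD p 0 := by
  obtain ⟨q, rfl⟩ : ∃ q, p = σ.length + 1 + q := ⟨p - (σ.length + 1), by omega⟩
  rw [List.getD_eq_getElem?_getD, List.getD_eq_getElem?_getD, ← List.getElem?_drop,
    ← List.getElem?_drop, drop_rep]

theorem getD_rep_self {σ ρ : List ℕ} (a : ℕ) : (rep σ a ρ).getD σ.length 0 = a := by
  rw [rep, List.getD_append_right _ _ _ _ le_rfl]
  simp

theorem cohN_rep {D : ℕ → ℕ → Bool} {j s : ℕ} {σ ρ : List ℕ} (a : ℕ) (hs : σ.length < s)
    (h : CohN D j s ρ) : CohN D j s (rep σ a ρ) := by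
  intro p h1 h2 h3
  rw [getD_rep a (hs.trans_le h1)]
  by_cases hp : p < ρ.length
  · exact h p h1 hp h3
  · exfalso
    simp [rep] at h2
    omega

/-- The step of the construction: `x` is the state, `y` the next state, and `G` codes a switch. -/
def StepN (A : ℕ → List ℕ → Bool) (J : ℕ → List ℕ → Bool) (D : ℕ → ℕ → Bool) (n : ℕ)
    (x y : List ℕ × ℕ) : Prop :=
  ∃ (G : List ℕ) (m : ℕ), x.1.length < G.length ∧ x.1 <+: G ∧ CohN D x.2 x.1.length G ∧
    GoodN A D x.2 G (Nat.pair (x.1.length + 1) m) ∧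
    G.getD x.1.length 0 / 2 = Nat.pair m G.length ∧
    ((y.2 = x.2 ∧ G <+: y.1 ∧ CohN D x.2 G.length y.1 ∧ J n y.1 = true ∧
        A (Nat.pair (x.1.length + 1) m) y.1 = true ∧
        ∀ t, G.length ≤ t → t < y.1.length → ¬ (J n (y.1.take t) = true ∧
          A (Nat.pair (x.1.length + 1) m) (y.1.take t) = true)) ∨
      (y.2 = x.2 + 1 ∧ y.1 = G ∧
        ∀ ρ, G <+: ρ → CohN D (x.2 + 1) G.length ρ → J n ρ = false))

section

variable {A J : ℕ → List ℕ → Bool} {P : ℕ → Bool} {D : ℕ → ℕ → Bool}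
  (hA : ∀ m σ τ, σ <+: τ → A m σ = true → A m τ = true)
  (hAc : Computable₂ A) (hD : FamN A P D)
  (hinv : ∀ L m σ τ, σ.drop L = τ.drop L → A (Nat.pair L m) σ = A (Nat.pair L m) τ)
  (hJ : ∀ m σ τ, σ <+: τ → J m σ = true → J m τ = true)
  (H : ∀ (L : ℕ) (Z : ℕ → ℕ), TuringReducible (chi P) (chi (un Z)) →
      ¬ TuringReducible (chi fun m => WN A Z (Nat.pair L m)) (chi (un Z)))

include hA hAc hD hinv hJ H in
theorem exists_stepN (n : ℕ) (x : List ℕ × ℕ) : ∃ y, StepN A J D n x y := by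
  obtain ⟨σ, d⟩ := x
  obtain ⟨G₀, m, h1, h2, h3⟩ := exists_goodN hA hAc hD (e := fun m => Nat.pair (σ.length + 1) m)
    (comp_natpair (Computable.const _) Computable.id) (H (σ.length + 1)) d (σ ++ [nxt D σ 0])
  have hl0 : σ.length < G₀.length := by
    have := h1.length_le
    simp at this; omega
  let a := nxt D σ (Nat.pair m G₀.length)
  have hGl : (rep σ a G₀).length = G₀.length := length_rep a hl0
  have hgood : GoodN A D d (rep σ a G₀) (Nat.pair (σ.length + 1) m) := by
    intro ρ hρ1 hρ2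
    have hρl : G₀.length ≤ ρ.length := hGl ▸ hρ1.length_le
    have hb : rep σ (nxt D σ 0) (rep σ a G₀) = G₀ := by rw [rep_rep, rep_self h1]
    have h4 := h3 (rep σ (nxt D σ 0) ρ) (by
      have := rep_prefix (σ := σ) (nxt D σ 0) hρ1 (by omega)
      rwa [hb] at this) (cohN_rep _ hl0 (by rwa [hGl] at hρ2))
    have h5 : ∀ τ, A (Nat.pair (σ.length + 1) m) (rep σ (nxt D σ 0) τ) =
        A (Nat.pair (σ.length + 1) m) τ := fun τ => hinv _ _ _ _ (drop_rep _ _ _)
    rw [h5] at h4
    refine ⟨h4.1, ?_⟩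
    obtain ⟨τ, hτ1, hτ2, hτ3⟩ := h4.2
    have hl1 : (rep σ (nxt D σ 0) ρ).length = ρ.length := length_rep _ (by omega)
    have hρa : σ ++ [a] <+: ρ := (prefix_rep σ a G₀).trans hρ1
    refine ⟨rep σ a τ, ?_, ?_, ?_⟩
    · have := rep_prefix (σ := σ) a hτ1 (by omega)
      rwa [rep_rep, rep_self hρa] at this
    · rw [hl1] at hτ2
      exact cohN_rep _ (by omega) hτ2
    · rw [hinv _ _ _ τ (drop_rep _ _ _)]; exact hτ3
  have hcoh : CohN D (d + 1) σ.length (rep σ a G₀) := by
    intro p hp1 hp2 hp3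
    rcases hp1.eq_or_lt with rfl | hp1
    · rw [getD_rep_self]; simp [a, nxt]
    · rw [getD_rep a hp1]
      rw [hGl] at hp2
      exact h2 p (by simp; omega) hp2 hp3
  have hbase : σ.length < (rep σ a G₀).length ∧ σ <+: rep σ a G₀ ∧
      CohN D d σ.length (rep σ a G₀) ∧
      (rep σ a G₀).getD σ.length 0 / 2 = Nat.pair m (rep σ a G₀).length := by
    refine ⟨by omega, (List.prefix_append _ _).trans (prefix_rep σ a G₀),
      cohN_mono (Nat.le_succ d) le_rfl hcoh, ?_⟩
    rw [getD_rep_self, hGl]; simp [a, nxt]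
  by_cases hq : ∃ ρ, rep σ a G₀ <+: ρ ∧ CohN D (d + 1) (rep σ a G₀).length ρ ∧ J n ρ = true
  · obtain ⟨ρ, hρ1, hρ2, hρ3⟩ := hq
    obtain ⟨τ, hτ1, hτ2, hτ3⟩ := (hgood ρ hρ1 hρ2).2
    have hex : ∃ t, (rep σ a G₀).length ≤ t ∧ J n (τ.take t) = true ∧
        A (Nat.pair (σ.length + 1) m) (τ.take t) = true := by
      refine ⟨τ.length, (hρ1.trans hτ1).length_le, ?_, ?_⟩
      · rw [List.take_length]; exact hJ n _ _ hτ1 hρ3
      · rw [List.take_length]; exact hτ3
    classical
    have hsp := Nat.find_spec hex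
    have hle : Nat.find hex ≤ τ.length := Nat.find_min' hex
      ⟨(hρ1.trans hτ1).length_le, by rw [List.take_length]; exact hJ n _ _ hτ1 hρ3,
        by rw [List.take_length]; exact hτ3⟩
    refine ⟨(τ.take (Nat.find hex), d), rep σ a G₀, m, hbase.1, hbase.2.1, hbase.2.2.1, hgood,
      hbase.2.2.2, Or.inl ⟨rfl, ?_, ?_, hsp.2.1, hsp.2.2, ?_⟩⟩
    · rw [List.prefix_take_iff]
      exact ⟨hρ1.trans hτ1, hsp.1⟩
    · refine cohN_prefix (List.take_prefix _ _) ?_
      exact cohN_trans hτ1 rfl (cohN_mono (Nat.le_succ d) le_rfl hρ2) hτ2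
    · intro t ht1 ht2 ht3
      simp only [List.length_take] at ht2
      have ht4 : t < Nat.find hex := lt_of_lt_of_le ht2 (min_le_left _ _)
      simp only [List.take_take, min_eq_left ht4.le] at ht3
      exact Nat.find_min hex ht4 ⟨ht1, ht3⟩
  · push Not at hq
    refine ⟨(rep σ a G₀, d + 1), rep σ a G₀, m, hbase.1, hbase.2.1, hbase.2.2.1, hgood,
      hbase.2.2.2, Or.inr ⟨rfl, rfl, fun ρ h5 h6 => ?_⟩⟩
    simpa using hq ρ h5 h6

include hA hAc hD hinv hJ H in
theorem exists_chainN : ∃ (X : ℕ → ℕ) (S : ℕ → ℕ), TuringReducible (chi P) (chi (un X)) ∧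
    S 0 = 0 ∧ ∀ n, ∃ m ℓ, X (S n) / 2 = Nat.pair m ℓ ∧
      (((∃ t, A (Nat.pair (S n + 1) m) (preN X t) = true) ∧ (∃ t, J n (preN X t) = true) ∧
        ℓ ≤ S (n + 1) ∧ (J n (preN X (S (n + 1))) = true ∧
          A (Nat.pair (S n + 1) m) (preN X (S (n + 1))) = true) ∧
        ∀ t, ℓ ≤ t → t < S (n + 1) → ¬ (J n (preN X t) = true ∧
          A (Nat.pair (S n + 1) m) (preN X t) = true)) ∨
      ((¬ ∃ t, A (Nat.pair (S n + 1) m) (preN X t) = true) ∧ (¬ ∃ t, J n (preN X t) = true) ∧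
        S (n + 1) = ℓ)) := by
  have hst := exists_stepN (J := J) hA hAc hD hinv hJ H
  choose f hf using hst
  let st : ℕ → List ℕ × ℕ := fun n => Nat.rec ([], 1) (fun n x => f n x) n
  have hstep : ∀ n, StepN A J D n (st n) (st (n + 1)) := fun n => hf n (st n)
  have hpre : ∀ n, (st n).1 <+: (st (n + 1)).1 ∧ (st n).1.length < (st (n + 1)).1.length ∧
      (st n).2 ≤ (st (n + 1)).2 ∧ CohN D (st n).2 (st n).1.length (st (n + 1)).1 := by
    intro n
    obtain ⟨G, m, h1, h2, h3, _, _, h6 | h6⟩ := hstep n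
    · obtain ⟨h7, h8, h9, _⟩ := h6
      exact ⟨h2.trans h8, h1.trans_le h8.length_le, h7.ge, cohN_trans h8 rfl h3 h9⟩
    · obtain ⟨h7, h8, _⟩ := h6
      rw [h7, h8]
      exact ⟨h2, h1, Nat.le_succ _, h3⟩
  have hlen : ∀ n, n ≤ (st n).1.length := by
    intro n
    induction n with
    | zero => exact Nat.zero_le _
    | succ n ih => have := (hpre n).2.1; omega
  have hdm : ∀ {n k}, n ≤ k → (st n).2 ≤ (st k).2 := by
    intro n k hnk
    induction hnk with
    | refl => exact le_rfl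
    | step _ ih => exact ih.trans (hpre _).2.2.1
  have hcoh : ∀ n k, n ≤ k → CohN D (st n).2 (st n).1.length (st k).1 := by
    intro n k hnk
    induction hnk with
    | refl => exact cohN_self _
    | step hnk ih =>
      exact cohN_trans (hpre _).1 rfl ih (cohN_mono (hdm hnk) le_rfl (hpre _).2.2.2)
  obtain ⟨X, hX⟩ := exists_limitN (fun n => (st n).1) (fun n => (hpre n).1) hlen
  have hXc : ∀ n p, (st n).1.length ≤ p → col p < (st n).2 → bitN (X p) = D (col p) (idx p) := by
    intro n p hp1 hp2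
    have h1 : p < (st (max n (p + 1))).1.length :=
      lt_of_lt_of_le (Nat.lt_succ_self p) ((le_max_right n (p + 1)).trans (hlen _))
    have h2 := hcoh n (max n (p + 1)) (le_max_left _ _) p hp1 h1 hp2
    rw [← hX (max n (p + 1)), preN_getD X h1] at h2
    exact h2
  refine ⟨X, fun n => (st n).1.length, ?_, rfl, fun n => ?_⟩
  · exact par_leN hD (s := (st 0).1.length) fun p hp1 hp2 => hXc 0 p hp1 hp2
  · obtain ⟨G, m, h1, h2, h3, h4, h5, h6⟩ := hstep n
    have hXG : preN X G.length = G := by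
      have hG : G <+: (st (n + 1)).1 := by
        rcases h6 with h6 | h6
        · exact h6.2.1
        · rw [h6.2.1]
      rw [← hX (n + 1), prefix_preN_iff] at hG
      exact hG.2.symm
    refine ⟨m, G.length, ?_, ?_⟩
    · have h14 := preN_getD X h1 0
      rw [hXG] at h14
      rw [← h5, h14]
    · rcases h6 with ⟨h7, h8, h9, h10, h11, h12⟩ | ⟨h7, h8, h9⟩
      · left
        have hx : preN X (st (n + 1)).1.length = (st (n + 1)).1 := hX (n + 1)
        refine ⟨⟨_, by rw [hx]; exact h11⟩, ⟨_, by rw [hx]; exact h10⟩, h8.length_le,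
          ⟨by rw [hx]; exact h10, by rw [hx]; exact h11⟩, fun t ht1 ht2 => ?_⟩
        have := h12 t ht1 ht2
        rwa [← hx, preN_take X ht2.le] at this
      · right
        have hc : ∀ t, G.length ≤ t → CohN D ((st n).2 + 1) G.length (preN X t) := by
          intro t _ p hp1 hp2 hp3
          rw [preN_length] at hp2
          rw [preN_getD X hp2]
          refine hXc (n + 1) p ?_ ?_
          · show (st (n + 1)).1.length ≤ p
            rw [h8]; exact hp1
          · show col p < (st (n + 1)).2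
            rw [h7]; exact hp3
        have hGt : ∀ t, G.length ≤ t → G <+: preN X t := by
          intro t ht
          have := preN_mono X ht
          rwa [hXG] at this
        refine ⟨?_, ?_, congrArg List.length h8⟩
        · rintro ⟨t, ht⟩
          have h13 := hA _ _ _ (preN_mono X (le_max_left t G.length)) ht
          rw [(h4 _ (hGt _ (le_max_right t G.length)) (hc _ (le_max_right t G.length))).1] at h13
          exact Bool.false_ne_true h13
        · rintro ⟨t, ht⟩
          have h13 := hJ _ _ _ (preN_mono X (le_max_left t G.length)) ht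
          rw [h9 _ (hGt _ (le_max_right t G.length)) (hc _ (le_max_right t G.length))] at h13
          exact Bool.false_ne_true h13

end

end Pool.Agent.H19
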