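import Mathlib
import Pool.Agent.H19.Bounded
import Pool.Agent.H19.ChainN

/-!
Iterating a reduction along a sequence of oracles.
-/

set_option autoImplicit false

namespace Pool.Agent.H19

open Encodable Nat.Partrec

/-- The values of `c` at `m` seen on initial segments of `σ`. -/
def ev1 (c : Code) (m : ℕ) (σ : List Bool) : List ℕ :=
  (List.range (σ.length + 1)).flatMap fun s =>
    (Code.evaln σ.length c (encode (m, σ.take s))).toList

theorem mem_ev1 {c : Code} {m : ℕ} {σ : List Bool} {v : ℕ} : v ∈ ev1 c m σ ↔
    ∃ s ≤ σ.length, v ∈ Code.evaln σ.length c (encode (m, σ.take s)) := by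
  simp only [ev1, List.mem_flatMap, List.mem_range, Nat.lt_succ_iff, Option.mem_toList,
    Option.mem_def]

theorem comp_ev1 {α : Type*} [Primcodable α] {c : α → Code} {m : α → ℕ} {σ : α → List Bool}
    (hc : Computable c) (hm : Computable m) (hσ : Computable σ) :
    Computable fun a => ev1 (c a) (m a) (σ a) := by
  have hl : Computable fun a => (σ a).length := Computable.list_length.comp hσ
  refine comp_list_flatMap (g := fun a s =>
    (Code.evaln (σ a).length (c a) (encode (m a, (σ a).take s))).toList)
    (comp_range (Computable.succ.comp hl)) ?_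
  refine comp_toList ?_
  refine (Nat.Partrec.Code.primrec_evaln.to_comp).comp (Computable.pair (Computable.pair
    (hl.comp Computable.fst) (hc.comp Computable.fst)) (Computable.encode.comp ?_))
  exact (hm.comp Computable.fst).pair (comp_take Computable.snd (hσ.comp Computable.fst))

theorem filter_range_down (p : ℕ → Bool) (hp : ∀ i j, i ≤ j → p j = true → p i = true) (N : ℕ) :
    (List.range N).filter p = List.range ((List.range N).filter p).length := by
  induction N with
  | zero => rfl
  | succ N ih =>
    rw [List.range_succ, List.filter_append]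
    by_cases h : p N = true
    · have h1 : (List.range N).filter p = List.range N := by
        rw [List.filter_eq_self]
        intro a ha
        exact hp a N (List.mem_range.1 ha).le h
      rw [h1, List.filter_cons_of_pos h]
      simp [List.range_succ]
    · rw [List.filter_cons_of_neg h, List.filter_nil, List.append_nil]
      exact ih

/-- The values at `0, …, i` have been found. -/
def fnd1 (c : Code) (σ : List Bool) (i : ℕ) : Bool :=
  (List.range (i + 1)).all fun j => (ev1 c j σ).head?.isSome

/-- The longest initial segment of the values found. -/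
def app1 (c : Code) (σ : List Bool) : List Bool :=
  (List.range ((List.range σ.length).filter (fnd1 c σ)).length).map fun i =>
    decide ((ev1 c i σ).head? = some 1)

theorem fnd1_down {c : Code} {σ : List Bool} (i j : ℕ) (hij : i ≤ j) (h : fnd1 c σ j = true) :
    fnd1 c σ i = true := by
  rw [fnd1, List.all_eq_true] at h ⊢
  intro x hx
  exact h x (List.mem_range.2 (by have := List.mem_range.1 hx; omega))

theorem app1_spec {c : Code} {Z B : ℕ → Bool} (h : CodeComputes c Z B) (t : ℕ) :
    app1 c (pre Z t) = pre B (app1 c (pre Z t)).length := by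
  rw [app1, List.length_map, List.length_range]
  show _ = (List.range _).map B
  refine List.map_congr_left fun i hi => ?_
  have h1 : i ∈ (List.range (pre Z t).length).filter (fnd1 c (pre Z t)) := by
    rw [filter_range_down _ fnd1_down]; exact hi
  have h2 := (List.mem_filter.1 h1).2
  rw [fnd1, List.all_eq_true] at h2
  obtain ⟨v, hv⟩ := Option.isSome_iff_exists.1 (h2 i (List.mem_range.2 (Nat.lt_succ_self i)))
  obtain ⟨s, hs, hev⟩ := mem_ev1.1 (List.mem_of_head? hv)
  rw [pre_length] at hs
  rw [pre_take Z hs] at hev
  have h3 := h.1 i s v (Code.evaln_sound hev)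
  rw [hv, h3]
  cases B i <;> simp

theorem app1_long {c : Code} {Z B : ℕ → Bool} (h : CodeComputes c Z B) (n : ℕ) :
    ∃ t₀, ∀ t ≥ t₀, n ≤ (app1 c (pre Z t)).length := by
  have h1 : ∀ m, ∃ t, ∀ t' ≥ t, (ev1 c m (pre Z t')).head?.isSome = true := by
    intro m
    obtain ⟨s, hv⟩ := h.2 m
    obtain ⟨k, hk⟩ := Code.evaln_complete.1 hv
    refine ⟨max s k, fun t' ht' => ?_⟩
    have hmem : (if B m then 1 else 0) ∈ ev1 c m (pre Z t') := by
      refine mem_ev1.2 ⟨s, ?_, ?_⟩
      · rw [pre_length]; exact (le_max_left _ _).trans ht'
      · rw [pre_length, pre_take Z ((le_max_left _ _).trans ht')]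
        exact Code.evaln_mono ((le_max_right _ _).trans ht') hk
    cases hl : ev1 c m (pre Z t') with
    | nil => rw [hl] at hmem; simp at hmem
    | cons a l => simp
  choose f hf using h1
  refine ⟨max n ((Finset.range n).sup f), fun t ht => ?_⟩
  rw [app1, List.length_map, List.length_range]
  have h2 : (List.range n).length ≤
      ((List.range (pre Z t).length).filter (fnd1 c (pre Z t))).length := by
    refine (List.Nodup.subperm (List.nodup_range) ?_).length_le
    intro i hi
    rw [List.mem_range] at hi
    rw [List.mem_filter, pre_length]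
    refine ⟨List.mem_range.2 (hi.trans_le ((le_max_left _ _).trans ht)), ?_⟩
    rw [fnd1, List.all_eq_true]
    intro j hj
    rw [List.mem_range] at hj
    refine hf j t (le_trans ?_ ((le_max_right _ _).trans ht))
    exact Finset.le_sup (f := f) (Finset.mem_range.2 (by omega))
  rwa [List.length_range] at h2

theorem comp_app1 (c : Code) : Computable (app1 c) := by
  have h1 : Computable₂ (fun (σ : List Bool) (i : ℕ) => fnd1 c σ i) :=
    comp_list_all (g := fun (z : List Bool × ℕ) j => (ev1 c j z.1).head?.isSome)
      (comp_range (Computable.succ.comp Computable.snd))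
      ((Primrec.option_isSome.to_comp).comp (comp_head (comp_ev1 (Computable.const c)
        Computable.snd (Computable.fst.comp Computable.fst))))
  refine comp_list_map (g := fun (σ : List Bool) i => decide ((ev1 c i σ).head? = some 1))
    (comp_range (Computable.list_length.comp (comp_list_filter
      (comp_range (Computable.list_length.comp Computable.id)) h1))) ?_
  exact comp_decEq (comp_head (comp_ev1 (Computable.const c) Computable.snd Computable.fst))
    (Computable.const _)

/-- The iterated reduction on strings. -/
def itr (c : Code) (i : ℕ) (σ : List Bool) : List Bool :=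
  Nat.rec σ (fun _ IH => app1 c IH) i

theorem comp_itr (c : Code) : Computable₂ (itr c) :=
  Computable.nat_rec (f := fun z : ℕ × List Bool => z.1) (g := fun z => z.2)
    (h := fun _ p => app1 c p.2) Computable.fst Computable.snd
    ((comp_app1 c).comp (Computable.snd.comp Computable.snd))

theorem itr_spec {c : Code} {S : ℕ → ℕ → Bool} (h : ∀ i, CodeComputes c (S i) (S (i + 1)))
    (i : ℕ) : (∀ t, itr c i (pre (S 0) t) = pre (S i) (itr c i (pre (S 0) t)).length) ∧
      ∀ n, ∃ t₀, ∀ t ≥ t₀, n ≤ (itr c i (pre (S 0) t)).length := by
  induction i with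
  | zero =>
    refine ⟨fun t => ?_, fun n => ⟨n, fun t ht => ?_⟩⟩
    · show pre (S 0) t = pre (S 0) (pre (S 0) t).length
      rw [pre_length]
    · show n ≤ (pre (S 0) t).length
      rwa [pre_length]
  | succ i ih =>
    have h0 : ∀ σ, itr c (i + 1) σ = app1 c (itr c i σ) := fun σ => rfl
    refine ⟨fun t => ?_, fun n => ?_⟩
    · rw [h0, ih.1 t]
      exact app1_spec (h i) _
    · obtain ⟨t₁, ht₁⟩ := app1_long (h i) n
      obtain ⟨t₀, ht₀⟩ := ih.2 t₁
      refine ⟨t₀, fun t ht => ?_⟩
      rw [h0, ih.1 t]
      exact ht₁ _ (ht₀ t ht)

/-- A uniform reduction can be iterated. -/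
theorem totRec_itr {c : Code} {S : ℕ → ℕ → Bool} (h : ∀ i, CodeComputes c (S i) (S (i + 1))) :
    TotRec (S 0) (fun x => if S x.unpair.1 x.unpair.2 then 1 else 0) := by
  have h1 : TotRec (S 0) (fun x => (fun (x y : ℕ) =>
      if decide (x.unpair.1.unpair.2 < (itr c x.unpair.1.unpair.1
        ((decode (α := List Bool) y).getD [])).length) then 0 else 1) x
          (encode (Pool.Agent.H19.pre (S 0) x.unpair.2))) := by
    refine TotRec.comp_computable₂ (f := fun (x y : ℕ) =>
      if decide (x.unpair.1.unpair.2 < (itr c x.unpair.1.unpair.1
        ((decode (α := List Bool) y).getD [])).length) then 0 else 1) (g := fun x => x) ?_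
        (TotRec.ident _) ((TotRec.pre (S 0)).comp (TotRec.of_computable
          (Computable.snd.comp Computable.unpair)))
    have h2 : Computable (fun z : ℕ × ℕ => z.1.unpair.1.unpair) :=
      Computable.unpair.comp (Computable.fst.comp (Computable.unpair.comp Computable.fst))
    refine comp_ite (c := fun z : ℕ × ℕ => decide (z.1.unpair.1.unpair.2 <
      (itr c z.1.unpair.1.unpair.1 ((decode (α := List Bool) z.2).getD [])).length))
      (comp_decLt (Computable.snd.comp h2) (Computable.list_length.comp
        ((comp_itr c).comp (Computable.fst.comp h2) ?_))) (Computable.const 0)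
      (Computable.const 1)
    exact Computable.option_getD (Computable.decode.comp Computable.snd) (Computable.const [])
  obtain ⟨g, hg, hg0⟩ := TotRec.find h1 (by
    intro x
    obtain ⟨t₀, ht₀⟩ := (itr_spec h x.unpair.1).2 (x.unpair.2 + 1)
    refine ⟨t₀, ?_⟩
    have := ht₀ t₀ le_rfl
    simp only [Nat.unpair_pair, encodek, Option.getD_some]
    rw [if_pos]
    rw [decide_eq_true_eq]
    omega)
  have h3 : TotRec (S 0) (fun x => (fun (x y : ℕ) =>
      if (itr c x.unpair.1 ((decode (α := List Bool) y).getD [])).getD x.unpair.2 false
        then 1 else 0) x (encode (Pool.Agent.H19.pre (S 0) (g x)))) := by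
    refine TotRec.comp_computable₂ (f := fun (x y : ℕ) =>
      if (itr c x.unpair.1 ((decode (α := List Bool) y).getD [])).getD x.unpair.2 false
        then 1 else 0) (g := fun x => x) ?_ (TotRec.ident _) ((TotRec.pre (S 0)).comp hg)
    refine comp_ite (c := fun z : ℕ × ℕ => (itr c z.1.unpair.1
      ((decode (α := List Bool) z.2).getD [])).getD z.1.unpair.2 false)
      (comp_getD ((comp_itr c).comp (Computable.fst.comp (Computable.unpair.comp
        Computable.fst)) ?_) (Computable.snd.comp (Computable.unpair.comp Computable.fst)))
      (Computable.const 1) (Computable.const 0)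
    exact Computable.option_getD (Computable.decode.comp Computable.snd) (Computable.const [])
  refine (h3 : Nat.RecursiveIn _ _).of_eq fun x => ?_
  have h4 := hg0 x
  simp only [Nat.unpair_pair, encodek, Option.getD_some] at h4 ⊢
  have h5 : x.unpair.2 < (itr c x.unpair.1 (Pool.Agent.H19.pre (S 0) (g x))).length := by
    by_contra hcon
    rw [if_neg (by simpa using hcon)] at h4
    exact one_ne_zero h4
  rw [(itr_spec h x.unpair.1).1 (g x), pre_getD _ h5]

/-! ### Shifted oracles -/

theorem totRec_shB (k : ℕ) (Y : ℕ → Bool) : TotRec Y (fun n => if shB k Y n then 1 else 0) := by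
  have h1 := (TotRec.oracle Y).comp (TotRec.of_computable (Z := Y)
    (f := fun n => k + n) (Primrec.nat_add.to_comp.comp (Computable.const k) Computable.id))
  exact h1

theorem le_shB (k : ℕ) (Y : ℕ → Bool) : TuringReducible (chi Y) (chi (shB k Y)) := by
  have h1 : TotRec (shB k Y) (fun n => (fun (n y : ℕ) =>
      if decide (n < k) then (if (pre Y k).getD n false then 1 else 0) else y) n
        ((fun m => if shB k Y m then 1 else 0) (n - k))) := by
    refine TotRec.comp_computable₂ (f := fun (n y : ℕ) =>
      if decide (n < k) then (if (pre Y k).getD n false then 1 else 0) else y) (g := fun n => n)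
      ?_ (TotRec.ident _) ((TotRec.oracle (shB k Y)).comp (TotRec.of_computable
        (Primrec.nat_sub.to_comp.comp Computable.id (Computable.const k))))
    refine comp_ite (c := fun z : ℕ × ℕ => decide (z.1 < k)) (comp_decLt Computable.fst
      (Computable.const k)) (comp_ite (c := fun z : ℕ × ℕ => (pre Y k).getD z.1 false)
        (comp_getD (Computable.const _) Computable.fst) (Computable.const 1)
        (Computable.const 0)) Computable.snd
  refine TotRec.turing ((h1 : Nat.RecursiveIn _ _).of_eq fun n => ?_)
  by_cases hn : n < k
  · simp only [hn, decide_true, if_true]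
    rw [pre_getD Y hn]
  · have h2 : shB k Y (n - k) = Y n := by rw [shB, show k + (n - k) = n by omega]
    simp only [hn, decide_false, Bool.false_eq_true, if_false, h2]

theorem shB_shB (i k : ℕ) (Y : ℕ → Bool) : shB i (shB k Y) = shB (k + i) Y := by
  funext n; simp [shB, Nat.add_assoc]

end Pool.Agent.H19
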