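import Mathlib
import Pool.Agent.H19.Iter

/-!
A solution to Post's problem is not uniformly invariant under the deletion of the first bit.
-/

set_option autoImplicit false

namespace Pool.Agent.H19

open Encodable Nat.Partrec

/-- Stage approximations to the operator with code `r` at the shifts of a sequence. -/
def opN (r : Code) (x : ℕ) (σ : List ℕ) : Bool := cvg r x.unpair.2 (unl (σ.drop x.unpair.1))

/-- Stage approximations to the jump. -/
def jpN (n : ℕ) (σ : List ℕ) : Bool := jap n (unl σ)

theorem exists_cvgN {c : Code} {m : ℕ} {Z : ℕ → ℕ} :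
    (∃ t, cvg c m (unl (preN Z t)) = true) ↔ ∃ s, cvg c m (pre (un Z) s) = true := by
  constructor
  · rintro ⟨t, ht⟩
    exact ⟨(unl (preN Z t)).length, by rw [pre_un]; exact ht⟩
  · rintro ⟨s, hs⟩
    refine ⟨s, cvg_mono ?_ hs⟩
    rw [← pre_un Z s]
    exact pre_mono _ (le_length_unl Z s)

theorem preN_drop' (Z : ℕ → ℕ) (k t : ℕ) : (preN Z t).drop k = preN (shN k Z) (t - k) := by
  rcases le_total k t with h | h
  · obtain ⟨s, rfl⟩ := Nat.exists_eq_add_of_le h
    rw [preN_drop, Nat.add_sub_cancel_left]
  · rw [List.drop_of_length_le (by rw [preN_length]; exact h), Nat.sub_eq_zero_of_le h]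
    rfl

theorem opN_iff {r : Code} {L m : ℕ} {Z : ℕ → ℕ} :
    (∃ t, opN r (Nat.pair L m) (preN Z t) = true) ↔ m ∈ opSet r (un (shN L Z)) := by
  have h1 : m ∈ opSet r (un (shN L Z)) ↔ ∃ t, cvg r m (pre (un (shN L Z)) t) = true := exists_cvg
  rw [h1, ← exists_cvgN]
  simp only [opN, Nat.unpair_pair, preN_drop']
  constructor
  · rintro ⟨t, ht⟩; exact ⟨_, ht⟩
  · rintro ⟨t, ht⟩; exact ⟨t + L, by rw [Nat.add_sub_cancel]; exact ht⟩

theorem jpN_iff {n : ℕ} {Z : ℕ → ℕ} :
    (∃ t, jpN n (preN Z t) = true) ↔ n ∈ jumpSet (un Z) := by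
  have h1 : n ∈ jumpSet (un Z) ↔ ∃ t, jap n (pre (un Z) t) = true := exists_cvg
  rw [h1]
  exact exists_cvgN

theorem opN_mono {r : Code} (x : ℕ) (σ τ : List ℕ) (h : σ <+: τ) (hx : opN r x σ = true) :
    opN r x τ = true := by
  refine cvg_mono (unl_prefix ?_) hx
  obtain ⟨u, rfl⟩ := h
  rw [List.drop_append]
  exact List.prefix_append _ _

theorem jpN_mono (x : ℕ) (σ τ : List ℕ) (h : σ <+: τ) (hx : jpN x σ = true) :
    jpN x τ = true := jap_mono (unl_prefix h) hx

theorem comp_opN {α : Type*} [Primcodable α] (r : Code) {x : α → ℕ} {σ : α → List ℕ}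
    (hx : Computable x) (hσ : Computable σ) : Computable fun a => opN r (x a) (σ a) :=
  comp_cvg (Computable.const r) (Computable.snd.comp (Computable.unpair.comp hx))
    (comp_unl (comp_drop (Computable.fst.comp (Computable.unpair.comp hx)) hσ))

theorem comp_jpN {α : Type*} [Primcodable α] {x : α → ℕ} {σ : α → List ℕ}
    (hx : Computable x) (hσ : Computable σ) : Computable fun a => jpN (x a) (σ a) :=
  comp_jap hx (comp_unl hσ)

/-- The jump and the switch have both changed. -/
def both (r : Code) (n s m : ℕ) (σ : List ℕ) : Bool := jpN n σ && opN r (Nat.pair (s + 1) m) σ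

theorem comp_both {α : Type*} [Primcodable α] (r : Code) {n s m : α → ℕ} {σ : α → List ℕ}
    (hn : Computable n) (hs : Computable s) (hm : Computable m) (hσ : Computable σ) :
    Computable fun a => both r (n a) (s a) (m a) (σ a) :=
  comp_and (comp_jpN hn hσ) (comp_opN r (comp_natpair (Computable.succ.comp hs) hm) hσ)

/-- The test for the next position. -/
def chk (r : Code) (n s s' b : ℕ) (ρ : List ℕ) : Bool :=
  if decide (b = 1) then
    (decide ((ρ.getD s 0 / 2).unpair.2 ≤ s') && both r n s (ρ.getD s 0 / 2).unpair.1 (ρ.take s'))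
      && (List.range s').all fun t => !(decide ((ρ.getD s 0 / 2).unpair.2 ≤ t) &&
        both r n s (ρ.getD s 0 / 2).unpair.1 (ρ.take t))
  else decide (s' = (ρ.getD s 0 / 2).unpair.2)

theorem comp_chk {α : Type*} [Primcodable α] (r : Code) {n s s' b : α → ℕ} {ρ : α → List ℕ}
    (hn : Computable n) (hs : Computable s) (hs' : Computable s') (hb : Computable b)
    (hρ : Computable ρ) : Computable fun a => chk r (n a) (s a) (s' a) (b a) (ρ a) := by
  have h1 : Computable fun a => ((ρ a).getD (s a) 0 / 2).unpair :=
    Computable.unpair.comp (comp_div ((Primrec.list_getD 0).to_comp.comp hρ hs)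
      (Computable.const 2))
  have h2 := Computable.fst.comp h1
  have h3 := Computable.snd.comp h1
  refine comp_ite (c := fun a => decide (b a = 1)) (comp_decEq hb (Computable.const 1))
    (comp_and (comp_and (comp_decLe h3 hs') (comp_both r hn hs h2 (comp_take hs' hρ))) ?_)
    (comp_decEq hs' h3)
  refine comp_list_all (g := fun a t => !(decide (((ρ a).getD (s a) 0 / 2).unpair.2 ≤ t) &&
    both r (n a) (s a) ((ρ a).getD (s a) 0 / 2).unpair.1 ((ρ a).take t))) (comp_range hs') ?_
  exact comp_not (comp_and (comp_decLe (h3.comp Computable.fst) Computable.snd)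
    (comp_both r (hn.comp Computable.fst) (hs.comp Computable.fst) (h2.comp Computable.fst)
      (comp_take Computable.snd (hρ.comp Computable.fst))))

theorem not_uniform_shift (r : Code) (P : ℕ → Bool)
    (h : ∀ X : ℕ → Bool, TuringReducible (chr {n | P n = true}) (chr {n | X n = true}) →
      TuringReducible (chr {n | X n = true}) (chr (opSet r X)) ∧
      ¬ TuringReducible (chr (opSet r X)) (chr {n | X n = true}) ∧
      ¬ TuringReducible (chr (jumpSet X)) (chr (opSet r X))) (c : Code) :
    ∃ X : ℕ → Bool, TuringReducible (chr {n | P n = true}) (chr {n | X n = true}) ∧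
      ¬ IsReduction c (opSet r (shB 1 X)) (opSet r X) := by
  classical
  by_contra hcon
  have hXc : ∀ X : ℕ → Bool, chr {n | X n = true} = chi X := fun X => chr_eq_chi fun n => Iff.rfl
  simp only [hXc, chr_eq_toSeq] at h
  have hc : ∀ X : ℕ → Bool, TuringReducible (chi P) (chi X) →
      CodeComputes c (toSeq (opSet r X)) (toSeq (opSet r (shB 1 X))) := by
    intro X hX
    by_contra hno
    refine hcon ⟨X, by rw [hXc, hXc]; exact hX, fun hred => hno ⟨fun n s v hv => ?_, fun n => ?_⟩⟩
    · rw [(hred n).2 s v hv]; exact @ite_iff _ _ (_) (_) toSeq_iff.symm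
    · obtain ⟨s, hs⟩ := (hred n).1
      refine ⟨s, ?_⟩
      convert hs using 1
      exact @ite_iff _ _ (_) (_) toSeq_iff
  -- the operator enumerated along a sequence of numbers
  have hWN : ∀ (L : ℕ) (Z : ℕ → ℕ), (fun m => WN (opN r) Z (Nat.pair L m)) =
      toSeq (opSet r (un (shN L Z))) := by
    intro L Z
    funext m
    rw [Bool.eq_iff_iff, WN_iff, toSeq_iff, opN_iff]
  have hH : ∀ (L : ℕ) (Z : ℕ → ℕ), TuringReducible (chi P) (chi (un Z)) →
      ¬ TuringReducible (chi fun m => WN (opN r) Z (Nat.pair L m)) (chi (un Z)) := by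
    intro L Z hPZ hle
    rw [hWN, ← shB_un] at hle
    have h1 := le_shB (unl (preN Z L)).length (un Z)
    exact (h _ (hPZ.trans h1)).2.1 (hle.trans h1)
  obtain ⟨D, hD⟩ := exists_famN (opN r) P
  obtain ⟨X, S, hPX, hS0, hS⟩ := exists_chainN (J := jpN) opN_mono
    (comp_opN r Computable.fst Computable.snd) hD
    (fun L m σ τ hστ => by simp only [opN, Nat.unpair_pair, hστ]) jpN_mono hH
  choose m ℓ hml hcase using hS
  obtain ⟨hX1, _, hX3⟩ := h (un X) hPX
  apply hX3
  obtain ⟨W, hW⟩ : ∃ W, W = toSeq (opSet r (un X)) := ⟨_, rfl⟩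
  rw [← hW] at hX1 ⊢
  have hpreB : TotRec W (fun n => encode (Pool.Agent.H19.pre (un X) n)) :=
    TotRec.pre_of (totRec_of_turing hX1)
  have hpreN : TotRec W (fun k => encode (preN X k)) := TotRec.preN_un X hpreB
  -- the operator at the shifts
  have hP' : ∀ i, TuringReducible (chi P) (chi (shB i (un X))) := fun i => hPX.trans (le_shB i _)
  have hsh0 : shB 0 (un X) = un X := by funext n; simp [shB]
  have hit := totRec_itr (c := c) (S := fun i => toSeq (opSet r (shB i (un X)))) (fun i => by
    have := hc _ (hP' i)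
    rwa [shB_shB] at this)
  simp only [hsh0, ← hW] at hit
  have hv : ∀ {f g : ℕ → ℕ}, TotRec W f → TotRec W g →
      TotRec W (fun x => if toSeq (opSet r (un (shN (f x) X))) (g x) then 1 else 0) := by
    intro f g hf hg
    have h1 : TotRec W (fun x => (unl (preN X (f x))).length) := by
      have h2 := TotRec.comp_computable (Z := W)
        (f := fun y : ℕ => (unl ((decode (α := List ℕ) y).getD [])).length)
        (Computable.list_length.comp (comp_unl (Computable.option_getD Computable.decode
          (Computable.const [])))) (hpreN.comp hf)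
      refine (h2 : Nat.RecursiveIn _ _).of_eq fun x => ?_
      simp
    refine ((hit.comp (h1.pair hg) : Nat.RecursiveIn _ _)).of_eq fun x => ?_
    simp only [Nat.unpair_pair, shB_un]
  -- letters
  have hlet : ∀ {f : ℕ → ℕ}, TotRec W f → TotRec W (fun x => (X (f x) / 2).unpair.1) := by
    intro f hf
    have h2 : Computable₂ (fun (s y : ℕ) =>
        ((((decode (α := List ℕ) y).getD []).getD s 0) / 2).unpair.1) :=
      Computable.fst.comp (Computable.unpair.comp (comp_div ((Primrec.list_getD 0).to_comp.comp
        (Computable.option_getD (Computable.decode.comp Computable.snd) (Computable.const []))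
          Computable.fst) (Computable.const 2)))
    refine ((TotRec.comp_computable₂ h2 hf (hpreN.comp (TotRec.comp_computable Computable.succ
      hf)) : Nat.RecursiveIn _ _)).of_eq fun x => ?_
    simp only [encodek, Option.getD_some]
    rw [preN_getD _ (Nat.lt_succ_self _)]
  -- the test
  have hun1 : Computable (fun q : ℕ => q.unpair.1.unpair.2.unpair.1) :=
    Computable.fst.comp (Computable.unpair.comp (Computable.snd.comp (Computable.unpair.comp
      (Computable.fst.comp Computable.unpair))))
  have hun2 : Computable (fun q : ℕ => q.unpair.1.unpair.2.unpair.2) :=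
    Computable.snd.comp (Computable.unpair.comp (Computable.snd.comp (Computable.unpair.comp
      (Computable.fst.comp Computable.unpair))))
  have hun3 : Computable (fun q : ℕ => q.unpair.2) := Computable.snd.comp Computable.unpair
  have hun4 : Computable (fun q : ℕ => q.unpair.1.unpair.2.unpair.2 + q.unpair.2 + 1) :=
    Computable.succ.comp (Primrec.nat_add.to_comp.comp hun2 hun3)
  have hb : TotRec W (fun q => if toSeq (opSet r (un (shN (q.unpair.1.unpair.2.unpair.2 + 1) X)))
      ((X q.unpair.1.unpair.2.unpair.2 / 2).unpair.1) then 1 else 0) :=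
    hv (TotRec.of_computable (Computable.succ.comp hun2)) (hlet (TotRec.of_computable hun2))
  have htest : TotRec W (fun q => (fun (q z : ℕ) =>
      if chk r q.unpair.1.unpair.2.unpair.1 q.unpair.1.unpair.2.unpair.2 q.unpair.2
        z.unpair.1 ((decode (α := List ℕ) z.unpair.2).getD []) then 0 else 1) q
      (Nat.pair (if toSeq (opSet r (un (shN (q.unpair.1.unpair.2.unpair.2 + 1) X)))
        ((X q.unpair.1.unpair.2.unpair.2 / 2).unpair.1) then 1 else 0)
        (encode (preN X (q.unpair.1.unpair.2.unpair.2 + q.unpair.2 + 1))))) := by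
    refine TotRec.comp_computable₂ (f := fun (q z : ℕ) =>
      if chk r q.unpair.1.unpair.2.unpair.1 q.unpair.1.unpair.2.unpair.2 q.unpair.2
        z.unpair.1 ((decode (α := List ℕ) z.unpair.2).getD []) then 0 else 1) (g := fun q => q)
      ?_ (TotRec.ident _) (hb.pair (hpreN.comp (TotRec.of_computable hun4)))
    refine comp_ite (c := fun y : ℕ × ℕ => chk r y.1.unpair.1.unpair.2.unpair.1
      y.1.unpair.1.unpair.2.unpair.2 y.1.unpair.2 y.2.unpair.1
      ((decode (α := List ℕ) y.2.unpair.2).getD [])) (comp_chk r (hun1.comp Computable.fst)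
        (hun2.comp Computable.fst) (hun3.comp Computable.fst) ?_ ?_) (Computable.const 0)
        (Computable.const 1)
    · exact Computable.fst.comp (Computable.unpair.comp Computable.snd)
    · exact Computable.option_getD (Computable.decode.comp (Computable.snd.comp
        (Computable.unpair.comp Computable.snd))) (Computable.const [])
  -- the value of the test
  have hchk : ∀ n s', chk r n (S n) s' (if toSeq (opSet r (un (shN (S n + 1) X))) (m n)
      then 1 else 0) (preN X (S n + s' + 1)) = true ↔ s' = S (n + 1) := by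
    intro n s'
    have h1 : (preN X (S n + s' + 1)).getD (S n) 0 = X (S n) := preN_getD X (by omega) 0
    have h2 : ∀ t ≤ s', (preN X (S n + s' + 1)).take t = preN X t :=
      fun t ht => preN_take X (by omega)
    rw [chk, h1, hml n]
    simp only [Nat.unpair_pair]
    rcases hcase n with ⟨h3, h4, h5, h6, h7⟩ | ⟨h3, h4, h5⟩
    · have h8 : toSeq (opSet r (un (shN (S n + 1) X))) (m n) = true := toSeq_iff.2 (opN_iff.1 h3)
      rw [if_pos h8, if_pos (by simp)]
      constructor
      · intro h9
        rw [Bool.and_eq_true, Bool.and_eq_true, decide_eq_true_eq, List.all_eq_true] at h9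
        obtain ⟨⟨h10, h11⟩, h12⟩ := h9
        rw [h2 s' le_rfl, both, Bool.and_eq_true] at h11
        rcases lt_trichotomy s' (S (n + 1)) with h13 | h13 | h13
        · exact absurd h11 (h7 s' h10 h13)
        · exact h13
        · have h14 := h12 (S (n + 1)) (List.mem_range.2 h13)
          rw [h2 _ h13.le, both, h6.1, h6.2] at h14
          simp [h5] at h14
      · rintro rfl
        rw [Bool.and_eq_true, Bool.and_eq_true, decide_eq_true_eq, List.all_eq_true]
        refine ⟨⟨h5, ?_⟩, fun t ht => ?_⟩
        · rw [h2 _ le_rfl, both, h6.1, h6.2]; rfl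
        · rw [List.mem_range] at ht
          rw [h2 t ht.le, Bool.not_eq_true', Bool.eq_false_iff]
          intro h15
          rw [Bool.and_eq_true, decide_eq_true_eq, both, Bool.and_eq_true] at h15
          exact h7 t h15.1 ht h15.2
    · have h8 : ¬ (toSeq (opSet r (un (shN (S n + 1) X))) (m n) = true) :=
        fun h9 => h3 (opN_iff.2 (toSeq_iff.1 h9))
      rw [if_neg h8, if_neg (by simp), decide_eq_true_eq, h5]
  have hml' : ∀ n, (X (S n) / 2).unpair.1 = m n := fun n => by rw [hml n, Nat.unpair_pair]
  -- the sequence of positions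
  have hSrec : TotRec W S := by
    have h1 := Nat.RecursiveIn.rfind htest
    have h2 := Nat.RecursiveIn.prec (TotRec.of_computable (Z := W) (f := fun _ => 0)
      (Computable.const 0)) h1
    have h3 : Nat.RecursiveIn {chi W} (fun n => Part.some (Nat.pair 0 n)) :=
      TotRec.pair (TotRec.of_computable (Computable.const 0)) (TotRec.ident W)
    refine (Nat.RecursiveIn.comp h2 h3).of_eq fun n => ?_
    simp only [Part.bind_eq_bind, Part.bind_some, Nat.unpair_pair]
    induction n with
    | zero => simp [hS0]
    | succ n ih =>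
      simp only [ih, Part.bind_some]
      refine Part.eq_some_iff.2 (mem_rfind0.2 ⟨?_, fun s' hs' => ?_⟩)
      · simp only [Nat.unpair_pair, encodek, Option.getD_some, hml']
        rw [if_pos ((hchk n _).2 rfl)]
        exact Part.mem_some _
      · refine ⟨1, one_ne_zero, ?_⟩
        simp only [Nat.unpair_pair, encodek, Option.getD_some, hml']
        rw [if_neg fun h4 => hs'.ne ((hchk n _).1 h4)]
        exact Part.mem_some _
  -- the jump
  refine TotRec.turing (((hv (TotRec.comp_computable Computable.succ hSrec) (hlet hSrec) :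
    Nat.RecursiveIn _ _)).of_eq fun n => ?_)
  simp only [Part.some_inj]
  refine ite_iff ?_
  show toSeq (opSet r (un (shN (S n + 1) X))) ((X (S n) / 2).unpair.1) = true ↔ _
  rw [hml', toSeq_iff, toSeq_iff, ← opN_iff, ← jpN_iff]
  rcases hcase n with ⟨h3, h4, _⟩ | ⟨h3, h4, _⟩
  · exact ⟨fun _ => h4, fun _ => h3⟩
  · exact ⟨fun h5 => absurd h5 h3, fun h5 => absurd h5 h4⟩

end Pool.Agent.H19
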