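import Mathlib
import Pool.Agent.H19.Verify

/-!
Translations by the finite symmetric differences of a uniformly computable sequence of sets form a
computably hyperfinite equivalence relation.
-/

set_option autoImplicit false

namespace Pool.Agent.H19

open Encodable

theorem comp_xor {α : Type*} [Primcodable α] {f g : α → Bool} (hf : Computable f)
    (hg : Computable g) : Computable fun a => xor (f a) (g a) := by
  refine (comp_ite hf (comp_not hg) hg).of_eq fun a => ?_
  cases f a <;> simp

variable (S : ℕ → ℕ → Bool)

/-- The parity of the number of `i < N` in the finite set coded by `j` with `S i n`. -/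
def DN (n j : ℕ) : ℕ → Bool
  | 0 => false
  | N + 1 => xor (DN n j N) (j.testBit N && S N n)

theorem DN_xor (n j j' N : ℕ) : DN S n (j ^^^ j') N = xor (DN S n j N) (DN S n j' N) := by
  induction N with
  | zero => rfl
  | succ N ih =>
    simp only [DN, ih, Nat.testBit_xor]
    cases DN S n j N <;> cases DN S n j' N <;> cases j.testBit N <;> cases j'.testBit N <;>
      cases S N n <;> rfl

theorem DN_zero (n N : ℕ) : DN S n 0 N = false := by
  induction N with
  | zero => rfl
  | succ N ih => simp [DN, ih]

/-- The translation of strings by the set coded by `j`. -/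
def trans (e j : ℕ) (σ : List Bool) : List Bool :=
  (List.range σ.length).map fun n => xor (σ.getD n false) (DN S n j e)

theorem trans_pre (e j : ℕ) (X : ℕ → Bool) (s : ℕ) :
    trans S e j (pre X s) = pre (fun n => xor (X n) (DN S n j e)) s := by
  rw [trans, pre_length]
  refine List.map_congr_left fun n hn => ?_
  rw [pre_getD X (List.mem_range.1 hn)]

theorem maps_trans (e j : ℕ) (X Y : ℕ → Bool) :
    Maps (trans S e j) X Y ↔ ∀ n, Y n = xor (X n) (DN S n j e) := by
  constructor
  · intro h n
    obtain ⟨s, hs⟩ := h n
    rw [trans_pre] at hs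
    have hn : n < s := by
      rw [List.getElem?_eq_some_iff] at hs
      simpa [pre_length] using hs.1
    rw [pre_getElem? _ hn] at hs
    simpa using hs.symm
  · intro h n
    refine ⟨n + 1, ?_⟩
    rw [trans_pre, pre_getElem? _ (Nat.lt_succ_self n), h n]

theorem levelRel_trans (e : ℕ) (X Y : ℕ → Bool) :
    LevelRel (fun e => 2 ^ e) (trans S) e X Y ↔
      ∃ j < 2 ^ e, ∀ n, Y n = xor (X n) (DN S n j e) := by
  simp only [LevelRel, maps_trans]

theorem comp_testBit {α : Type*} [Primcodable α] {f g : α → ℕ} (hf : Computable f)
    (hg : Computable g) : Computable fun a => (f a).testBit (g a) := by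
  have h1 : Primrec₂ (fun a b : ℕ => a ^ b) := Primrec₂.unpaired'.1 Nat.Primrec.pow
  refine (comp_decEq (Primrec.nat_mod.to_comp.comp (Primrec.nat_div.to_comp.comp hf
    (h1.to_comp.comp (Computable.const 2) hg)) (Computable.const 2)) (Computable.const 1)).of_eq
      fun a => ?_
  rw [Nat.testBit_eq_decide_div_mod_eq]

theorem comp_DN (hS : Computable₂ S) {α : Type*} [Primcodable α] {f g e : α → ℕ}
    (hf : Computable f) (hg : Computable g) (he : Computable e) :
    Computable fun a => DN S (f a) (g a) (e a) := by
  have h1 : Computable₂ (fun (a : α) (p : ℕ × Bool) =>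
      xor p.2 ((g a).testBit p.1 && S p.1 (f a))) := by
    refine comp_xor (Computable.snd.comp Computable.snd) ?_
    refine comp_and (comp_testBit (hg.comp Computable.fst) (Computable.fst.comp Computable.snd)) ?_
    exact hS.comp (Computable.fst.comp Computable.snd) (hf.comp Computable.fst)
  refine (Computable.nat_rec he (Computable.const false) h1).of_eq fun a => ?_
  induction e a with
  | zero => rfl
  | succ n ih =>
    simp only at ih ⊢
    rw [ih]; rfl

theorem compHypFin_trans (hS : Computable₂ S) :
    CompHypFin (fun e => 2 ^ e) (trans S) where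
  computable_card := (Primrec₂.unpaired'.1 Nat.Primrec.pow).to_comp.comp (Computable.const 2)
    Computable.id
  computable_map := by
    refine comp_list_map (g := fun (x : ℕ × ℕ × List Bool) n =>
      xor (x.2.2.getD n false) (DN S n x.2.1 x.1)) (comp_range (Computable.list_length.comp
        (Computable.snd.comp Computable.snd))) ?_
    refine comp_xor ?_ ?_
    · exact (Primrec.list_getD false).to_comp.comp (Computable.snd.comp
        (Computable.snd.comp Computable.fst)) Computable.snd
    · exact comp_DN S hS Computable.snd (Computable.fst.comp (Computable.snd.comp Computable.fst))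
        (Computable.fst.comp Computable.fst)
  monotone := by
    rintro e j σ τ ⟨v, rfl⟩
    rw [List.prefix_iff_eq_take, trans, trans, ← List.map_take, List.take_range]
    have hmin : min ((List.range σ.length).map fun n =>
        xor (σ.getD n false) (DN S n j e)).length (σ ++ v).length = σ.length := by simp
    rw [hmin]
    refine List.map_congr_left fun n hn => ?_
    have hn' := List.mem_range.1 hn
    rw [List.getD_append _ _ _ _ hn']
  total := fun e j _ X => ⟨_, (maps_trans S e j X _).2 fun n => rfl⟩
  equivalence := fun e => by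
    constructor
    · intro X
      exact (levelRel_trans S e X X).2 ⟨0, by positivity, fun n => by simp [DN_zero]⟩
    · intro X Y hXY
      obtain ⟨j, hj, hn⟩ := (levelRel_trans S e X Y).1 hXY
      exact (levelRel_trans S e Y X).2 ⟨j, hj, fun n => by
        rw [hn n]; cases X n <;> cases DN S n j e <;> rfl⟩
    · intro X Y Z hXY hYZ
      obtain ⟨j, hj, hn⟩ := (levelRel_trans S e X Y).1 hXY
      obtain ⟨j', hj', hn'⟩ := (levelRel_trans S e Y Z).1 hYZ
      refine (levelRel_trans S e X Z).2 ⟨j ^^^ j', Nat.xor_lt_two_pow hj hj', fun n => ?_⟩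
      rw [hn' n, hn n, DN_xor]
      cases X n <;> cases DN S n j e <;> cases DN S n j' e <;> rfl
  increasing := fun e X Y hXY => by
    obtain ⟨j, hj, hn⟩ := (levelRel_trans S e X Y).1 hXY
    refine (levelRel_trans S (e + 1) X Y).2 ⟨j, hj.trans_le ?_, fun n => ?_⟩
    · exact Nat.pow_le_pow_right (by norm_num) (Nat.le_succ e)
    · rw [hn n, DN, Nat.testBit_lt_two_pow hj]
      simp

theorem DN_ofBits (F : Finset ℕ) (n : ℕ) (e : ℕ) (j : ℕ)
    (hj : ∀ i < e, j.testBit i = decide (i ∈ F)) (N : ℕ) (hN : N ≤ e) :
    DN S n j N = decide (Odd ((Finset.range N).filter fun i => i ∈ F ∧ S i n = true).card) := by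
  induction N with
  | zero => simp [DN]
  | succ N ih =>
    rw [DN, ih (by omega), hj N (by omega), Finset.range_add_one, Finset.filter_insert]
    by_cases hc : N ∈ F ∧ S N n = true
    · rw [if_pos hc, Finset.card_insert_of_notMem (by simp)]
      simp only [hc.1, hc.2, decide_true, Bool.and_true, Bool.xor_true, Nat.odd_add_one,
        decide_not]
    · rw [if_neg hc]
      have : (decide (N ∈ F) && S N n) = false := by
        by_cases h1 : N ∈ F
        · have h2 : S N n = false := by
            rw [← Bool.not_eq_true]; exact fun h2 => hc ⟨h1, h2⟩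
          simp [h2]
        · simp [h1]
      rw [this, Bool.xor_false]

/-- `X` and `Y` differ by the symmetric difference of the sets `S i`, `i ∈ F`. -/
theorem levelRel_of_finset (F : Finset ℕ) (X Y : ℕ → Bool)
    (h : ∀ n, X n ≠ Y n ↔ Odd (F.filter fun i => S i n = true).card) :
    ∃ e, LevelRel (fun e => 2 ^ e) (trans S) e X Y := by
  obtain ⟨e, he⟩ : ∃ e, ∀ i ∈ F, i < e :=
    ⟨F.sup id + 1, fun i hi => Nat.lt_succ_iff.2 (Finset.le_sup (f := id) hi)⟩
  refine ⟨e, (levelRel_trans S e X Y).2 ⟨Nat.ofBits (fun i : Fin e => decide (i.1 ∈ F)),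
    Nat.ofBits_lt_two_pow _, fun n => ?_⟩⟩
  rw [DN_ofBits S F n e _ (fun i hi => Nat.testBit_ofBits_lt _ i hi) e le_rfl]
  have h1 : (Finset.range e).filter (fun i => i ∈ F ∧ S i n = true) =
      F.filter fun i => S i n = true := by
    ext i
    simp only [Finset.mem_filter, Finset.mem_range]
    constructor
    · rintro ⟨_, h2⟩; exact h2
    · intro h2; exact ⟨he i h2.1, h2⟩
  rw [h1]
  by_cases hodd : Odd (F.filter fun i => S i n = true).card
  · have := (h n).2 hodd
    simp only [hodd, decide_true, Bool.xor_true]
    cases hX : X n <;> cases hY : Y n <;> simp_all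
  · have := mt (h n).1 hodd
    simp only [hodd, decide_false, Bool.xor_false]
    cases hX : X n <;> cases hY : Y n <;> simp_all

end Pool.Agent.H19
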